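import Mathlib

set_option autoImplicit false

/-!
# Project KS: solvable groups.  Definitions

Memo: `memo_MP_2c56d9_ag_SOLV_helper87.md` (team store).

* `RVal k R`: valuations `R → ℤ` trivial on `k`.
* `Fam k R m Γ`: derivations `δ 0, ..., δ (m - 1)` of `R` with weights `ω a ∈ Γ`, the bracket of
  `δ a` and `δ b` is a combination of the `δ c`, `c > a, b`, `ω c = ω a + ω b`; locally nilpotent;
  common kernel `k`.
* `Eb v b ω`: the elements with `v_i f ≥ -b_i - ω_i`.
-/

namespace Pool.Agent.Helper87.KS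

/-- A valuation on a domain `R`, trivial on `k`. (The value at `0` is the junk value `0`.) -/
structure RVal (k R : Type*) [Field k] [CommRing R] [Algebra k R] where
  toFun : R → ℤ
  map_zero' : toFun 0 = 0
  map_mul' : ∀ f g, f ≠ 0 → g ≠ 0 → toFun (f * g) = toFun f + toFun g
  map_add' : ∀ f g, f ≠ 0 → g ≠ 0 → f + g ≠ 0 → min (toFun f) (toFun g) ≤ toFun (f + g)
  map_const' : ∀ c : k, toFun (algebraMap k R c) = 0

namespace RVal

variable {k R : Type*} [Field k] [CommRing R] [Algebra k R]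

instance : CoeFun (RVal k R) fun _ => R → ℤ := ⟨RVal.toFun⟩

variable (v : RVal k R)

@[simp] lemma map_zero : v 0 = 0 := v.map_zero'

lemma map_mul {f g : R} (hf : f ≠ 0) (hg : g ≠ 0) : v (f * g) = v f + v g := v.map_mul' f g hf hg

@[simp] lemma map_const (c : k) : v (algebraMap k R c) = 0 := v.map_const' c

@[simp] lemma map_one : v 1 = 0 := by
  rw [← (algebraMap k R).map_one]
  exact v.map_const 1

/-- `v f ≥ n` (or `f = 0`). -/
def Ge (n : ℤ) (f : R) : Prop := f = 0 ∨ n ≤ v f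

variable {v}

@[simp] lemma Ge.zero {n : ℤ} : v.Ge n 0 := Or.inl rfl

lemma ge_iff {n : ℤ} {f : R} (hf : f ≠ 0) : v.Ge n f ↔ n ≤ v f := by
  unfold Ge
  simp [hf]

lemma ge_self (f : R) : v.Ge (v f) f := Or.inr le_rfl

lemma Ge.mono {n m : ℤ} {f : R} (h : v.Ge n f) (hm : m ≤ n) : v.Ge m f :=
  h.imp id fun h => hm.trans h

lemma Ge.add {n : ℤ} {f g : R} (hf : v.Ge n f) (hg : v.Ge n g) : v.Ge n (f + g) := by
  by_cases hf0 : f = 0
  · rwa [hf0, zero_add]
  by_cases hg0 : g = 0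
  · rwa [hg0, add_zero]
  by_cases h0 : f + g = 0
  · exact Or.inl h0
  rw [ge_iff hf0] at hf
  rw [ge_iff hg0] at hg
  rw [ge_iff h0]
  exact (le_min hf hg).trans (v.map_add' f g hf0 hg0 h0)

lemma Ge.mul {n m : ℤ} {f g : R} (hf : v.Ge n f) (hg : v.Ge m g) : v.Ge (n + m) (f * g) := by
  by_cases hf0 : f = 0
  · rw [hf0, zero_mul]; exact Ge.zero
  by_cases hg0 : g = 0
  · rw [hg0, mul_zero]; exact Ge.zero
  by_cases h0 : f * g = 0
  · exact Or.inl h0
  rw [ge_iff hf0] at hf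
  rw [ge_iff hg0] at hg
  rw [ge_iff h0, v.map_mul hf0 hg0]
  omega

lemma ge_const {n : ℤ} (hn : n ≤ 0) (c : k) : v.Ge n (algebraMap k R c) := by
  right
  simpa using hn

lemma ge_one {n : ℤ} (hn : n ≤ 0) : v.Ge n 1 := by
  right
  simpa using hn

lemma Ge.smul {n : ℤ} {f : R} (hf : v.Ge n f) (c : k) : v.Ge n (c • f) := by
  rw [Algebra.smul_def]
  have h := (ge_const (v := v) le_rfl c).mul hf
  rwa [zero_add] at h

lemma Ge.neg {n : ℤ} {f : R} (hf : v.Ge n f) : v.Ge n (-f) := by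
  have h := hf.smul (-1 : k)
  rwa [neg_one_smul] at h

lemma Ge.sub {n : ℤ} {f g : R} (hf : v.Ge n f) (hg : v.Ge n g) : v.Ge n (f - g) := by
  rw [sub_eq_add_neg]
  exact hf.add hg.neg

lemma Ge.sum {ι : Type*} {s : Finset ι} {f : ι → R} {n : ℤ} (h : ∀ i ∈ s, v.Ge n (f i)) :
    v.Ge n (∑ i ∈ s, f i) := by
  classical
  induction s using Finset.induction_on with
  | empty => simp
  | insert a s ha ih =>
    rw [Finset.sum_insert ha]
    exact (h a (Finset.mem_insert_self a s)).add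
      (ih fun i hi => h i (Finset.mem_insert_of_mem hi))

lemma Ge.pow {n : ℤ} {f : R} (hf : v.Ge n f) (m : ℕ) : v.Ge (m * n) (f ^ m) := by
  induction m with
  | zero =>
    rw [pow_zero]
    exact ge_one (by simp)
  | succ m ih =>
    rw [pow_succ]
    refine (ih.mul hf).mono ?_
    push_cast
    linarith

variable (v) in
/-- The subspace `{f | v f ≥ n}`. -/
def filt (n : ℤ) : Submodule k R where
  carrier := {f | v.Ge n f}
  zero_mem' := Ge.zero
  add_mem' := Ge.add
  smul_mem' c _ h := h.smul c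

@[simp] lemma mem_filt {n : ℤ} {f : R} : f ∈ v.filt n ↔ v.Ge n f := Iff.rfl

end RVal

/-- A family of derivations with weights. -/
structure Fam (k R : Type*) [Field k] [CommRing R] [Algebra k R] (m : ℕ) (Γ : Type*)
    [AddCommGroup Γ] where
  δ : Fin m → Derivation k R R
  ω : Fin m → Γ
  malcev : ∀ a b, ⁅δ a, δ b⁆ ∈ Submodule.span k (δ '' {c | a < c ∧ b < c ∧ ω c = ω a + ω b})
  nil : ∀ a f, ∃ n : ℕ, (δ a)^[n] f = 0
  ker : ∀ f, (∀ a, δ a f = 0) → ∃ c : k, f = algebraMap k R c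

/-- The valuations `v i` drop by at most `ω a i` under `δ a`. -/
def Mono {k R J : Type*} [Field k] [CommRing R] [Algebra k R] {m : ℕ} {W : AddSubgroup (J → ℤ)}
    (F : Fam k R m W) (v : J → RVal k R) : Prop :=
  ∀ i a (n : ℤ) f, (v i).Ge n f → (v i).Ge (n - (F.ω a : J → ℤ) i) (F.δ a f)

/-- The elements `f` of `R` with `v_i(f) ≥ -b_i - ω_i` for all `i`. -/
def Eb {k R J : Type*} [Field k] [CommRing R] [Algebra k R] (v : J → RVal k R) (b ω : J → ℤ) :
    Submodule k R := ⨅ i, (v i).filt (-(b i) - ω i)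

section

variable {k R J : Type*} [Field k] [CommRing R] [Algebra k R] {v : J → RVal k R}

lemma mem_Eb {b ω : J → ℤ} {f : R} : f ∈ Eb v b ω ↔ ∀ i, (v i).Ge (-(b i) - ω i) f := by
  simp [Eb]

/-- The derivation `δ a` maps `E ω` to `E (ω + ω a)`. -/
lemma Eb_stable {m : ℕ} {W : AddSubgroup (J → ℤ)} {F : Fam k R m W} (hF : Mono F v) (a : Fin m)
    {b : J → ℤ} {ω : W} {f : R} (hf : f ∈ Eb v b (ω : J → ℤ)) :
    F.δ a f ∈ Eb v b ((ω + F.ω a : W) : J → ℤ) := by
  rw [mem_Eb] at hf ⊢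
  intro i
  refine (hF i a _ f (hf i)).mono (le_of_eq ?_)
  rw [AddSubgroup.coe_add, Pi.add_apply]
  ring

end

/-- The subgroup `W` of `ℤ^J` contains no nonzero vector with nonnegative coordinates. -/
def Pointed {J : Type*} (W : AddSubgroup (J → ℤ)) : Prop :=
  ∀ ω : W, (∀ i, 0 ≤ (ω : J → ℤ) i) → ω = 0

/-- There are no homogeneous elements `f y^ω` with `v_i(f) + ω_i ≥ 0` for all `i`, except for the
constants. -/
def NoConst {k R J : Type*} [Field k] [CommRing R] [Algebra k R] (v : J → RVal k R)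
    (W : AddSubgroup (J → ℤ)) : Prop :=
  ∀ ω : W, ∀ f ∈ Eb v 0 (ω : J → ℤ), f ≠ 0 → ω = 0 ∧ ∃ c : k, f = algebraMap k R c

/-- A graded family of subspaces is finite dimensional. -/
def GFin {k V Γ : Type*} [Field k] [AddCommGroup V] [Module k V] (E : Γ → Submodule k V) : Prop :=
  {ω | E ω ≠ ⊥}.Finite ∧ ∀ ω, FiniteDimensional k (E ω)

/-- The image of the polynomials of degree `≤ T`. -/
noncomputable def Fil {k R : Type*} [Field k] [CommRing R] [Algebra k R] {n : ℕ}
    (φ : MvPolynomial (Fin n) k →ₐ[k] R) (T : ℕ) : Submodule k R :=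
  (MvPolynomial.restrictTotalDegree (Fin n) k T).map φ.toLinearMap

/-- The box `|μ_j| ≤ T`. -/
noncomputable def box (s T : ℕ) : Finset (Fin s → ℤ) := Fintype.piFinset fun _ => Finset.Icc (-(T : ℤ)) T

/-- The number `∑ dim (E_{w μ}(b) ∩ Fil T)`, the sum over the box `|μ| ≤ T`. -/
noncomputable def cntb {k R J : Type*} [Field k] [CommRing R] [Algebra k R] {n s : ℕ}
    {W : AddSubgroup (J → ℤ)} (φ : MvPolynomial (Fin n) k →ₐ[k] R) (v : J → RVal k R)
    (w : (Fin s → ℤ) →+ W) (b : J → ℤ) (T : ℕ) : ℕ :=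
  ∑ μ ∈ box s T, Module.finrank k (Eb v b (w μ : J → ℤ) ⊓ Fil φ T : Submodule k R)

/-- The graded subspace of `Γ →₀ V` with components `E ω`. -/
def gsub {k V Γ : Type*} [Field k] [AddCommGroup V] [Module k V] (E : Γ → Submodule k V) :
    Submodule k (Γ →₀ V) where
  carrier := {F | ∀ ω, F ω ∈ E ω}
  zero_mem' ω := (E ω).zero_mem
  add_mem' h h' ω := (E ω).add_mem (h ω) (h' ω)
  smul_mem' c _ h ω := (E ω).smul_mem c (h ω)

@[simp] lemma mem_gsub {k V Γ : Type*} [Field k] [AddCommGroup V] [Module k V]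
    {E : Γ → Submodule k V} {F : Γ →₀ V} : F ∈ gsub E ↔ ∀ ω, F ω ∈ E ω := Iff.rfl

/-- The operator `f y^ω ↦ D(f) y^(ω + γ)` on `Γ →₀ V`. -/
noncomputable def tilde {k V Γ : Type*} [Field k] [AddCommGroup V] [Module k V] [AddCommGroup Γ]
    (D : Module.End k V) (γ : Γ) : Module.End k (Γ →₀ V) :=
  (Finsupp.lmapDomain V k (fun ω => ω + γ)) ∘ₗ (Finsupp.mapRange.linearMap D)

/-- The bracket of two operators. -/
def br {k V : Type*} [Field k] [AddCommGroup V] [Module k V] (A B : Module.End k V) :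
    Module.End k V := A * B - B * A

/-- A family of operators such that `[A a, A b]` is a combination of the `A c` with `c > a, b`. -/
def IsMalcev {k V : Type*} [Field k] [AddCommGroup V] [Module k V] {m : ℕ}
    (A : Fin m → Module.End k V) : Prop :=
  ∀ a b, br (A a) (A b) ∈ Submodule.span k (A '' {c | a < c ∧ b < c})

end Pool.Agent.Helper87.KS
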