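import Pool.Agent.Helper87.KS.Growth
import Pool.Agent.Helper47.PQ.D10

set_option autoImplicit false

/-!
# Project KS, module KS-21: from the sections to `κ = ν`

PROOF. `≤`: `kod_le_nu` (D10). `≥`: `B.growth M`. First case: for every `A`, `h2` gives `h0 (m D + A) ≤ sdim (sec ((m / N) • M + A')) = 0` for
`m ≥ N n₁` (`sdim_bot`), so all the `logGrowth` are `⊥` (`logGrowth_eq_bot`) and `nu = ⊥`.
Second case: `h0 (m D + A) ≤ K sdim (sec ((C (m / N + 1)) • M)) = K h0 ((N C (m / N + 1)) D)` by `h1`. By `regular D`: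
either `H0 (m • D) = ⊥` for all `m ≥ 1`, so (`h0_le`) all the `h0 (m D + A)` are `0` and `nu = ⊥`; or there are `d`, `C'`, with
`kod D = d`, `h0 (m D) ≤ C' m ^ d` (`X.h0_le`) for `m ≥ 1`, so `h0 (m D + A) ≤ K C' (N C (m / N + 1)) ^ d ≤ K' m ^ d`, and `logGrowth ≤ d`
(`logGrowth_le_of_le` / `logGrowth_le` as in `logGrowth_eq_of_bounds`, or `Helper93/KN/Final1.lean` `logGrowth_le_of_bound`). -/

namespace Pool.Agent.Helper87.KS

open Pool.Agent.Helper92.Weak Pool.Agent.Helper47.PQ Filter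

private lemma fin1_le {h : ℕ → ℕ∞} {n C : ℕ}
    (hU : ∀ m : ℕ, 1 ≤ m → h m ≤ C * (m : ℕ∞) ^ n) : logGrowth h ≤ n := by
  have h1 := logGrowth_le (h1 := h) (h2 := fun _ => 1) (s := n) (C := C) (a := 1) (c := 0)
    (φ := id) tendsto_id (fun m => by simp) (by
      filter_upwards [eventually_ge_atTop 1] with m hm
      rw [mul_one]
      exact hU m hm)
  have h2 : logGrowth (fun _ => 1) = 0 := by
    unfold logGrowth
    simp
  rwa [h2, add_zero] at h1

theorem kod_eq_nu_of_sdata {k L : Type*} [Field k] [IsAlgClosed k] [CharZero k] [Field L]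
    [Algebra k L] (X : ProjVar k L) (D : X.Div) {r s : ℕ} {H : Type*} [Fintype H]
    (B : SData k r s H) {N : ℕ} (hN : 1 ≤ N) (M : H → ℤ)
    (h1 : ∀ n : ℕ, X.h0 (((N * n : ℕ) : ℚ) • D) = sdim (B.sec (n • M)))
    (h2 : ∀ A : X.Div, ∃ A' : H → ℤ, ∀ m : ℕ,
      X.h0 ((m : ℚ) • D + A) ≤ sdim (B.sec ((m / N) • M + A'))) : X.kod D = X.nu D := by
  refine le_antisymm (kod_le_nu D) ?_
  unfold ProjVar.nu
  refine iSup_le fun A => ?_
  obtain ⟨A', hA'⟩ := h2 A
  rcases B.growth M with hg | hg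
  · obtain ⟨n₁, hn₁⟩ := hg A'
    rw [logGrowth_eq_bot]
    · exact bot_le
    · filter_upwards [eventually_ge_atTop (N * n₁)] with m hm
      have h3 : n₁ ≤ m / N := by
        rw [Nat.le_div_iff_mul_le hN, mul_comm]
        exact hm
      have h4 := hA' m
      rw [hn₁ _ h3, sdim_bot] at h4
      exact le_antisymm h4 zero_le
  · obtain ⟨K, C, hC, hK⟩ := hg A'
    have h3 : ∀ m : ℕ, X.h0 ((m : ℚ) • D + A) ≤
        K * sdim (X.H0 (((N * (C * (m / N + 1)) : ℕ) : ℚ) • D)) := by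
      intro m
      refine (hA' m).trans ((hK (m / N)).trans ?_)
      rw [← h1]
      exact mul_le_mul_right (X.h0_le _) _
    have h4 : ∀ m : ℕ, 1 ≤ N * (C * (m / N + 1)) := fun m =>
      Nat.mul_pos hN (Nat.mul_pos hC (Nat.succ_pos _))
    rcases regular D with ⟨h0, -⟩ | ⟨d, C', m₀, hk, -, -, -, hu⟩
    · rw [logGrowth_eq_bot]
      · exact bot_le
      · refine Eventually.of_forall fun m => ?_
        have h5 := h3 m
        rw [h0 _ (h4 m), sdim_bot, mul_zero] at h5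
        exact le_antisymm h5 zero_le
    · rw [hk]
      refine fin1_le (C := K * (C' * (N * (C * 2)) ^ d)) fun m hm => ?_
      refine (h3 m).trans ?_
      have h6 : N * (C * (m / N + 1)) ≤ (N * (C * 2)) * m := by
        have h7 : m / N + 1 ≤ 2 * m := by
          have := Nat.div_le_self m N
          omega
        calc N * (C * (m / N + 1)) ≤ N * (C * (2 * m)) := by gcongr
          _ = (N * (C * 2)) * m := by ring
      have h8 : ((N * (C * (m / N + 1)) : ℕ) : ℕ∞) ^ d ≤ (((N * (C * 2)) * m : ℕ) : ℕ∞) ^ d := by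
        gcongr
      calc (K : ℕ∞) * sdim (X.H0 (((N * (C * (m / N + 1)) : ℕ) : ℚ) • D)) ≤
          K * (C' * ((N * (C * (m / N + 1)) : ℕ) : ℕ∞) ^ d) := mul_le_mul_right (hu _ (h4 m)) _
        _ ≤ K * (C' * (((N * (C * 2)) * m : ℕ) : ℕ∞) ^ d) :=
            mul_le_mul_right (mul_le_mul_right h8 _) _
        _ = ((K * (C' * (N * (C * 2)) ^ d) : ℕ) : ℕ∞) * (m : ℕ∞) ^ d := by
            push_cast
            ring

end Pool.Agent.Helper87.KS
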