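import Pool.Agent.Helper87.KS.Soc
import Pool.Agent.Helper93.KN.Deriv

set_option autoImplicit false

/-! Module KS-AB. Commuting locally nilpotent derivations with trivial invariants.

PROOF. `V = {f ∈ S | ∀ a, δ a f ∈ k}`; `f ↦ (δ a f)_a` is a linear map `V → kᵐ` with kernel `k`. Choose
`ℓ_1, ..., ℓ_n ∈ V` whose images are a basis of the range, and combinations `D_j = ∑ e_{ja} δ a` with
`D_j ℓ_i = δ_{ij}` (dual basis). `φ X_j = ℓ_j`; `φ (pderiv j f) = D_j (φ f)` (both sides are derivations
along `φ` which agree on the `X_i`). `φ` is injective: if `φ f = 0`, `f ≠ 0`, of minimal total degree, then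
all `pderiv j f` are zero, so `f` is a constant, contradiction. Surjective onto `S`: let `S' = φ.range ≤ S`,
stable under all `δ a` (`δ a ℓ_j ∈ k`, `φ.range` is a subalgebra). If `S' ≠ S`: `exists_soc` for the commuting operators
`δ a` gives `f ∈ S`, `f ∉ S'`, `δ a f ∈ S'` for all `a`. Integrating one variable after the other
(`exists_int`) one gets `h` with `D_j (f - φ h) = 0` for all `j`. Replace `f` by `f - φ h`: `D_j f = 0` for all
`j`, `f ∈ S`, `f ∉ S'`, `δ a f ∈ S'`. `D_j (δ a f) = δ a (D_j f) = 0` and `δ a f = φ q`, so `pderiv j q = 0`, `q` constant: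
`δ a f ∈ k`, so `f ∈ V ≤ S'` (`V = k + ∑ k ℓ_j`). Contradiction. -/

namespace Pool.Agent.Helper87.KS

open MvPolynomial

/-- Integration of a polynomial in one variable. -/
private theorem ab_int {k σ : Type*} [Field k] [CharZero k] [DecidableEq σ] (t : σ) :
    ∃ I : MvPolynomial σ k →ₗ[k] MvPolynomial σ k, (∀ g, pderiv t (I g) = g) ∧
      ∀ j, j ≠ t → ∀ g, pderiv j (I g) = I (pderiv j g) := by
  let I : MvPolynomial σ k →ₗ[k] MvPolynomial σ k :=
    (MvPolynomial.basisMonomials σ k).constr k
      (fun s => monomial (s + Finsupp.single t 1) (((s t : k) + 1)⁻¹))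
  have hI : ∀ (s : σ →₀ ℕ) (c : k),
      I (monomial s c) = monomial (s + Finsupp.single t 1) (c * ((s t : k) + 1)⁻¹) := by
    intro s c
    have h1 : I (monomial s 1) = monomial (s + Finsupp.single t 1) (((s t : k) + 1)⁻¹) := by
      have h2 := (MvPolynomial.basisMonomials σ k).constr_basis k
        (fun s => monomial (s + Finsupp.single t 1) (((s t : k) + 1)⁻¹) : (σ →₀ ℕ) →
          MvPolynomial σ k) s
      rw [MvPolynomial.coe_basisMonomials] at h2
      exact h2
    have h3 : (monomial s c : MvPolynomial σ k) = c • monomial s 1 := by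
      rw [smul_monomial, smul_eq_mul, mul_one]
    rw [h3, map_smul, h1, smul_monomial, smul_eq_mul]
  have hne : ∀ n : ℕ, (n : k) + 1 ≠ 0 := fun n => by exact_mod_cast Nat.succ_ne_zero n
  refine ⟨I, fun g => ?_, fun j hj g => ?_⟩
  · induction g using MvPolynomial.monomial_add_induction_on with
    | C a =>
      rw [← monomial_zero', hI, pderiv_monomial]
      simp
    | monomial_add s c f _ _ ih =>
      rw [map_add, map_add, ih, hI, pderiv_monomial]
      congr 1
      rw [add_tsub_cancel_right, Finsupp.add_apply, Finsupp.single_eq_same, Nat.cast_add,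
        Nat.cast_one, mul_assoc, inv_mul_cancel₀ (hne _), mul_one]
  · induction g using MvPolynomial.monomial_add_induction_on with
    | C a =>
      rw [← monomial_zero', hI, pderiv_monomial, pderiv_monomial]
      simp [Finsupp.single_apply, hj.symm]
    | monomial_add s c f _ _ ih =>
      rw [map_add, map_add, ih, hI, pderiv_monomial, map_add, map_add, pderiv_monomial, hI]
      congr 1
      have h1 : (s + Finsupp.single t 1 : σ →₀ ℕ) j = s j := by
        rw [Finsupp.add_apply, Finsupp.single_apply, if_neg hj.symm, add_zero]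
      have h2 : (s - Finsupp.single j 1 : σ →₀ ℕ) t = s t := by
        rw [Finsupp.tsub_apply, Finsupp.single_apply, if_neg hj, tsub_zero]
      rw [h1, h2]
      rcases Nat.eq_zero_or_pos (s j) with h3 | h3
      · rw [h3, Nat.cast_zero]
        simp
      · have h4 : (s + Finsupp.single t 1 - Finsupp.single j 1 : σ →₀ ℕ) =
            s - Finsupp.single j 1 + Finsupp.single t 1 := by
          ext i
          simp only [Finsupp.tsub_apply, Finsupp.add_apply, Finsupp.single_apply]
          by_cases hij : j = i
          · subst hij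
            rw [if_neg hj.symm]
            simp
          · simp [hij]
        rw [h4]
        congr 1
        ring

theorem exists_poly {k R : Type*} [Field k] [CharZero k] [CommRing R] [IsDomain R] [Algebra k R]
    {m : ℕ} (δ : Fin m → Derivation k R R) (S : Subalgebra k R)
    (hS : ∀ a, ∀ f ∈ S, δ a f ∈ S) (hcomm : ∀ a b, ∀ f ∈ S, δ a (δ b f) = δ b (δ a f))
    (hnil : ∀ a, ∀ f ∈ S, ∃ n : ℕ, (δ a)^[n] f = 0)
    (hker : ∀ f ∈ S, (∀ a, δ a f = 0) → ∃ c : k, f = algebraMap k R c) :
    ∃ (n : ℕ) (φ : MvPolynomial (Fin n) k →ₐ[k] R), Function.Injective φ ∧ φ.range = S ∧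
      ∀ j, ∃ e : Fin m → k, ∀ f, φ (MvPolynomial.pderiv j f) = ∑ a, e a • δ a (φ f) := by
  classical
  have hinj : Function.Injective (algebraMap k R) := FaithfulSMul.algebraMap_injective k R
  -- the space `V`, described by its values
  let W : Submodule k (Fin m → k) :=
    { carrier := {w | ∃ f ∈ S, ∀ a, δ a f = algebraMap k R (w a)}
      zero_mem' := ⟨0, S.zero_mem, fun a => by simp⟩
      add_mem' := by
        rintro w w' ⟨f, hf, h⟩ ⟨f', hf', h'⟩
        exact ⟨f + f', S.add_mem hf hf', fun a => by
          rw [map_add, h, h', Pi.add_apply, map_add]⟩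
      smul_mem' := by
        rintro c w ⟨f, hf, h⟩
        exact ⟨c • f, S.smul_mem hf c, fun a => by
          rw [Derivation.map_smul, h, Pi.smul_apply, smul_eq_mul, map_mul, Algebra.smul_def]⟩ }
  let bas := Module.finBasis k W
  obtain ⟨n, hn⟩ : ∃ n, n = Module.finrank k W := ⟨_, rfl⟩
  have hlift : ∀ i, ∃ f ∈ S, ∀ a, δ a f = algebraMap k R ((bas i : Fin m → k) a) :=
    fun i => (bas i).2
  choose ℓ hℓS hℓ using hlift
  obtain ⟨p, hp⟩ := W.subtype.exists_leftInverse_of_injective (by simp)
  let e : Fin (Module.finrank k W) → Fin m → k := fun j a => bas.repr (p (Pi.single a 1)) j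
  have he : ∀ (w : W) j, ∑ a, e j a * (w : Fin m → k) a = bas.repr w j := by
    intro w j
    have h1 : (w : Fin m → k) = ∑ a, (w : Fin m → k) a • (Pi.single a 1 : Fin m → k) := by
      ext b
      simp [Finset.sum_apply, Pi.single_apply]
    have h2 : p (w : Fin m → k) = w := by
      have := LinearMap.congr_fun hp w
      simpa using this
    have h3 : bas.repr w j = bas.repr (p (∑ a, (w : Fin m → k) a • (Pi.single a 1 : Fin m → k))) j := by
      rw [← h1, h2]
    rw [h3, map_sum, map_sum, Finsupp.finsetSum_apply]
    refine Finset.sum_congr rfl fun a _ => ?_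
    rw [map_smul, map_smul, Finsupp.smul_apply, smul_eq_mul, mul_comm]
  let D : Fin (Module.finrank k W) → Derivation k R R := fun j => ∑ a, e j a • δ a
  have hD : ∀ j f, D j f = ∑ a, e j a • δ a f := by
    intro j f
    have h1 : ((∑ a, e j a • δ a : Derivation k R R) : R → R) = ∑ a, ⇑(e j a • δ a) :=
      map_sum (Derivation.coeFnAddMonoidHom (R := k) (A := R) (M := R)) _ _
    have h2 : D j f = (∑ a, ⇑(e j a • δ a)) f := congrFun h1 f
    rw [h2, Finset.sum_apply]
    rfl
  have hDS : ∀ j, ∀ f ∈ S, D j f ∈ S := by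
    intro j f hf
    rw [hD]
    exact S.sum_mem fun a _ => S.smul_mem (hS a f hf) _
  -- `D j` of an element of `V`
  have hDV : ∀ (w : W) f, (∀ a, δ a f = algebraMap k R ((w : Fin m → k) a)) →
      ∀ j, D j f = algebraMap k R (bas.repr w j) := by
    intro w f hf j
    rw [hD, ← he, map_sum]
    refine Finset.sum_congr rfl fun a _ => ?_
    rw [hf, Algebra.smul_def, map_mul]
  have hDℓ : ∀ j i, D j (ℓ i) = if i = j then 1 else 0 := by
    intro j i
    rw [hDV (bas i) (ℓ i) (hℓ i) j, Module.Basis.repr_self, Finsupp.single_apply]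
    split_ifs <;> simp
  let φ : MvPolynomial (Fin (Module.finrank k W)) k →ₐ[k] R := aeval ℓ
  have hφX : ∀ i, φ (X i) = ℓ i := fun i => aeval_X ℓ i
  have hφC : ∀ c : k, φ (C c) = algebraMap k R c := fun c => aeval_C ℓ c
  have hpd : ∀ j f, φ (pderiv j f) = D j (φ f) := by
    intro j f
    induction f using MvPolynomial.induction_on with
    | C a => rw [pderiv_C, map_zero, hφC, Derivation.map_algebraMap]
    | add f g hf hg => rw [map_add, map_add, map_add, map_add, hf, hg]
    | mul_X f i hf =>
      rw [Derivation.leibniz, map_add, map_mul, Derivation.leibniz, smul_eq_mul, smul_eq_mul,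
        smul_eq_mul, smul_eq_mul, map_mul, map_mul, hf, hφX, hDℓ, pderiv_X, Pi.single_apply]
      by_cases h : i = j
      · subst h
        simp
      · rw [if_neg h, if_neg h, map_zero]
  have hφinj : Function.Injective φ := by
    rw [injective_iff_map_eq_zero]
    intro f
    induction hd : f.totalDegree using Nat.strong_induction_on generalizing f with
    | _ d ih =>
      intro hf
      have h0 : ∀ j, pderiv j f = 0 := by
        intro j
        by_contra hne
        have h1 := Pool.Agent.Helper93.KN.totalDegree_pderiv_lt hne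
        refine hne (ih _ (hd ▸ h1) (pderiv j f) rfl ?_)
        rw [hpd, hf, map_zero]
      have h1 := Pool.Agent.Helper93.KN.eq_C_of_pderiv h0
      rw [h1, hφC] at hf
      rw [h1, (map_eq_zero_iff _ hinj).1 hf, C_0]
  have hφS : ∀ f, φ f ∈ S := by
    intro f
    induction f using MvPolynomial.induction_on with
    | C a => rw [hφC]; exact S.algebraMap_mem a
    | add f g hf hg => rw [map_add]; exact S.add_mem hf hg
    | mul_X f i hf => rw [map_mul, hφX]; exact S.mul_mem hf (hℓS i)
  have hδφ : ∀ a f, ∃ g, δ a (φ f) = φ g := by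
    intro a f
    induction f using MvPolynomial.induction_on with
    | C c => exact ⟨0, by rw [hφC, Derivation.map_algebraMap, map_zero]⟩
    | add f g hf hg =>
      obtain ⟨f', hf'⟩ := hf
      obtain ⟨g', hg'⟩ := hg
      exact ⟨f' + g', by rw [map_add, map_add, hf', hg', map_add]⟩
    | mul_X f i hf =>
      obtain ⟨f', hf'⟩ := hf
      refine ⟨f * C ((bas i : Fin m → k) a) + X i * f', ?_⟩
      rw [map_mul, Derivation.leibniz, hφX, hℓ, hf', map_add, map_mul, map_mul, hφX, hφC,
        smul_eq_mul, smul_eq_mul]
  -- elements of `V` are in the range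
  have hV : ∀ (w : W) f, f ∈ S → (∀ a, δ a f = algebraMap k R ((w : Fin m → k) a)) →
      f ∈ φ.range := by
    intro w f hfS hf
    have h1 : ∀ a, δ a (f - ∑ i, bas.repr w i • ℓ i) = 0 := by
      intro a
      have h2 : (w : Fin m → k) a = ∑ i, bas.repr w i * (bas i : Fin m → k) a := by
        have h21 : (w : Fin m → k) = ∑ i, bas.repr w i • (bas i : Fin m → k) := by
          have h22 := congrArg (Subtype.val) (bas.sum_repr w)
          rw [Submodule.coe_sum] at h22
          exact h22.symm
        have h23 := congrFun h21 a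
        rw [Finset.sum_apply] at h23
        exact h23
      rw [map_sub, map_sum, hf, h2, map_sum, sub_eq_zero]
      refine Finset.sum_congr rfl fun i _ => ?_
      rw [Derivation.map_smul, hℓ, map_mul, Algebra.smul_def]
    obtain ⟨c, hc⟩ := hker _ (S.sub_mem hfS (S.sum_mem fun i _ => S.smul_mem (hℓS i) _)) h1
    have h3 : f = φ (C c + ∑ i, bas.repr w i • X i) := by
      rw [map_add, map_sum, hφC, ← hc]
      simp only [map_smul, hφX]
      ring
    exact ⟨_, h3.symm⟩
  have hsurj : S ≤ φ.range := by
    -- the operators on `S`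
    let A : Fin m → Module.End k S := fun a =>
      (δ a : R →ₗ[k] R).restrict (p := Subalgebra.toSubmodule S) (q := Subalgebra.toSubmodule S)
        (fun f hf => hS a f hf)
    have hA : ∀ a (f : S), ((A a f : S) : R) = δ a (f : R) := fun a f => rfl
    have hApow : ∀ a (n : ℕ) (f : S), (((A a ^ n) f : S) : R) = (δ a)^[n] (f : R) := by
      intro a n
      induction n with
      | zero => intro f; rfl
      | succ n ih =>
        intro f
        rw [pow_succ, Module.End.mul_apply, ih, hA, Function.iterate_succ_apply]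
    have hMal : IsMalcev A := by
      intro a b
      have h0 : br (A a) (A b) = 0 := by
        ext f
        have : ((br (A a) (A b) f : S) : R) = δ a (δ b f) - δ b (δ a f) := rfl
        rw [this, hcomm a b f f.2, sub_self]
        rfl
      rw [h0]
      exact Submodule.zero_mem _
    by_contra hcon
    let E' : Submodule k S := (Subalgebra.toSubmodule φ.range).comap S.val.toLinearMap
    have hE' : ∀ f : S, f ∈ E' ↔ (f : R) ∈ φ.range := fun f => Iff.rfl
    obtain ⟨f, -, hf, hfa⟩ := exists_soc hMal (E := ⊤) (E' := E') (fun a f _ => trivial)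
      (by
        intro a f hf
        rw [hE'] at hf ⊢
        obtain ⟨g, hg⟩ := hf
        obtain ⟨g', hg'⟩ := hδφ a g
        have hg2 : φ g = (f : R) := hg
        exact ⟨g', by rw [hA, ← hg2, hg']; rfl⟩)
      (by
        intro a f _
        obtain ⟨n, hn⟩ := hnil a f f.2
        exact ⟨n, Subtype.ext (by rw [hApow, hn]; rfl)⟩)
      (by
        intro hle
        apply hcon
        intro f hf
        exact (hE' ⟨f, hf⟩).1 (hle trivial))
    rw [hE'] at hf
    have hfa' : ∀ a, δ a (f : R) ∈ φ.range := fun a => (hE' _).1 (hfa a)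
    -- integrate one variable after the other
    have hint : ∀ t : ℕ, t ≤ Module.finrank k W → ∃ h, ∀ j : Fin (Module.finrank k W), (j : ℕ) < t →
        D j ((f : R) - φ h) = 0 := by
      intro t
      induction t with
      | zero => intro _; exact ⟨0, fun j hj => absurd hj (Nat.not_lt_zero _)⟩
      | succ t ih =>
        intro ht
        obtain ⟨h, hh⟩ := ih (by omega)
        let T : Fin (Module.finrank k W) := ⟨t, by omega⟩
        have h1 : D T ((f : R) - φ h) ∈ φ.range := by
          rw [map_sub, hD]
          refine Subalgebra.sub_mem _ (Subalgebra.sum_mem _ fun a _ =>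
            Subalgebra.smul_mem _ (hfa' a) _) ⟨_, hpd T h⟩
        obtain ⟨g, hg⟩ := h1
        obtain ⟨I, hI1, hI2⟩ := ab_int (k := k) T
        refine ⟨h + I g, fun j hj => ?_⟩
        rw [map_add, ← sub_sub, map_sub, ← hpd]
        by_cases hjT : j = T
        · rw [hjT, hI1]
          exact sub_eq_zero.2 hg.symm
        · have hjt : (j : ℕ) < t := by
            have : (j : ℕ) ≠ t := fun h => hjT (Fin.ext h)
            omega
          have h2 : pderiv j g = 0 := by
            apply hφinj
            rw [map_zero, hpd]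
            have h3 : D j (φ g) = D j (D T ((f : R) - φ h)) := congrArg (D j) hg
            have h4 : D j (D T ((f : R) - φ h)) = D T (D j ((f : R) - φ h)) := by
              have h5 : (f : R) - φ h ∈ S := S.sub_mem f.2 (hφS h)
              simp only [hD, map_sum, Derivation.map_smul, Finset.smul_sum]
              rw [Finset.sum_comm]
              refine Finset.sum_congr rfl fun a _ => Finset.sum_congr rfl fun b _ => ?_
              rw [hcomm _ _ _ h5, smul_comm]
            rw [h3, h4, hh j hjt, map_zero]
          rw [hh j hjt, hI2 j hjT, h2, map_zero, map_zero, sub_zero]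
    obtain ⟨h, hh⟩ := hint _ le_rfl
    have hh' : ∀ j, D j ((f : R) - φ h) = 0 := fun j => hh j j.2
    have h5 : (f : R) - φ h ∈ S := S.sub_mem f.2 (hφS h)
    have hcD : ∀ a j, D j (δ a ((f : R) - φ h)) = 0 := by
      intro a j
      have h6 : D j (δ a ((f : R) - φ h)) = δ a (D j ((f : R) - φ h)) := by
        simp only [hD, map_sum, Derivation.map_smul]
        refine Finset.sum_congr rfl fun b _ => ?_
        rw [hcomm _ _ _ h5]
      rw [h6, hh', map_zero]
    have hconst : ∀ a, ∃ c : k, δ a ((f : R) - φ h) = algebraMap k R c := by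
      intro a
      have h7 : δ a ((f : R) - φ h) ∈ φ.range := by
        rw [map_sub]
        obtain ⟨g, hg⟩ := hδφ a h
        exact Subalgebra.sub_mem _ (hfa' a) ⟨g, hg.symm⟩
      obtain ⟨q, hq⟩ := h7
      have hq' : φ q = δ a ((f : R) - φ h) := hq
      have h8 : ∀ j, pderiv j q = 0 := by
        intro j
        apply hφinj
        rw [map_zero, hpd, hq', hcD]
      have h9 := Pool.Agent.Helper93.KN.eq_C_of_pderiv h8
      refine ⟨coeff 0 q, ?_⟩
      rw [← hq', h9, hφC]
      simp
    choose w hw using hconst
    have h10 := hV ⟨w, (f : R) - φ h, h5, hw⟩ _ h5 hw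
    apply hf
    have h11 : (f : R) = ((f : R) - φ h) + φ h := by ring
    rw [h11]
    exact Subalgebra.add_mem _ h10 ⟨h, rfl⟩
  refine ⟨Module.finrank k W, φ, hφinj, le_antisymm ?_ hsurj, fun j => ⟨e j, fun f => ?_⟩⟩
  · rintro _ ⟨f, rfl⟩
    exact hφS f
  · rw [hpd, hD]

end Pool.Agent.Helper87.KS
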