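import Pool.Agent.Helper87.KS.Soc
import Pool.Agent.Helper30.SV.TraceStep

set_option autoImplicit false

/-! Module KS-03. If the common kernel of the commutators is finite dimensional then so is the space.

PROOF of `finite_of_comm_ker` from `trace_step`. Let `D` be the span of all `br (A a) (A b)`,
`F j = span {A c | j ≤ c}` (`j : ℕ`), `G j = D ⊓ F j`. Then `G 0 = D` (`D ≤ span (range A)`), `G m = ⊥`,
and `br (A a) X ∈ G (j + 1)` for `X ∈ G j` (`br (A a) X ∈ D` since `X` is in the span of the `A c`; and
`br (A a) (A c)` is in the span of the `A d`, `d > c ≥ j`, by `IsMalcev`). Let `K j = {f ∈ E | ∀ X ∈ G j,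
X f = 0}`: stable under the `A a` (`X (A a f) = A a (X f) - br (A a) X f`, `G (j + 1) ≤ G j`). By induction on `j`
all `K j` are finite dimensional; `K 0` by hypothesis; `K m = E`. Step: `E' = K (j + 1)`; on `E'` all
`X ∈ G j` commute with the `A a`. For a finite set `s` of elements of `G j` let `E'_s = {f ∈ E' | ∀ X ∈ s,
X f = 0}`, stable under the `A a`; for a finite spanning set `s` of `G j` it is `K j` (contained in it), finite dimensional;
removing elements of `s` one by one (`Finset.induction_on`-type induction, `trace_step` for `E'_s` and `X`: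
`E'_s ⊓ ker X = E'_{insert X s}`, `span_nil`) gives `E'_∅ = E'` finite dimensional. -/

namespace Pool.Agent.Helper87.KS

/-- The trace lemma. (`Helper30/SV/TraceStep.lean`) -/
theorem trace_step {k V : Type*} [Field k] [CharZero k] [AddCommGroup V] [Module k V]
    {E : Submodule k V} {𝒜 : Set (Module.End k V)} {X : Module.End k V}
    (hE : ∀ A ∈ 𝒜, ∀ f ∈ E, A f ∈ E) (hcomm : ∀ A ∈ 𝒜, ∀ f ∈ E, A (X f) = X (A f))
    (hX : X ∈ Submodule.span k {B | ∃ A ∈ 𝒜, ∃ A' ∈ 𝒜, B = br A A'})
    (hnil : ∀ f ∈ E, ∃ n : ℕ, (X ^ n) f = 0)
    (hfin : FiniteDimensional k (E ⊓ LinearMap.ker X : Submodule k V)) :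
    FiniteDimensional k E :=
  Pool.Agent.Helper30.SV.trace_step hE hcomm hX hnil hfin

section

variable {k V : Type*} [Field k] [AddCommGroup V] [Module k V] {m : ℕ}

/-- The elements of `E` killed by all operators of `S`. -/
private def ek (E : Submodule k V) (S : Set (Module.End k V)) : Submodule k V :=
  E ⊓ ⨅ X ∈ S, LinearMap.ker X

private lemma mem_ek {E : Submodule k V} {S : Set (Module.End k V)} {f : V} :
    f ∈ ek E S ↔ f ∈ E ∧ ∀ X ∈ S, X f = 0 := by
  simp only [ek, Submodule.mem_inf, Submodule.mem_iInf, LinearMap.mem_ker]

/-- The combinations of the `A c` with `j ≤ c`. -/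
private def tl (A : Fin m → Module.End k V) (j : ℕ) : Submodule k (Module.End k V) :=
  Submodule.span k (A '' {c | j ≤ (c : ℕ)})

/-- The combinations of the brackets. -/
private def dd (A : Fin m → Module.End k V) : Submodule k (Module.End k V) :=
  Submodule.span k {Z | ∃ a b, Z = br (A a) (A b)}

private lemma br_tl {A : Fin m → Module.End k V} (hA : IsMalcev A) (a : Fin m) {j : ℕ}
    {X : Module.End k V} (hX : X ∈ tl A j) : br (A a) X ∈ tl A (j + 1) := by
  unfold tl at hX
  induction hX using Submodule.span_induction with
  | mem X hX =>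
    obtain ⟨c, hc, rfl⟩ := hX
    refine Submodule.span_mono ?_ (hA a c)
    rintro _ ⟨d, ⟨_, hd⟩, rfl⟩
    refine ⟨d, ?_, rfl⟩
    have h1 : (c : ℕ) < d := hd
    have h2 : j ≤ (c : ℕ) := hc
    change j + 1 ≤ (d : ℕ)
    omega
  | zero =>
    have : br (A a) (0 : Module.End k V) = 0 := by simp [br]
    rw [this]
    exact Submodule.zero_mem _
  | add X Y _ _ h h' =>
    have : br (A a) (X + Y) = br (A a) X + br (A a) Y := by
      simp only [br, mul_add, add_mul]
      abel
    rw [this]
    exact Submodule.add_mem _ h h'
  | smul c X _ h =>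
    have : br (A a) (c • X) = c • br (A a) X := by
      simp only [br, mul_smul_comm, smul_mul_assoc, smul_sub]
    rw [this]
    exact Submodule.smul_mem _ c h

private lemma br_dd {A : Fin m → Module.End k V} (a : Fin m) {j : ℕ}
    {X : Module.End k V} (hX : X ∈ tl A j) : br (A a) X ∈ dd A := by
  unfold tl at hX
  induction hX using Submodule.span_induction with
  | mem X hX =>
    obtain ⟨c, _, rfl⟩ := hX
    exact Submodule.subset_span ⟨a, c, rfl⟩
  | zero =>
    have : br (A a) (0 : Module.End k V) = 0 := by simp [br]
    rw [this]
    exact Submodule.zero_mem _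
  | add X Y _ _ h h' =>
    have : br (A a) (X + Y) = br (A a) X + br (A a) Y := by
      simp only [br, mul_add, add_mul]
      abel
    rw [this]
    exact Submodule.add_mem _ h h'
  | smul c X _ h =>
    have : br (A a) (c • X) = c • br (A a) X := by
      simp only [br, mul_smul_comm, smul_mul_assoc, smul_sub]
    rw [this]
    exact Submodule.smul_mem _ c h

end

/-- If the common kernel of the commutators is finite dimensional then so is the space. -/
theorem finite_of_comm_ker {k V : Type*} [Field k] [CharZero k] [AddCommGroup V] [Module k V]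
    {m : ℕ} {A : Fin m → Module.End k V} (hA : IsMalcev A) {E K : Submodule k V}
    (hE : ∀ a, ∀ f ∈ E, A a f ∈ E) (hnil : ∀ a, ∀ f ∈ E, ∃ n : ℕ, (A a ^ n) f = 0)
    (hK : ∀ f ∈ E, (∀ a b, br (A a) (A b) f = 0) → f ∈ K) (hfin : FiniteDimensional k K) :
    FiniteDimensional k E := by
  classical
  set G : ℕ → Submodule k (Module.End k V) := fun j => dd A ⊓ tl A j with hG
  have hbrG : ∀ a j X, X ∈ G j → br (A a) X ∈ G (j + 1) := fun a j X hX =>
    ⟨br_dd a hX.2, br_tl hA a hX.2⟩
  have hGanti : ∀ j, G (j + 1) ≤ G j := by
    intro j
    refine inf_le_inf_left _ (Submodule.span_mono ?_)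
    rintro _ ⟨c, hc, rfl⟩
    have h1 : j + 1 ≤ (c : ℕ) := hc
    exact ⟨c, by change j ≤ (c : ℕ); omega, rfl⟩
  have hbr : ∀ a (X : Module.End k V) f, X (A a f) = A a (X f) - br (A a) X f := by
    intro a X f
    simp only [br, LinearMap.sub_apply, Module.End.mul_apply]
    abel
  have key : ∀ j, FiniteDimensional k (ek E (G j : Set (Module.End k V))) := by
    intro j
    induction j with
    | zero =>
      have hle : ek E (G 0 : Set (Module.End k V)) ≤ K := by
        intro f hf
        rw [mem_ek] at hf
        refine hK f hf.1 fun a b => hf.2 _ ⟨Submodule.subset_span ⟨a, b, rfl⟩, ?_⟩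
        refine Submodule.span_mono ?_ (hA a b)
        rintro _ ⟨d, _, rfl⟩
        exact ⟨d, Nat.zero_le _, rfl⟩
      exact Submodule.finiteDimensional_of_le hle
    | succ j ih =>
      -- a finite spanning set
      have hGfin : FiniteDimensional k (G j) := by
        have h1 : FiniteDimensional k (tl A j) :=
          FiniteDimensional.span_of_finite k (Set.toFinite _)
        exact Submodule.finiteDimensional_of_le inf_le_right
      obtain ⟨s, hs⟩ := (Submodule.fg_iff_finiteDimensional (G j)).2 hGfin
      have hstab : ∀ (t : Set (Module.End k V)), (∀ X ∈ t, X ∈ G j) → ∀ a,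
          ∀ f ∈ ek E ((G (j + 1) : Set (Module.End k V)) ∪ t),
          A a f ∈ ek E ((G (j + 1) : Set (Module.End k V)) ∪ t) := by
        intro t ht a f hf
        rw [mem_ek] at hf ⊢
        refine ⟨hE a f hf.1, fun X hX => ?_⟩
        rw [hbr, hf.2 X hX, map_zero, zero_sub, neg_eq_zero]
        apply hf.2
        left
        rcases hX with hX | hX
        · exact hGanti (j + 1) (hbrG a _ X hX)
        · exact hbrG a _ X (ht X hX)
      have step : ∀ (u : Finset (Module.End k V)), (∀ X ∈ u, X ∈ G j) →
          ∀ t : Set (Module.End k V), (∀ X ∈ t, X ∈ G j) →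
          FiniteDimensional k (ek E ((G (j + 1) : Set (Module.End k V)) ∪ (t ∪ u))) →
          FiniteDimensional k (ek E ((G (j + 1) : Set (Module.End k V)) ∪ t)) := by
        intro u
        induction u using Finset.induction_on with
        | empty =>
          intro _ t _ h
          rwa [Finset.coe_empty, Set.union_empty] at h
        | insert X u _ ihu =>
          intro hu t ht h
          have hXG : X ∈ G j := hu X (Finset.mem_insert_self X u)
          have h1 : FiniteDimensional k
              (ek E ((G (j + 1) : Set (Module.End k V)) ∪ (insert X t))) := by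
            apply ihu (fun Y hY => hu Y (Finset.mem_insert_of_mem hY)) (insert X t)
            · intro Y hY
              rcases hY with rfl | hY
              · exact hXG
              · exact ht Y hY
            · have h2 : (insert X t ∪ (u : Set (Module.End k V))) =
                  t ∪ ((insert X u : Finset (Module.End k V)) : Set (Module.End k V)) := by
                rw [Finset.coe_insert]
                ext Y
                simp only [Set.mem_union, Set.mem_insert_iff]
                tauto
              rw [h2]
              exact h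
          refine trace_step (𝒜 := Set.range A) (X := X) ?_ ?_ ?_ ?_ ?_
          · rintro _ ⟨a, rfl⟩ f hf
            exact hstab t ht a f hf
          · rintro _ ⟨a, rfl⟩ f hf
            rw [hbr]
            rw [mem_ek] at hf
            rw [hf.2 _ (Or.inl (hbrG a j X hXG)), sub_zero]
          · refine Submodule.span_mono ?_ hXG.1
            rintro _ ⟨a, b, rfl⟩
            exact ⟨A a, ⟨a, rfl⟩, A b, ⟨b, rfl⟩, rfl⟩
          · intro f hf
            rw [mem_ek] at hf
            refine span_nil hA hE hnil ?_ hf.1
            refine Submodule.span_mono ?_ hXG.2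
            rintro _ ⟨c, _, rfl⟩
            exact ⟨c, rfl⟩
          · have h3 : (ek E ((G (j + 1) : Set (Module.End k V)) ∪ t) ⊓ LinearMap.ker X :
                Submodule k V) ≤ ek E ((G (j + 1) : Set (Module.End k V)) ∪ (insert X t)) := by
              rintro f ⟨hf, hfX⟩
              rw [SetLike.mem_coe, mem_ek] at hf
              rw [mem_ek]
              refine ⟨hf.1, fun Y hY => ?_⟩
              rcases hY with hY | hY | hY
              · exact hf.2 Y (Or.inl hY)
              · rw [hY]; exact hfX
              · exact hf.2 Y (Or.inr hY)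
            exact Submodule.finiteDimensional_of_le h3
      have hfinal := step s (fun X hX => hs ▸ Submodule.subset_span hX) ∅ (fun X hX => hX.elim) (by
        have hle : ek E ((G (j + 1) : Set (Module.End k V)) ∪ (∅ ∪ (s : Set (Module.End k V)))) ≤
            ek E (G j : Set (Module.End k V)) := by
          intro f hf
          rw [mem_ek] at hf ⊢
          refine ⟨hf.1, fun X hX => ?_⟩
          have hX' : X ∈ Submodule.span k (s : Set (Module.End k V)) := by
            rw [hs]
            exact hX
          clear hX
          induction hX' using Submodule.span_induction with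
          | mem X hX => exact hf.2 X (Or.inr (Or.inr hX))
          | zero => exact LinearMap.zero_apply f
          | add X Y _ _ h h' => rw [LinearMap.add_apply, h, h', add_zero]
          | smul c X _ h => rw [LinearMap.smul_apply, h, smul_zero]
        exact Submodule.finiteDimensional_of_le hle)
      rwa [Set.union_empty] at hfinal
  have hlast : E ≤ ek E (G m : Set (Module.End k V)) := by
    intro f hf
    rw [mem_ek]
    refine ⟨hf, fun X hX => ?_⟩
    have h1 : tl A m = ⊥ := by
      unfold tl
      have h2 : A '' {c : Fin m | m ≤ (c : ℕ)} = ∅ := by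
        rw [Set.image_eq_empty]
        ext c
        simp only [Set.mem_ofPred_eq, Set.mem_empty_iff_false, iff_false, not_le]
        exact c.2
      rw [h2, Submodule.span_empty]
    have h3 : X ∈ tl A m := hX.2
    rw [h1, Submodule.mem_bot] at h3
    rw [h3, LinearMap.zero_apply]
  have := key m
  exact Submodule.finiteDimensional_of_le hlast

end Pool.Agent.Helper87.KS
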