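import Pool.Agent.Helper87.KS.Defs

set_option autoImplicit false

/-! Module KS-01. Dickson's lemma.

PROOF of `exists_lt_le`: Dickson's lemma for `n ↦ fun i => (x n i + b i).toNat : J → ℕ` (`J → ℕ` is a
well quasi-order for finite `J`: `wellQuasiOrdered_le`, `Pi.wellQuasiOrderedLE`, or
`Set.PartiallyWellOrderedOn`, `Pi.isPWO`).

`finite_ge`: otherwise an injective sequence (`Set.Infinite.natEmbedding`) and `exists_lt_le` give
`ω ≤ ω'`, `ω ≠ ω'` in `W`, so `ω' - ω` is nonnegative, nonzero and in `W`. -/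

namespace Pool.Agent.Helper87.KS

/-- A sequence of integral vectors which is bounded below contains a comparable pair. -/
theorem exists_lt_le {J : Type*} [Finite J] (b : J → ℤ) (x : ℕ → J → ℤ)
    (hx : ∀ n i, -(b i) ≤ x n i) : ∃ n n', n < n' ∧ ∀ i, x n i ≤ x n' i := by
  obtain ⟨n, n', hn, h⟩ := (wellQuasiOrdered_le (α := J → ℕ)) fun n i => (x n i + b i).toNat
  refine ⟨n, n', hn, fun i => ?_⟩
  have h1 : (x n i + b i).toNat ≤ (x n' i + b i).toNat := h i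
  have h2 := hx n i
  have h3 := hx n' i
  omega

/-- A pointed group has only finitely many elements above a given vector. -/
theorem finite_ge {J : Type*} [Finite J] {W : AddSubgroup (J → ℤ)} (hW : Pointed W) (b : J → ℤ) :
    {ω : W | ∀ i, -(b i) ≤ (ω : J → ℤ) i}.Finite := by
  by_contra hinf
  have hinf' : {ω : W | ∀ i, -(b i) ≤ (ω : J → ℤ) i}.Infinite := hinf
  let e := hinf'.natEmbedding
  obtain ⟨n, n', hn, h⟩ := exists_lt_le b (fun n => ((e n : W) : J → ℤ)) fun n i => (e n).2 i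
  have h1 := hW ((e n' : W) - (e n : W)) fun i => by
    rw [AddSubgroup.coe_sub, Pi.sub_apply]
    exact sub_nonneg.mpr (h i)
  have h2 : e n' = e n := Subtype.ext (sub_eq_zero.mp h1)
  exact hn.ne (e.injective h2).symm

private lemma exists_pair {H Λ : Type*} [Fintype H] [AddCommGroup Λ] (w : Λ →+ (H → ℤ))
    (M A : H → ℤ)
    (h : ∀ n₁ : ℕ, ∃ n : ℕ, n₁ ≤ n ∧ ∃ μ : Λ, ∀ i, -(A i) ≤ n * M i + w μ i) :
    ∃ n : ℕ, 1 ≤ n ∧ ∃ μ : Λ, ∀ i, 0 ≤ n * M i + w μ i := by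
  choose F hF μ hμ using h
  let arg : ℕ → ℕ := fun j => Nat.rec 0 (fun _ r => F r + 1) j
  have harg : ∀ j, F (arg j) < F (arg (j + 1)) := fun j => hF (F (arg j) + 1)
  have hmono : StrictMono fun j => F (arg j) := strictMono_nat_of_lt_succ harg
  obtain ⟨n, n', hn, hle⟩ := exists_lt_le A
    (fun j i => (F (arg j) : ℤ) * M i + w (μ (arg j)) i) fun j i => hμ (arg j) i
  have hlt : F (arg n) < F (arg n') := hmono hn
  refine ⟨F (arg n') - F (arg n), by omega, μ (arg n') - μ (arg n), fun i => ?_⟩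
  have h1 := hle i
  rw [Nat.cast_sub hlt.le, map_sub, Pi.sub_apply, sub_mul]
  linarith

private lemma zero_set_lt {H : Type*} [Fintype H] {M' v : H → ℤ}
    (h0 : ∀ i, 0 ≤ M' i) (hv : ∀ i, M' i = 0 → 0 ≤ v i) {i₀ : H} (hi₀ : M' i₀ = 0)
    (hvi₀ : v i₀ ≠ 0) : ∃ N : ℕ, 1 ≤ N ∧ (∀ i, 0 ≤ N * M' i + v i) ∧
      {i | (N : ℤ) * M' i + v i = 0}.ncard < {i | M' i = 0}.ncard := by
  classical
  set N : ℕ := 1 + ∑ i, (v i).natAbs with hN
  have hle : ∀ i, (v i).natAbs < N := by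
    intro i
    have : (v i).natAbs ≤ ∑ i, (v i).natAbs :=
      Finset.single_le_sum (f := fun i => (v i).natAbs) (fun i _ => Nat.zero_le _)
        (Finset.mem_univ i)
    omega
  have hpos : ∀ i, M' i ≠ 0 → 0 < (N : ℤ) * M' i + v i := by
    intro i hi
    have h1 : 1 ≤ M' i := by
      have := h0 i
      omega
    have h2 : (N : ℤ) * 1 ≤ (N : ℤ) * M' i := mul_le_mul_of_nonneg_left h1 (by positivity)
    have h3 := hle i
    omega
  refine ⟨N, by omega, fun i => ?_, ?_⟩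
  · by_cases hi : M' i = 0
    · rw [hi, mul_zero, zero_add]
      exact hv i hi
    · exact (hpos i hi).le
  · apply Set.ncard_lt_ncard _ (Set.toFinite _)
    refine ⟨fun i hi => ?_, fun hsub => ?_⟩
    · by_contra hne
      exact (hpos i hne).ne' hi
    · have h1 : (N : ℤ) * M' i₀ + v i₀ = 0 := hsub hi₀
      rw [hi₀, mul_zero, zero_add] at h1
      exact hvi₀ h1

/-- The choice of the face `J`. Let `M : H → ℤ` and let `w : Λ →+ (H → ℤ)` be a homomorphism, such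
that for infinitely many `n` some `n M + w μ` is bounded below by a fixed vector. Then there are
`n₀ ≥ 1` and `μ₀` such that `M' = n₀ M + w μ₀ ≥ 0`, and if `w μ ≥ 0` on the zero set of `M'` then
`w μ = 0` on the zero set of `M'`.
PROOF: `exists_lt_le` for a sequence `n_j M + w μ_j` with strictly increasing `n_j` (`b = A`) gives
`(n, μ)` with `n ≥ 1` and `n M + w μ ≥ 0`. Among all `(n, μ)` with `n ≥ 1`, `n M + w μ ≥ 0` choose one
for which the zero set is smallest (number of elements). If `w μ ≥ 0` on the zero set `Z` of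
`M' = n₀ M + w μ₀` and `(w μ)_i > 0` for some `i ∈ Z`, then for large `N` the pair
`(N n₀, N μ₀ + μ)` is admissible with a smaller zero set (outside `Z` one has `M' ≥ 1`). -/
theorem exists_face {H Λ : Type*} [Fintype H] [AddCommGroup Λ] (w : Λ →+ (H → ℤ)) (M A : H → ℤ)
    (h : ∀ n₁ : ℕ, ∃ n : ℕ, n₁ ≤ n ∧ ∃ μ : Λ, ∀ i, -(A i) ≤ n * M i + w μ i) :
    ∃ n₀ : ℕ, 1 ≤ n₀ ∧ ∃ μ₀ : Λ, (∀ i, 0 ≤ n₀ * M i + w μ₀ i) ∧
      ∀ μ : Λ, (∀ i, n₀ * M i + w μ₀ i = 0 → 0 ≤ w μ i) →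
        ∀ i, n₀ * M i + w μ₀ i = 0 → w μ i = 0 := by
  classical
  have hex : ∃ c : ℕ, ∃ n : ℕ, 1 ≤ n ∧ ∃ μ : Λ, (∀ i, 0 ≤ n * M i + w μ i) ∧
      {i | (n : ℤ) * M i + w μ i = 0}.ncard = c := by
    obtain ⟨n, hn, μ, hμ⟩ := exists_pair w M A h
    exact ⟨_, n, hn, μ, hμ, rfl⟩
  obtain ⟨n₀, hn₀, μ₀, hμ₀, hc⟩ := Nat.find_spec hex
  have hmin := fun c hc => Nat.find_min hex (m := c) hc
  refine ⟨n₀, hn₀, μ₀, hμ₀, fun μ hμ i₀ hi₀ => ?_⟩
  by_contra hne
  obtain ⟨N, hN1, hN2, hN3⟩ := zero_set_lt (M' := fun i => n₀ * M i + w μ₀ i)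
    (v := fun i => w μ i) hμ₀ hμ hi₀ hne
  have heq : ∀ i, ((N * n₀ : ℕ) : ℤ) * M i + w (N • μ₀ + μ) i =
      N * (n₀ * M i + w μ₀ i) + w μ i := by
    intro i
    rw [map_add, map_nsmul, Pi.add_apply, Pi.smul_apply, nsmul_eq_mul]
    push_cast
    ring
  rw [hc] at hN3
  refine hmin _ hN3 ⟨N * n₀, Nat.mul_pos hN1 hn₀, N • μ₀ + μ, fun i => ?_, ?_⟩
  · rw [heq]
    exact hN2 i
  · simp only [heq]

end Pool.Agent.Helper87.KS
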