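import Pool.Agent.Helper87.KS.Dick
import Pool.Agent.Helper30.SV.N1Seq

set_option autoImplicit false

/-! Module KS-06 (N_1). Commuting operators and an infinite dimensional graded space: an eigen sequence.

Split as you like (helper30). PROOF. Write `X = D p`, `α' = ω p ≠ 0`; `W` is torsion free.
(1) Every `E γ` is finite dimensional: `E γ ⊓ ker (X ^ (n + 1)) / E γ ⊓ ker (X ^ n)` embeds by `X ^ n` in
`E (γ + n α') ⊓ ker X`, which is zero for all but finitely many `n`; `X` is locally nilpotent.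
(2) So `E γ ≠ ⊥` for infinitely many `γ`; for each of them there is `n` with
`X ^ n (E γ) ⊓ ker X ≠ ⊥`, `γ + n α'` in the finite set `Z = {γ | E γ ⊓ ker X ≠ ⊥}`; so some `γ₁ ∈ Z`
has `X ^ n (E (γ₁ - n α')) ⊓ ker X ≠ ⊥` for infinitely many, so for all `n`.
(3) `S n = ⋂_m X ^ m (E (γ₁ - (n + m) α'))` (decreasing in `m`, finite dimensional, so attained)
satisfies `X (S (n + 1)) = S n` and `S 0 ⊓ ker X ≠ ⊥`. So there are `f n ∈ S n`, `X (f (n + 1)) = f n`,
`f 0 ≠ 0`, `X (f 0) = 0`.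
(4) `N` = space of all `Φ : W → V` with `Φ γ ∈ E γ`, `X (Φ γ) = Φ (γ + α')`, and for all `γ` there is
`n : ℕ` with `Φ (γ + n α') = 0`. `N` is finite dimensional: `Φ ↦ (Φ γ)_{γ ∈ Z}` is injective (if `Φ γ ≠ 0`
take the largest `n` with `Φ (γ + n α') ≠ 0`). `N ≠ 0` by (3), by a `Φ` supported on `γ₁ + ℤ α'`.
(5) `(Δ a Φ) γ = D a (Φ (γ - ω a))` are commuting operators on `N`. Let `α` generate the infinite cyclic
group `{γ | ∃ n ≠ 0, n γ ∈ ℤ α'}` (it embeds in `ℤ` by a coordinate `i` with `α' i ≠ 0`), `α' = d α`,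
`d ≥ 1` (replace `α` by `-α` if necessary). For a class `c` of `W / ℤ α` let `N_c` be the elements of `N`
supported in `c`; `N_c = 0` unless `c` meets `Z`: finitely many. `Δ a` maps `N_c` to `N_{c + ω a}`; for
`ω a ∉ ℤ α` it is nilpotent on `N` (the class of `ω a` has infinite order). So the commuting nilpotent
operators `Δ a`, `ω a ∉ ℤ α`, have a common kernel `≠ 0`, which is graded: there is a class `c` such that
`N' = {Φ ∈ N_c | Δ a Φ = 0 if ω a ∉ ℤ α} ≠ 0`. The commuting operators `Δ a`, `ω a ∈ ℤ α`, preserve `N'`: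
a common eigenvector `Φ` (`k` algebraically closed), `Δ p Φ = Φ`.
(6) `Φ` vanishes at `γ + n α` for large `n` (true for the multiples of `d` in every class mod `d`, and
`Φ γ = 0` implies `Φ (γ + α') = 0`). Let `γ₀` be the last element of `c` with `Φ γ₀ ≠ 0`,
`Ψ r = Φ (γ₀ - r α)`. If `ω a = n' α` and `D a (Φ γ) = χ (Φ (γ + ω a))` for all `γ`: for `n' < 0` evaluation at
`γ = γ₀ - n' α` gives `0 = χ Φ γ₀`, so `χ = 0`; for `n' = 0`, `χ = 0` as `D a` is locally nilpotent. So put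
`n a = n'` if `n' > 0` and `n a = 0` otherwise (then `D a` kills all `Ψ r`). -/

namespace Pool.Agent.Helper87.KS

/-- The primitive vector on the ray of a nonzero vector. -/
private theorem exists_prim {J : Type*} {W : AddSubgroup (J → ℤ)} (β : W) (hβ : β ≠ 0) :
    ∃ (α : W) (d : ℕ), 0 < d ∧ β = d • α ∧ (∀ n : ℤ, n • α = 0 → n = 0) ∧
      ∀ (n : ℤ) (w : W), n ≠ 0 → n • w ∈ AddSubgroup.zmultiples α →
        w ∈ AddSubgroup.zmultiples α := by
  classical
  have htf : ∀ (n : ℤ) (w : W), n ≠ 0 → n • w = 0 → w = 0 := by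
    intro n w hn hw
    apply Subtype.ext
    funext i
    have h1 : (n • (w : J → ℤ)) i = 0 := by
      have h2 := congrArg (fun x : W => (x : J → ℤ) i) hw
      simpa using h2
    rw [Pi.smul_apply, smul_eq_mul] at h1
    have h3 := (mul_eq_zero.mp h1).resolve_left hn
    simpa using h3
  obtain ⟨i, hi⟩ : ∃ i, (β : J → ℤ) i ≠ 0 := by
    by_contra hcon
    push Not at hcon
    apply hβ
    apply Subtype.ext
    funext i
    exact hcon i
  let S : AddSubgroup W :=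
    { carrier := {w | ∃ n : ℤ, n ≠ 0 ∧ n • w ∈ AddSubgroup.zmultiples β}
      zero_mem' := ⟨1, one_ne_zero, by rw [smul_zero]; exact zero_mem _⟩
      add_mem' := by
        rintro a b ⟨n, hn, hna⟩ ⟨m, hm, hmb⟩
        refine ⟨n * m, mul_ne_zero hn hm, ?_⟩
        have h1 : (n * m) • (a + b) = m • (n • a) + n • (m • b) := by
          rw [smul_add, smul_smul, smul_smul, mul_comm m n]
        rw [h1]
        exact add_mem (AddSubgroup.zsmul_mem _ hna m) (AddSubgroup.zsmul_mem _ hmb n)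
      neg_mem' := by
        rintro a ⟨n, hn, hna⟩
        exact ⟨n, hn, by rw [smul_neg]; exact neg_mem hna⟩ }
  have hS : ∀ w : W, w ∈ S ↔ ∃ n : ℤ, n ≠ 0 ∧ n • w ∈ AddSubgroup.zmultiples β := fun w => Iff.rfl
  let ev : S →+ ℤ :=
    { toFun := fun w => ((w : W) : J → ℤ) i
      map_zero' := rfl
      map_add' := fun _ _ => rfl }
  have hev : Function.Injective ev := by
    rw [injective_iff_map_eq_zero]
    rintro ⟨w, hw⟩ h0
    have h0' : (w : J → ℤ) i = 0 := h0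
    obtain ⟨n, hn, hnw⟩ := (hS w).1 hw
    obtain ⟨z, hz⟩ := AddSubgroup.mem_zmultiples_iff.mp hnw
    have h1 : z * (β : J → ℤ) i = n * (w : J → ℤ) i := by
      have h2 := congrArg (fun x : W => (x : J → ℤ) i) hz
      simpa using h2
    rw [h0', mul_zero] at h1
    have hz0 : z = 0 := (mul_eq_zero.mp h1).resolve_right hi
    rw [hz0, zero_zsmul] at hz
    apply Subtype.ext
    exact htf n w hn hz.symm
  have : IsAddCyclic S := isAddCyclic_of_injective ev hev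
  obtain ⟨g, hg⟩ := IsAddCyclic.exists_generator (α := S)
  have hgen : ∀ w : W, w ∈ S → ∃ z : ℤ, z • (g : W) = w := by
    intro w hw
    obtain ⟨z, hz⟩ := AddSubgroup.mem_zmultiples_iff.mp (hg ⟨w, hw⟩)
    exact ⟨z, by rw [← AddSubgroup.coe_zsmul, hz]⟩
  have hβS : β ∈ S := ⟨1, one_ne_zero, by rw [one_zsmul]; exact AddSubgroup.mem_zmultiples β⟩
  obtain ⟨z, hz⟩ := hgen β hβS
  have hz0 : z ≠ 0 := by
    rintro rfl
    rw [zero_zsmul] at hz
    exact hβ hz.symm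
  have hmain : ∀ α : W, α ∈ S → α ≠ 0 → (∀ w ∈ S, ∃ z : ℤ, z • α = w) →
      (∀ n : ℤ, n • α = 0 → n = 0) ∧
      ∀ (n : ℤ) (w : W), n ≠ 0 → n • w ∈ AddSubgroup.zmultiples α →
        w ∈ AddSubgroup.zmultiples α := by
    intro α hα hα0 hgα
    refine ⟨fun n hn => ?_, fun n w hn hw => ?_⟩
    · by_contra hne
      exact hα0 (htf n α hne hn)
    · obtain ⟨q, hq⟩ := AddSubgroup.mem_zmultiples_iff.mp hw
      obtain ⟨m, hm, hmα⟩ := (hS α).1 hα
      have hwS : w ∈ S := by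
        refine (hS w).2 ⟨m * n, mul_ne_zero hm hn, ?_⟩
        rw [mul_smul, ← hq, smul_comm]
        exact AddSubgroup.zsmul_mem _ hmα q
      obtain ⟨y, hy⟩ := hgα w hwS
      exact AddSubgroup.mem_zmultiples_iff.mpr ⟨y, hy⟩
  have hg0 : (g : W) ≠ 0 := by
    intro h0
    rw [h0, smul_zero] at hz
    exact hβ hz.symm
  rcases lt_or_gt_of_ne hz0 with hneg | hpos
  · obtain ⟨d, hd⟩ := Int.eq_ofNat_of_zero_le (show 0 ≤ -z by omega)
    have h1 := hmain (-(g : W)) (neg_mem g.2) (neg_ne_zero.mpr hg0) (fun w hw => by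
      obtain ⟨y, hy⟩ := hgen w hw
      exact ⟨-y, by rw [neg_smul_neg, hy]⟩)
    refine ⟨-(g : W), d, by omega, ?_, h1.1, h1.2⟩
    rw [← hz, ← natCast_zsmul, ← hd, neg_smul_neg]
  · obtain ⟨d, hd⟩ := Int.eq_ofNat_of_zero_le hpos.le
    have h1 := hmain (g : W) g.2 hg0 hgen
    refine ⟨(g : W), d, by omega, ?_, h1.1, h1.2⟩
    rw [← hz, hd, natCast_zsmul]

theorem exists_eigen {k V J : Type*} [Field k] [IsAlgClosed k] [AddCommGroup V] [Module k V]
    [Finite J] {W : AddSubgroup (J → ℤ)} {m : ℕ} (D : Fin m → Module.End k V) (ω : Fin m → W)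
    (p : Fin m) (hp : ω p ≠ 0) {E : W → Submodule k V}
    (hE : ∀ a γ, ∀ f ∈ E γ, D a f ∈ E (γ + ω a))
    (hcomm : ∀ a b γ, ∀ f ∈ E γ, D a (D b f) = D b (D a f))
    (hnil : ∀ a γ, ∀ f ∈ E γ, ∃ n : ℕ, (D a ^ n) f = 0)
    (hfin : GFin fun γ => E γ ⊓ LinearMap.ker (D p)) (hinf : ¬ GFin E) :
    ∃ (α γ₀ : W) (d : ℕ) (χ : Fin m → k) (n : Fin m → ℕ) (Ψ : ℕ → V), α ≠ 0 ∧ 1 ≤ d ∧
      ω p = d • α ∧ n p = d ∧ χ p = 1 ∧ Ψ 0 ≠ 0 ∧ (∀ r : ℕ, Ψ r ∈ E (γ₀ - r • α)) ∧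
      ∀ a r, D a (Ψ r) = if 1 ≤ n a ∧ n a ≤ r then χ a • Ψ (r - n a) else 0 := by
  obtain ⟨α, d, hd, hα, hα₁, hprim⟩ := exists_prim (ω p) hp
  obtain ⟨Ψ, w₁, χ, n, h0, hE', hn, hΨ, hχ, hnp⟩ :=
    Pool.Agent.Helper30.SV.exists_eigen D ω E hE hcomm hnil p α d hd hα hα₁ hprim hfin hinf
  refine ⟨α, w₁, d, χ, n, Ψ, ?_, hd, hα, hnp, hχ, h0, hE', fun a r => ?_⟩
  · intro hα0
    have h1 := hα₁ 1 (by rw [hα0, smul_zero])
    exact one_ne_zero h1
  · rw [hΨ a r]
    have h1 : 1 ≤ n a := hn a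
    simp only [h1, true_and]

end Pool.Agent.Helper87.KS
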