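import Pool.Agent.Helper87.KS.FilL

set_option autoImplicit false

/-!
# Project KS, module KS-16: counting for a finite dimensional graded space

PROOF. Let `S` be the finite set of the `γ : W` with `Eb v b γ ≠ ⊥`, `D` a bound of their dimensions. `cntb φ v w b T ≤
D * #{μ ∈ box T | w μ ∈ S}` (`Submodule.finrank_mono`, for `w μ ∉ S` the term is `finrank ⊥ = 0`). For every `γ ∈ S` which is
attained choose `μ_γ ∈ box T` with `w μ_γ = γ`; `μ ↦ μ - μ_γ` is injective from `{μ ∈ box T | w μ = γ}` to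
`{μ ∈ box (2 T) | w μ = 0}`. For `w μ = 0` one has `1 ∈ Eb v 0 0 ⊓ Fil φ (2 T)` (`one_mem_fil`, `RVal.ge_one`), so the term of
`cntb φ v w 0 (2 T)` is `≥ 1` (finite dimensional by `fil_finite`). So `r = D * #S`. -/

namespace Pool.Agent.Helper87.KS

theorem cntb_base {k R J : Type*} [Field k] [CommRing R] [IsDomain R]
    [Algebra k R] {W : AddSubgroup (J → ℤ)} {n s : ℕ} (φ : MvPolynomial (Fin n) k →ₐ[k] R)
    (v : J → RVal k R) (w : (Fin s → ℤ) →+ W) (b : J → ℤ)
    (h : GFin fun γ : W => Eb v b (γ : J → ℤ)) :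
    ∃ r : ℕ, ∀ T : ℕ, cntb φ v w b T ≤ r * cntb φ v w 0 (2 * T) := by
  classical
  obtain ⟨hS, hfd⟩ := h
  have hzero : ∀ T : ℕ, ((box s T).filter fun μ => w μ = 0).card ≤ cntb φ v w 0 T := by
    intro T
    unfold cntb
    rw [Finset.card_eq_sum_ones]
    refine le_trans (Finset.sum_le_sum fun μ hμ => ?_)
      (Finset.sum_le_sum_of_subset (Finset.filter_subset (fun μ => w μ = 0) (box s T)))
    have h0 := (Finset.mem_filter.1 hμ).2
    have hfin := fil_finite φ T
    haveI : FiniteDimensional k (Eb v 0 (w μ : J → ℤ) ⊓ Fil φ T : Submodule k R) :=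
      Submodule.finiteDimensional_of_le (inf_le_right : _ ≤ Fil φ T)
    rw [Submodule.one_le_finrank_iff]
    intro hb
    have h1 : (1 : R) ∈ (Eb v 0 (w μ : J → ℤ) ⊓ Fil φ T : Submodule k R) := by
      refine ⟨?_, one_mem_fil T⟩
      rw [SetLike.mem_coe, mem_Eb]
      intro i
      refine RVal.ge_one ?_
      rw [h0]
      simp
    rw [hb, Submodule.mem_bot] at h1
    exact one_ne_zero h1
  have hγ : ∀ (T : ℕ) (γ : W), ((box s T).filter fun μ => w μ = γ).card ≤
      ((box s (2 * T)).filter fun μ => w μ = 0).card := by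
    intro T γ
    rcases Finset.eq_empty_or_nonempty ((box s T).filter fun μ => w μ = γ) with he | ⟨μ₀, hμ₀⟩
    · rw [he, Finset.card_empty]
      exact Nat.zero_le _
    · obtain ⟨hb₀, hw₀⟩ := Finset.mem_filter.1 hμ₀
      refine Finset.card_le_card_of_injOn (fun μ => μ - μ₀) ?_ ?_
      · intro μ hμ
        obtain ⟨hb, hw⟩ := Finset.mem_filter.1 (Finset.mem_coe.1 hμ)
        refine Finset.mem_coe.2 (Finset.mem_filter.2 ⟨?_, ?_⟩)
        · rw [mem_box] at hb hb₀ ⊢
          intro j
          have h1 : |(μ - μ₀) j| ≤ |μ j| + |μ₀ j| := by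
            rw [Pi.sub_apply]
            exact abs_sub (μ j) (μ₀ j)
          have h2 := hb j
          have h3 := hb₀ j
          push_cast
          linarith
        · rw [map_sub, hw, hw₀, sub_self]
      · intro μ _ ν _ h1
        exact sub_left_injective h1
  refine ⟨∑ γ ∈ hS.toFinset, Module.finrank k (Eb v b ((γ : W) : J → ℤ)), fun T => ?_⟩
  have h1 : cntb φ v w b T ≤ ∑ μ ∈ box s T, ∑ γ ∈ hS.toFinset,
      if w μ = γ then Module.finrank k (Eb v b ((γ : W) : J → ℤ)) else 0 := by
    unfold cntb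
    refine Finset.sum_le_sum fun μ _ => ?_
    rw [Finset.sum_ite_eq]
    split_ifs with h2
    · haveI := hfd (w μ)
      exact Submodule.finrank_mono inf_le_left
    · have h3 : Eb v b (w μ : J → ℤ) = ⊥ := by
        by_contra h4
        exact h2 (hS.mem_toFinset.2 h4)
      rw [h3, bot_inf_eq, finrank_bot]
  refine h1.trans ?_
  rw [Finset.sum_comm, Finset.sum_mul]
  refine Finset.sum_le_sum fun γ _ => ?_
  rw [← Finset.sum_filter, Finset.sum_const, smul_eq_mul, mul_comm]
  exact Nat.mul_le_mul_left _ ((hγ T γ).trans (hzero (2 * T)))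

end Pool.Agent.Helper87.KS
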