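import Pool.Agent.Helper87.KS.Defs

set_option autoImplicit false

/-!
# Project KS, module KS-10: exponentials of locally nilpotent derivations, slices

`expAt δ hnil t f = ∑ t ^ n / n! δ ^ n f` for an element `t` of `R`.

PROOF. `expAt_apply`: the terms with `n ≥ N` vanish (`δ^[n] f = 0` for `n ≥ N`), so the sum does not depend
on `N`. `expAt` is a ring homomorphism: `δ^[n] (f * g) = ∑ i ∈ range (n + 1), choose n i δ^[i] f δ^[n - i] g`
(Leibniz), with `N` large for `f` and `g` (`δ^[n] (f g) = 0` for `n ≥ 2 N`).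

For a slice `δ ℓ = 1` and `π = expAt (-ℓ)`: `δ (π f) = 0`: telescoping,
`δ ((-ℓ) ^ n / n! δ^[n] f) = - (-ℓ) ^ (n - 1) / (n - 1)! δ^[n] f + (-ℓ) ^ n / n! δ^[n + 1] f`.
`π ℓ = ℓ - ℓ = 0`. `δ f = 0 → π f = f`. `f - π f ∈ span {ℓ}` (all the terms with `n ≥ 1`). So `π f = 0` iff
`f ∈ span {ℓ}`.

`expand`: `f = ∑_{n < N} ℓ ^ n / n! π (δ^[n] f)` if `δ^[N] f = 0`. (Proof by induction on `N`: for
`N = 0` `f = 0`. Let `g = f - π f` ... or: both sides have the same derivative: `δ (RHS) =
∑ ℓ ^ (n - 1) / (n - 1)! π (δ^[n] f)` is the right side for `δ f`, so by induction `δ (f - RHS) = 0`, so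
`f - RHS = π (f - RHS) = π f - π f = 0`, as `π (ℓ ^ n) = 0` for `n ≥ 1` and `π π f = π f`.)

`expand_unique`: if `∑_{n < N} ℓ ^ n g_n = 0` and `δ g_n = 0` then all `g_n = 0` (apply `π`: `g_0 = 0`;
divide by `ℓ`, which is not zero because `δ ℓ = 1`; induction). -/

namespace Pool.Agent.Helper87.KS

variable {k R : Type*} [Field k] [CharZero k] [CommRing R] [Algebra k R]

/-- The sum `∑ t ^ n / n! δ ^ n f`, as a map. -/
noncomputable def expFun (δ : Derivation k R R) (hnil : ∀ f, ∃ n : ℕ, (δ)^[n] f = 0) (t f : R) :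
    R := by
  classical
  exact ∑ n ∈ Finset.range (Nat.find (hnil f)), ((n.factorial : k)⁻¹) • (t ^ n * (δ)^[n] f)

private lemma iter_zero (δ : Derivation k R R) (n : ℕ) : (δ)^[n] (0 : R) = 0 := by
  induction n with
  | zero => rfl
  | succ n ih => rw [Function.iterate_succ_apply, map_zero, ih]

private lemma iter_of_le {δ : Derivation k R R} {f : R} {N n : ℕ} (hN : (δ)^[N] f = 0)
    (h : N ≤ n) : (δ)^[n] f = 0 := by
  obtain ⟨m, rfl⟩ := Nat.exists_eq_add_of_le h
  rw [add_comm, Function.iterate_add_apply, hN, iter_zero]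

/-- divided powers -/
private noncomputable def dp (δ : Derivation k R R) (n : ℕ) (f : R) : R :=
  ((n.factorial : k)⁻¹) • (δ)^[n] f

private lemma dp_zero (δ : Derivation k R R) (f : R) : dp δ 0 f = f := by
  simp [dp]

private lemma iter_add (δ : Derivation k R R) (n : ℕ) (f g : R) :
    (δ)^[n] (f + g) = (δ)^[n] f + (δ)^[n] g := by
  induction n generalizing f g with
  | zero => rfl
  | succ n ih => rw [Function.iterate_succ_apply, map_add, ih]; rfl

private lemma dp_add (δ : Derivation k R R) (n : ℕ) (f g : R) :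
    dp δ n (f + g) = dp δ n f + dp δ n g := by
  rw [dp, iter_add, smul_add]; rfl

private lemma der_dp (δ : Derivation k R R) (n : ℕ) (f : R) :
    δ (dp δ n f) = ((n + 1 : ℕ) : k) • dp δ (n + 1) f := by
  have h1 : ((n + 1 : ℕ) : k) ≠ 0 := by exact_mod_cast Nat.succ_ne_zero n
  have h2 : ((n.factorial : ℕ) : k) ≠ 0 := by exact_mod_cast Nat.factorial_ne_zero n
  rw [dp, dp, Derivation.map_smul, smul_smul, Function.iterate_succ_apply', Nat.factorial_succ]
  congr 1
  push_cast
  push_cast at h1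
  field_simp

private lemma dp_mul (δ : Derivation k R R) (n : ℕ) (f g : R) :
    dp δ n (f * g) = ∑ p ∈ Finset.HasAntidiagonal.antidiagonal n, dp δ p.1 f * dp δ p.2 g := by
  induction n with
  | zero => simp [dp_zero]
  | succ n ih =>
    have h1 : ((n + 1 : ℕ) : k) ≠ 0 := by exact_mod_cast Nat.succ_ne_zero n
    have key : ((n + 1 : ℕ) : k) • dp δ (n + 1) (f * g) =
        ((n + 1 : ℕ) : k) • ∑ p ∈ Finset.HasAntidiagonal.antidiagonal (n + 1), dp δ p.1 f * dp δ p.2 g := by
      rw [← der_dp, ih, map_sum]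
      have e : ((n + 1 : ℕ) : k) • ∑ p ∈ Finset.HasAntidiagonal.antidiagonal (n + 1), dp δ p.1 f * dp δ p.2 g =
          (∑ p ∈ Finset.HasAntidiagonal.antidiagonal (n + 1), (p.1 : k) • (dp δ p.1 f * dp δ p.2 g)) +
          ∑ p ∈ Finset.HasAntidiagonal.antidiagonal (n + 1), (p.2 : k) • (dp δ p.1 f * dp δ p.2 g) := by
        rw [Finset.smul_sum, ← Finset.sum_add_distrib]
        refine Finset.sum_congr rfl fun p hp => ?_
        rw [Finset.HasAntidiagonal.mem_antidiagonal] at hp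
        rw [← add_smul, ← Nat.cast_add, hp]
      rw [e, Finset.Nat.sum_antidiagonal_succ, Finset.Nat.sum_antidiagonal_succ']
      simp only [Nat.cast_zero, zero_smul, zero_add]
      rw [← Finset.sum_add_distrib]
      refine Finset.sum_congr rfl fun p _ => ?_
      rw [Derivation.leibniz, der_dp, der_dp, smul_eq_mul, smul_eq_mul, mul_smul_comm,
        mul_smul_comm, mul_comm (dp δ p.2 g), add_comm]
    have := congrArg (fun x => ((n + 1 : ℕ) : k)⁻¹ • x) key
    simpa only [smul_smul, inv_mul_cancel₀ h1, one_smul] using this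

theorem expFun_eq {δ : Derivation k R R} {hnil : ∀ f, ∃ n : ℕ, (δ)^[n] f = 0} (t : R) {f : R}
    {N : ℕ} (hN : (δ)^[N] f = 0) :
    expFun δ hnil t f = ∑ n ∈ Finset.range N, ((n.factorial : k)⁻¹) • (t ^ n * (δ)^[n] f) := by
  classical
  unfold expFun
  have h1 : Nat.find (hnil f) ≤ N := Nat.find_min' (hnil f) hN
  refine Finset.sum_subset (Finset.range_subset_range.2 h1) fun n _ hn => ?_
  rw [Finset.mem_range, not_lt] at hn
  rw [iter_of_le (Nat.find_spec (hnil f)) hn, mul_zero, smul_zero]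

private lemma exists_pol {δ : Derivation k R R} (hnil : ∀ f, ∃ n : ℕ, (δ)^[n] f = 0) (f : R) :
    ∃ P : Polynomial R, (∀ n, P.coeff n = dp δ n f) ∧ ∀ t, expFun δ hnil t f = P.eval t := by
  obtain ⟨N, hN⟩ := hnil f
  refine ⟨∑ n ∈ Finset.range N, Polynomial.monomial n (dp δ n f), fun n => ?_, fun t => ?_⟩
  · rw [Polynomial.finsetSum_coeff]
    simp only [Polynomial.coeff_monomial]
    rw [Finset.sum_ite_eq' (Finset.range N) n]
    by_cases h : n ∈ Finset.range N
    · rw [if_pos h]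
    · rw [if_neg h, dp, iter_of_le hN (by simpa using h), smul_zero]
  · rw [expFun_eq t hN, Polynomial.eval_finsetSum]
    refine Finset.sum_congr rfl fun n _ => ?_
    rw [Polynomial.eval_monomial, dp, smul_mul_assoc, mul_comm]

theorem expFun_mul {δ : Derivation k R R} {hnil : ∀ f, ∃ n : ℕ, (δ)^[n] f = 0} (t f g : R) :
    expFun δ hnil t (f * g) = expFun δ hnil t f * expFun δ hnil t g := by
  obtain ⟨P, hP, hP'⟩ := exists_pol hnil f
  obtain ⟨Q, hQ, hQ'⟩ := exists_pol hnil g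
  obtain ⟨S, hS, hS'⟩ := exists_pol hnil (f * g)
  have h : S = P * Q := by
    ext n
    rw [hS, Polynomial.coeff_mul, dp_mul]
    exact Finset.sum_congr rfl fun p _ => by rw [hP, hQ]
  rw [hP', hQ', hS', h, Polynomial.eval_mul]

theorem expFun_add {δ : Derivation k R R} {hnil : ∀ f, ∃ n : ℕ, (δ)^[n] f = 0} (t f g : R) :
    expFun δ hnil t (f + g) = expFun δ hnil t f + expFun δ hnil t g := by
  obtain ⟨P, hP, hP'⟩ := exists_pol hnil f
  obtain ⟨Q, hQ, hQ'⟩ := exists_pol hnil g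
  obtain ⟨S, hS, hS'⟩ := exists_pol hnil (f + g)
  have h : S = P + Q := by
    ext n
    rw [hS, Polynomial.coeff_add, dp_add, hP, hQ]
  rw [hP', hQ', hS', h, Polynomial.eval_add]

theorem expFun_const {δ : Derivation k R R} {hnil : ∀ f, ∃ n : ℕ, (δ)^[n] f = 0} (t : R) (c : k) :
    expFun δ hnil t (algebraMap k R c) = algebraMap k R c := by
  have h : (δ)^[1] (algebraMap k R c) = 0 := by simp
  rw [expFun_eq t h]
  simp

/-- The exponential `f ↦ ∑ t ^ n / n! δ ^ n f`, a homomorphism of algebras. -/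
noncomputable def expAt (δ : Derivation k R R) (hnil : ∀ f, ∃ n : ℕ, (δ)^[n] f = 0) (t : R) :
    R →ₐ[k] R where
  toFun := expFun δ hnil t
  map_one' := by
    have h := expFun_const (δ := δ) (hnil := hnil) t 1
    rwa [map_one] at h
  map_mul' := expFun_mul t
  map_zero' := by
    have h := expFun_const (δ := δ) (hnil := hnil) t 0
    rwa [map_zero] at h
  map_add' := expFun_add t
  commutes' := expFun_const t

theorem expAt_eq {δ : Derivation k R R} {hnil : ∀ f, ∃ n : ℕ, (δ)^[n] f = 0} (t : R) {f : R}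
    {N : ℕ} (hN : (δ)^[N] f = 0) :
    expAt δ hnil t f = ∑ n ∈ Finset.range N, ((n.factorial : k)⁻¹) • (t ^ n * (δ)^[n] f) :=
  expFun_eq t hN

/-- The value does not drop if `v` drops by at most `c` under `δ` and `v t ≥ c`. -/
theorem ge_expAt [IsDomain R] {v : RVal k R} {δ : Derivation k R R}
    {hnil : ∀ f, ∃ n : ℕ, (δ)^[n] f = 0} {c : ℤ}
    (hδ : ∀ (n : ℤ) f, v.Ge n f → v.Ge (n - c) (δ f)) {t : R} (ht : v.Ge c t) {n : ℤ} {f : R}
    (hf : v.Ge n f) : v.Ge n (expAt δ hnil t f) := by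
  obtain ⟨N, hN⟩ := hnil f
  rw [expAt_eq t hN]
  refine RVal.Ge.sum fun i _ => RVal.Ge.smul ?_ _
  have h1 : ∀ i : ℕ, v.Ge (n - i * c) ((δ)^[i] f) := by
    intro i
    induction i with
    | zero => simpa using hf
    | succ i ih =>
      rw [Function.iterate_succ_apply']
      refine (hδ _ _ ih).mono (le_of_eq ?_)
      push_cast
      ring
  refine ((ht.pow i).mul (h1 i)).mono (le_of_eq ?_)
  ring

section slice

variable [IsDomain R] {δ : Derivation k R R} {hnil : ∀ f, ∃ n : ℕ, (δ)^[n] f = 0} {ℓ : R}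
  (hℓ : δ ℓ = 1)

include hℓ

theorem slice_ne_zero : ℓ ≠ 0 := by
  rintro rfl
  rw [map_zero] at hℓ
  exact zero_ne_one hℓ

theorem der_expAt (f : R) : δ (expAt δ hnil (-ℓ) f) = 0 := by
  obtain ⟨N, hN⟩ := hnil f
  rw [expAt_eq _ hN, map_sum]
  have h1 : ∀ n : ℕ, δ (((n.factorial : k)⁻¹) • ((-ℓ) ^ n * (δ)^[n] f)) =
      ((n + 1 : ℕ) : k) • ((-ℓ) ^ (n + 1 - 1) * dp δ (n + 1) f) -
        ((n : ℕ) : k) • ((-ℓ) ^ (n - 1) * dp δ n f) := by
    intro n
    have e : ((n.factorial : k)⁻¹) • ((-ℓ) ^ n * (δ)^[n] f) = (-ℓ) ^ n * dp δ n f := by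
      rw [dp, mul_smul_comm]
    rw [e, Derivation.leibniz, der_dp, Derivation.leibniz_pow, map_neg, hℓ, smul_eq_mul,
      smul_eq_mul, Nat.add_sub_cancel, mul_smul_comm, sub_eq_add_neg]
    congr 1
    rw [smul_eq_mul, nsmul_eq_mul, Algebra.smul_def, map_natCast]
    ring
  rw [Finset.sum_congr rfl fun n _ => h1 n,
    Finset.sum_range_sub (fun n => ((n : ℕ) : k) • ((-ℓ) ^ (n - 1) * dp δ n f)), dp, hN]
  simp

theorem expAt_slice : expAt δ hnil (-ℓ) ℓ = 0 := by
  have h : (δ)^[2] ℓ = 0 := by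
    rw [Function.iterate_succ_apply, Function.iterate_succ_apply, hℓ, Function.iterate_zero,
      id, Derivation.map_one_eq_zero]
  rw [expAt_eq _ h, Finset.sum_range_succ, Finset.sum_range_succ]
  simp [hℓ]

theorem expAt_of_ker {f : R} (hf : δ f = 0) : expAt δ hnil (-ℓ) f = f := by
  have h : (δ)^[1] f = 0 := hf
  rw [expAt_eq _ h]
  simp

theorem sub_expAt_mem (f : R) : f - expAt δ hnil (-ℓ) f ∈ Ideal.span {ℓ} := by
  obtain ⟨N, hN⟩ := hnil f
  rw [expAt_eq _ (iter_of_le hN (Nat.le_succ N)), Finset.sum_range_succ']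
  simp only [Nat.factorial_zero, Nat.cast_one, inv_one, pow_zero, one_mul, one_smul,
    Function.iterate_zero, id_eq]
  rw [sub_add_cancel_right, neg_mem_iff]
  refine Ideal.sum_mem _ fun n _ => ?_
  rw [Algebra.smul_def, pow_succ]
  refine Ideal.mul_mem_left _ _ (Ideal.mul_mem_right _ _ (Ideal.mul_mem_left _ _ ?_))
  rw [neg_mem_iff]
  exact Ideal.subset_span rfl

theorem expAt_eq_zero_iff (f : R) : expAt δ hnil (-ℓ) f = 0 ↔ f ∈ Ideal.span {ℓ} := by
  constructor
  · intro h
    have h1 := sub_expAt_mem (hnil := hnil) hℓ f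
    rwa [h, sub_zero] at h1
  · intro h
    obtain ⟨g, rfl⟩ := Ideal.mem_span_singleton.1 h
    rw [map_mul, expAt_slice hℓ, zero_mul]

theorem expAt_expAt (f : R) :
    expAt δ hnil (-ℓ) (expAt δ hnil (-ℓ) f) = expAt δ hnil (-ℓ) f :=
  expAt_of_ker hℓ (der_expAt hℓ f)

theorem expand {f : R} {N : ℕ} (hN : (δ)^[N] f = 0) :
    f = ∑ n ∈ Finset.range N, ((n.factorial : k)⁻¹) • (ℓ ^ n * expAt δ hnil (-ℓ) ((δ)^[n] f)) := by
  induction N generalizing f with
  | zero => simpa using hN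
  | succ N ih =>
    have hf := ih (f := δ f) (by rwa [Function.iterate_succ_apply] at hN)
    set S := ∑ n ∈ Finset.range (N + 1),
      ((n.factorial : k)⁻¹) • (ℓ ^ n * expAt δ hnil (-ℓ) ((δ)^[n] f)) with hS
    have hd : δ S = δ f := by
      rw [hS, map_sum, Finset.sum_range_succ']
      have h0 : δ (((Nat.factorial 0 : k)⁻¹) • (ℓ ^ 0 * expAt δ hnil (-ℓ) ((δ)^[0] f))) = 0 := by
        simp [der_expAt hℓ]
      rw [h0, add_zero]
      conv_rhs => rw [hf]
      refine Finset.sum_congr rfl fun n _ => ?_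
      have h2 : ((n + 1 : ℕ) : k) ≠ 0 := by exact_mod_cast Nat.succ_ne_zero n
      have h3 : ((n.factorial : ℕ) : k) ≠ 0 := by exact_mod_cast Nat.factorial_ne_zero n
      rw [Derivation.map_smul, Derivation.leibniz, der_expAt hℓ, smul_zero, zero_add,
        Derivation.leibniz_pow, hℓ, Nat.add_sub_cancel, smul_eq_mul, smul_eq_mul, mul_one,
        Function.iterate_succ_apply, ← Nat.cast_smul_eq_nsmul k, mul_smul_comm, smul_smul,
        Nat.factorial_succ, mul_comm (expAt δ hnil (-ℓ) _)]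
      congr 1
      push_cast
      push_cast at h2
      field_simp
    have h1 : δ (f - S) = 0 := by rw [map_sub, hd, sub_self]
    have h2 := expAt_of_ker (hnil := hnil) hℓ h1
    have h3 : expAt δ hnil (-ℓ) S = expAt δ hnil (-ℓ) f := by
      rw [hS, map_sum, Finset.sum_range_succ']
      have h4 : ∀ n ∈ Finset.range N, expAt δ hnil (-ℓ) ((((n + 1).factorial : k)⁻¹) •
          (ℓ ^ (n + 1) * expAt δ hnil (-ℓ) ((δ)^[n + 1] f))) = 0 := by
        intro n _
        rw [map_smul, map_mul, map_pow, expAt_slice hℓ, pow_succ, mul_zero, zero_mul, smul_zero]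
      rw [Finset.sum_eq_zero h4, zero_add]
      simp [expAt_expAt hℓ]
    rw [map_sub, h3, sub_self] at h2
    exact sub_eq_zero.1 h2.symm

/-- `f` is zero if all `π (δ ^ n f)`, `n < N`, are zero. -/
theorem eq_zero_of_expAt {f : R} {N : ℕ} (hN : (δ)^[N] f = 0)
    (h : ∀ n < N, expAt δ hnil (-ℓ) ((δ)^[n] f) = 0) : f = 0 := by
  rw [expand (hnil := hnil) hℓ hN]
  refine Finset.sum_eq_zero fun n hn => ?_
  rw [h n (Finset.mem_range.1 hn), mul_zero, smul_zero]

theorem expand_unique {N : ℕ} {g : ℕ → R} (hg : ∀ n < N, δ (g n) = 0)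
    (h : ∑ n ∈ Finset.range N, ℓ ^ n * g n = 0) : ∀ n < N, g n = 0 := by
  induction N generalizing g with
  | zero => intro n hn; omega
  | succ N ih =>
    have h1 := congrArg δ h
    rw [map_sum, map_zero, Finset.sum_range_succ'] at h1
    have h0 : δ (ℓ ^ 0 * g 0) = 0 := by
      rw [pow_zero, one_mul]
      exact hg 0 (Nat.succ_pos N)
    rw [h0, add_zero] at h1
    have h2 : ∑ n ∈ Finset.range N, ℓ ^ n * (((n + 1 : ℕ) : k) • g (n + 1)) = 0 := by
      rw [← h1]
      refine Finset.sum_congr rfl fun n hn => ?_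
      rw [Derivation.leibniz, hg (n + 1) (by simpa using hn), smul_zero, zero_add,
        Derivation.leibniz_pow, hℓ, Nat.add_sub_cancel, smul_eq_mul, smul_eq_mul, mul_one,
        ← Nat.cast_smul_eq_nsmul k, mul_smul_comm, mul_smul_comm, mul_comm (g (n + 1))]
    have h3 := ih (g := fun n => ((n + 1 : ℕ) : k) • g (n + 1)) (fun n hn => by
      rw [Derivation.map_smul, hg (n + 1) (by omega), smul_zero]) h2
    have h4 : ∀ n < N, g (n + 1) = 0 := by
      intro n hn
      have h5 := h3 n hn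
      have h6 : ((n + 1 : ℕ) : k) ≠ 0 := by exact_mod_cast Nat.succ_ne_zero n
      exact (smul_eq_zero.1 h5).resolve_left h6
    intro n hn
    rcases n with _ | n
    · rw [Finset.sum_range_succ'] at h
      rw [Finset.sum_eq_zero (fun n hn => by
        rw [h4 n (Finset.mem_range.1 hn), mul_zero]), zero_add, pow_zero, one_mul] at h
      exact h
    · exact h4 n (by omega)

end slice

end Pool.Agent.Helper87.KS
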