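import Pool.Agent.Helper87.KS.FilL
import Pool.Agent.Helper87.KS.Slice

set_option autoImplicit false

/-!
# Project KS, module KS-15: lower bound by the quotient

PROOF. `π = expAt δ hnil (-ℓ)`, `R₁ = R ⧸ span {ℓ}`, `φ₁ = mk ∘ φ`, `w μ₀ = ω₀`, `c = max |μ₀ j|`, `ℓ ∈ Fil φ C₁`
(`exists_mem_fil`), `π (Fil φ T) ≤ Fil φ (C₂ T)` (`exists_hom_fil`). For `g ∈ R₁` let `π₁ g` be `π f` for any `f` with `mk f = g`
(well defined and linear, injective: `expAt_eq_zero_iff`; e.g. `Ideal.Quotient.liftₐ`), so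
`δ (π₁ g) = 0` (`der_expAt`). If `g ∈ Eb v₁ 0 (w μ) ⊓ Fil φ₁ T` then `π₁ g ∈ Eb v 0 (w μ) ⊓ Fil φ (C₂ T)` (`exists_of_fil_quot`,
`hv₁`), and for `n ≤ T` `ℓ ^ n π₁ g ∈ Eb v 0 (w (μ - n • μ₀)) ⊓ Fil φ (C₁ T + C₂ T)`.
For `μ' ∈ box (T + T c)` the linear map `(g_n)_n ↦ ∑ ℓ ^ n π₁ (g_n)` from the product over the `n ≤ T` with
`μ' + n • μ₀ ∈ box T` of `Eb v₁ 0 (w (μ' + n • μ₀)) ⊓ Fil φ₁ T` to `Eb v 0 (w μ') ⊓ Fil φ (C₁ T + C₂ T)` is injective
(`expand_unique`). Sum of the `finrank` over `μ' ∈ box (T + T c)`: on the left every pair `(n, μ)`, `n ≤ T`, `μ ∈ box T`,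
occurs (for `μ' = μ - n • μ₀`), so it is `(T + 1) * cntb φ₁ v₁ w 0 T`. `C = 1 + c + C₁ + C₂`. -/

namespace Pool.Agent.Helper87.KS

/-- reindexing of a sum over the box -/
private theorem sum_shift {s T T' : ℕ} (F : (Fin s → ℤ) → ℕ) (ν : Fin s → ℤ)
    (h : ∀ μ ∈ box s T, μ - ν ∈ box s T') :
    ∑ μ ∈ box s T, F μ ≤ ∑ μ ∈ box s T', if μ + ν ∈ box s T then F (μ + ν) else 0 := by
  classical
  have h1 : ∑ μ ∈ box s T, F μ =
      ∑ μ ∈ (box s T).image (fun μ => μ - ν), if μ + ν ∈ box s T then F (μ + ν) else 0 := by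
    rw [Finset.sum_image (fun a _ b _ hab => sub_left_injective hab)]
    refine Finset.sum_congr rfl fun μ hμ => ?_
    rw [sub_add_cancel, if_pos hμ]
  rw [h1]
  refine Finset.sum_le_sum_of_subset ?_
  intro μ hμ
  obtain ⟨μ', hμ', rfl⟩ := Finset.mem_image.1 hμ
  exact h μ' hμ'

theorem quot_le_cntb {k R J : Type*} [Field k] [CharZero k] [CommRing R] [IsDomain R]
    [Algebra k R] {W : AddSubgroup (J → ℤ)} {n s : ℕ} (φ : MvPolynomial (Fin n) k →ₐ[k] R)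
    (hφ : Function.Surjective φ) (v : J → RVal k R) (w : (Fin s → ℤ) →+ W)
    (hw : Function.Surjective w) (δ : Derivation k R R) (hnil : ∀ f, ∃ n : ℕ, (δ)^[n] f = 0)
    (ω₀ : W) (ℓ : R) (h1 : δ ℓ = 1) (hℓ : ∀ i, (v i).Ge ((ω₀ : J → ℤ) i) ℓ)
    (v₁ : J → RVal k (R ⧸ Ideal.span {ℓ}))
    (hv₁ : ∀ i f, v₁ i (Ideal.Quotient.mk (Ideal.span {ℓ}) f) = v i (expAt δ hnil (-ℓ) f)) :
    ∃ C : ℕ, ∀ T : ℕ, (T + 1) * cntb ((Ideal.Quotient.mkₐ k (Ideal.span {ℓ})).comp φ) v₁ w 0 T ≤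
      cntb φ v w 0 (C * (T + 1)) := by
  classical
  obtain ⟨μ₀, hμ₀⟩ := hw ω₀
  obtain ⟨C₁, hC₁⟩ := exists_mem_fil hφ ℓ
  obtain ⟨C₂, hC₂⟩ := exists_hom_fil hφ (expAt δ hnil (-ℓ))
  have hπI : ∀ a : R, a ∈ Ideal.span {ℓ} → expAt δ hnil (-ℓ) a = 0 := fun a ha =>
    (expAt_eq_zero_iff h1 a).2 ha
  let π₁ : (R ⧸ Ideal.span {ℓ}) →ₐ[k] R :=
    Ideal.Quotient.liftₐ (Ideal.span {ℓ}) (expAt δ hnil (-ℓ)) hπI
  have hπ₁ : ∀ f : R, π₁ (Ideal.Quotient.mk (Ideal.span {ℓ}) f) = expAt δ hnil (-ℓ) f :=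
    fun f => rfl
  have hinj : ∀ g, π₁ g = 0 → g = 0 := by
    intro g hg
    obtain ⟨f, rfl⟩ := Ideal.Quotient.mk_surjective g
    rw [hπ₁] at hg
    exact Ideal.Quotient.eq_zero_iff_mem.2 ((expAt_eq_zero_iff h1 f).1 hg)
  have hδ : ∀ g, δ (π₁ g) = 0 := by
    intro g
    obtain ⟨f, rfl⟩ := Ideal.Quotient.mk_surjective g
    rw [hπ₁]
    exact der_expAt h1 f
  have hGe : ∀ i m g, (v₁ i).Ge m g → (v i).Ge m (π₁ g) := by
    intro i m g hg
    obtain ⟨f, rfl⟩ := Ideal.Quotient.mk_surjective g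
    rcases hg with hg | hg
    · left
      rw [hg, map_zero]
    · right
      rw [hv₁] at hg
      exact hg
  set c : ℕ := ∑ j, (μ₀ j).natAbs with hc
  have hcj : ∀ j, |μ₀ j| ≤ (c : ℤ) := by
    intro j
    rw [Int.abs_eq_natAbs]
    exact_mod_cast Finset.single_le_sum (f := fun j => (μ₀ j).natAbs) (fun _ _ => Nat.zero_le _)
      (Finset.mem_univ j)
  refine ⟨1 + c + C₁ + C₂, fun T => ?_⟩
  set T' := (1 + c + C₁ + C₂) * (T + 1) with hT'
  let φ₁ := (Ideal.Quotient.mkₐ k (Ideal.span {ℓ})).comp φ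
  let V : (Fin s → ℤ) → Submodule k (R ⧸ Ideal.span {ℓ}) := fun μ =>
    Eb v₁ 0 (w μ : J → ℤ) ⊓ Fil φ₁ T
  let V' : (Fin s → ℤ) → Fin (T + 1) → Submodule k (R ⧸ Ideal.span {ℓ}) := fun μ' m =>
    if μ' + (m : ℕ) • μ₀ ∈ box s T then V (μ' + (m : ℕ) • μ₀) else ⊥
  have hVfin : ∀ μ, FiniteDimensional k (V μ) := by
    intro μ
    have := fil_finite φ₁ T
    exact Submodule.finiteDimensional_of_le (inf_le_right : V μ ≤ Fil φ₁ T)
  have hV'fin : ∀ μ' m, Module.Finite k (V' μ' m) := by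
    intro μ' m
    by_cases hb : μ' + (m : ℕ) • μ₀ ∈ box s T
    · have e : V' μ' m = V (μ' + (m : ℕ) • μ₀) := if_pos hb
      rw [e]
      exact hVfin _
    · have e : V' μ' m = ⊥ := if_neg hb
      rw [e]
      infer_instance
  have hmem : ∀ μ' m, ∀ x ∈ V' μ' m, ℓ ^ (m : ℕ) * π₁ x ∈
      (Eb v 0 (w μ' : J → ℤ) ⊓ Fil φ T' : Submodule k R) := by
    intro μ' m x hx
    by_cases hb : μ' + (m : ℕ) • μ₀ ∈ box s T
    · have e : V' μ' m = V (μ' + (m : ℕ) • μ₀) := if_pos hb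
      rw [e] at hx
      obtain ⟨hx1, hx2⟩ := Submodule.mem_inf.1 hx
      refine Submodule.mem_inf.2 ⟨?_, ?_⟩
      · rw [mem_Eb] at hx1 ⊢
        intro i
        have e1 := hGe i _ x (hx1 i)
        have e2 := (hℓ i).pow (m : ℕ)
        refine (e2.mul e1).mono (le_of_eq ?_)
        have e3 : ((w (μ' + (m : ℕ) • μ₀) : W) : J → ℤ) i =
            ((w μ' : W) : J → ℤ) i + ((m : ℕ) : ℤ) * ((ω₀ : W) : J → ℤ) i := by
          rw [map_add, map_nsmul, hμ₀, AddSubgroup.coe_add, AddSubgroup.coe_nsmul, Pi.add_apply,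
            Pi.smul_apply, nsmul_eq_mul]
        rw [e3]
        ring
      · obtain ⟨f, hf, rfl⟩ := exists_of_fil_quot hx2
        rw [hπ₁]
        have e1 := mul_mem_fil (pow_mem_fil hC₁ (m : ℕ)) (hC₂ T f hf)
        refine fil_mono ?_ e1
        have hm : (m : ℕ) ≤ T := Nat.lt_succ_iff.1 m.2
        calc (m : ℕ) * C₁ + C₂ * T ≤ T * C₁ + C₂ * T := by
              exact Nat.add_le_add_right (Nat.mul_le_mul_right _ hm) _
          _ ≤ (1 + c + C₁ + C₂) * (T + 1) := by nlinarith [Nat.zero_le c, Nat.zero_le T]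
    · have e : V' μ' m = ⊥ := if_neg hb
      rw [e, Submodule.mem_bot] at hx
      rw [hx, map_zero, mul_zero]
      exact Submodule.zero_mem _
  have hkey : ∀ μ', ∑ m, Module.finrank k (V' μ' m) ≤
      Module.finrank k (Eb v 0 (w μ' : J → ℤ) ⊓ Fil φ T' : Submodule k R) := by
    intro μ'
    have := hV'fin μ'
    rw [← Module.finrank_pi_fintype k]
    have hEfin : FiniteDimensional k (Eb v 0 (w μ' : J → ℤ) ⊓ Fil φ T' : Submodule k R) := by
      have := fil_finite φ T'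
      exact Submodule.finiteDimensional_of_le
        (inf_le_right : (Eb v 0 (w μ' : J → ℤ) ⊓ Fil φ T' : Submodule k R) ≤ Fil φ T')
    let L : ((m : Fin (T + 1)) → V' μ' m) →ₗ[k] R :=
      ∑ m : Fin (T + 1), (LinearMap.mulLeft k (ℓ ^ (m : ℕ))) ∘ₗ π₁.toLinearMap ∘ₗ
        (V' μ' m).subtype ∘ₗ LinearMap.proj m
    have hL : ∀ x, L x = ∑ m : Fin (T + 1), ℓ ^ (m : ℕ) * π₁ (x m : R ⧸ Ideal.span {ℓ}) := by
      intro x
      rw [LinearMap.sum_apply]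
      rfl
    have hLmem : ∀ x, L x ∈ (Eb v 0 (w μ' : J → ℤ) ⊓ Fil φ T' : Submodule k R) := by
      intro x
      rw [hL]
      exact Submodule.sum_mem _ fun m _ => hmem μ' m _ (x m).2
    refine LinearMap.finrank_le_finrank_of_injective (f := L.codRestrict _ hLmem) ?_
    rw [injective_iff_map_eq_zero]
    intro x hx
    have hx0 : L x = 0 := congrArg Subtype.val hx
    rw [hL] at hx0
    let g : ℕ → R := fun m => if hm : m < T + 1 then π₁ (x ⟨m, hm⟩ : R ⧸ Ideal.span {ℓ}) else 0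
    have hg : ∀ m < T + 1, δ (g m) = 0 := by
      intro m hm
      have e : g m = π₁ (x ⟨m, hm⟩ : R ⧸ Ideal.span {ℓ}) := dif_pos hm
      rw [e]
      exact hδ _
    have hsum : ∑ m ∈ Finset.range (T + 1), ℓ ^ m * g m = 0 := by
      rw [Finset.sum_range, ← hx0]
      refine Finset.sum_congr rfl fun m _ => ?_
      have e : g m = π₁ (x m : R ⧸ Ideal.span {ℓ}) := dif_pos m.2
      rw [e]
    have h0 := expand_unique h1 hg hsum
    funext m
    apply Subtype.ext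
    apply hinj
    have e : g m = π₁ (x m : R ⧸ Ideal.span {ℓ}) := dif_pos m.2
    rw [← e]
    exact h0 m m.2
  have hfr : ∀ μ' m, Module.finrank k (V' μ' m) =
      if μ' + (m : ℕ) • μ₀ ∈ box s T then Module.finrank k (V (μ' + (m : ℕ) • μ₀)) else 0 := by
    intro μ' m
    by_cases hb : μ' + (m : ℕ) • μ₀ ∈ box s T
    · have e : V' μ' m = V (μ' + (m : ℕ) • μ₀) := if_pos hb
      rw [e, if_pos hb]
    · have e : V' μ' m = ⊥ := if_neg hb
      rw [e, if_neg hb, finrank_bot]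
  have hbox : ∀ m : Fin (T + 1), ∀ μ ∈ box s T, μ - (m : ℕ) • μ₀ ∈ box s T' := by
    intro m μ hμ
    rw [mem_box] at hμ ⊢
    intro j
    have hm : ((m : ℕ) : ℤ) ≤ T := by exact_mod_cast Nat.lt_succ_iff.1 m.2
    have hm0 : (0 : ℤ) ≤ ((m : ℕ) : ℤ) := Int.natCast_nonneg _
    rw [Pi.sub_apply, Pi.smul_apply, nsmul_eq_mul]
    have e1 : |μ j - ((m : ℕ) : ℤ) * μ₀ j| ≤ |μ j| + ((m : ℕ) : ℤ) * |μ₀ j| := by
      refine (abs_sub _ _).trans ?_
      rw [abs_mul, abs_of_nonneg hm0]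
    have e2 : ((m : ℕ) : ℤ) * |μ₀ j| ≤ T * c :=
      mul_le_mul hm (hcj j) (abs_nonneg _) (Int.natCast_nonneg _)
    have e3 : (T : ℤ) + T * c ≤ (T' : ℤ) := by
      have : T + T * c ≤ T' := by
        rw [hT']
        nlinarith [Nat.zero_le C₁, Nat.zero_le C₂, Nat.zero_le c, Nat.zero_le T,
          Nat.zero_le (C₁ * T), Nat.zero_le (C₂ * T)]
      exact_mod_cast this
    linarith [hμ j]
  calc (T + 1) * cntb φ₁ v₁ w 0 T
      = ∑ m : Fin (T + 1), ∑ μ ∈ box s T, Module.finrank k (V μ) := by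
        rw [Finset.sum_const, Finset.card_univ, Fintype.card_fin, smul_eq_mul]
        rfl
    _ ≤ ∑ m : Fin (T + 1), ∑ μ' ∈ box s T',
          (if μ' + (m : ℕ) • μ₀ ∈ box s T then Module.finrank k (V (μ' + (m : ℕ) • μ₀)) else 0) :=
        Finset.sum_le_sum fun m _ => sum_shift (fun μ => Module.finrank k (V μ)) _ (hbox m)
    _ = ∑ μ' ∈ box s T', ∑ m : Fin (T + 1), Module.finrank k (V' μ' m) := by
        rw [Finset.sum_comm]
        refine Finset.sum_congr rfl fun μ' _ => Finset.sum_congr rfl fun m _ => ?_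
        rw [hfr]
    _ ≤ ∑ μ' ∈ box s T',
          Module.finrank k (Eb v 0 (w μ' : J → ℤ) ⊓ Fil φ T' : Submodule k R) :=
        Finset.sum_le_sum fun μ' _ => hkey μ'
    _ = cntb φ v w 0 T' := rfl

end Pool.Agent.Helper87.KS
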