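import Pool.Agent.Helper87.KS.FilL
import Pool.Agent.Helper87.KS.Slice

set_option autoImplicit false

/-!
# Project KS, module KS-14: upper bound by the quotient

PROOF. `π = expAt δ hnil (-ℓ)`, `R₁ = R ⧸ span {ℓ}`, `φ₁ = mk ∘ φ`. Let `C₁`, `C₂` be the constants of `exists_nil_fil`
and `exists_der_fil`, `μ₀` with `w μ₀ = ω₀` (`hw`) and `c = max |μ₀ j|`. For `μ ∈ box T` and
`f ∈ Eb v b (w μ) ⊓ Fil φ T` the elements `mk (δ^[n] f)`, `n < C₁ (T + 1)`, are in `Fil φ₁ (C₂ T)` (`fil_quot_mem`), and in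
`Eb v₁ b (w (μ + n • μ₀))`: `v_i (π (δ^[n] f)) ≥ v_i (δ^[n] f) ≥ v_i (f) - n ω₀_i` (`ge_expAt`, `hδ` iterated). The linear
map `f ↦ (mk (δ^[n] f))_n` is injective (`eq_zero_of_expAt`, `mk g = 0 ↔ g ∈ span {ℓ} ↔ π g = 0`). Hence
`finrank (Eb v b (w μ) ⊓ Fil φ T) ≤ ∑_{n < C₁ (T + 1)} finrank (Eb v₁ b (w (μ + n • μ₀)) ⊓ Fil φ₁ (C₂ T))`
(`LinearMap.finrank_le_finrank_of_injective`, `Module.finrank_pi_fintype`; everything is finite dimensional by
`fil_finite`). Sum over `μ ∈ box T`, exchange the sums; for fixed `n` the map `μ ↦ μ + n • μ₀` is injective into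
`box (T + C₁ (T + 1) c)`. So the constant `C = C₁ + C₂ + 1 + C₁ c` works (`cntb_mono`-like monotonicity in both
the box and the filtration). -/

namespace Pool.Agent.Helper87.KS

/-- Iteration of a derivation which drops the value by at most `c`. -/
private theorem fup_iter {k R : Type*} [Field k] [CommRing R] [Algebra k R] {v : RVal k R}
    {δ : Derivation k R R} {c : ℤ} (hδ : ∀ (n : ℤ) f, v.Ge n f → v.Ge (n - c) (δ f)) {m : ℤ}
    {f : R} (hf : v.Ge m f) (n : ℕ) : v.Ge (m - n * c) ((δ)^[n] f) := by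
  induction n with
  | zero => simpa using hf
  | succ n ih =>
    rw [Function.iterate_succ_apply']
    refine (hδ _ _ ih).mono (le_of_eq ?_)
    push_cast
    ring

theorem cntb_le_quot {k R J : Type*} [Field k] [CharZero k] [CommRing R] [IsDomain R]
    [Algebra k R] {W : AddSubgroup (J → ℤ)} {n s : ℕ} (φ : MvPolynomial (Fin n) k →ₐ[k] R)
    (hφ : Function.Surjective φ) (v : J → RVal k R) (w : (Fin s → ℤ) →+ W)
    (hw : Function.Surjective w) (δ : Derivation k R R) (hnil : ∀ f, ∃ n : ℕ, (δ)^[n] f = 0)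
    (ω₀ : W) (hδ : ∀ i (n : ℤ) f, (v i).Ge n f → (v i).Ge (n - (ω₀ : J → ℤ) i) (δ f)) (ℓ : R)
    (h1 : δ ℓ = 1) (hℓ : ∀ i, (v i).Ge ((ω₀ : J → ℤ) i) ℓ)
    (v₁ : J → RVal k (R ⧸ Ideal.span {ℓ}))
    (hv₁ : ∀ i f, v₁ i (Ideal.Quotient.mk (Ideal.span {ℓ}) f) = v i (expAt δ hnil (-ℓ) f))
    (b : J → ℤ) :
    ∃ C : ℕ, ∀ T : ℕ, cntb φ v w b T ≤ C * (T + 1) *
      cntb ((Ideal.Quotient.mkₐ k (Ideal.span {ℓ})).comp φ) v₁ w b (C * (T + 1)) := by
  classical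
  obtain ⟨C₁, hC₁⟩ := exists_nil_fil (φ := φ) δ hnil
  obtain ⟨C₂, hC₂⟩ := exists_der_fil hφ δ hnil
  obtain ⟨μ₀, hμ₀⟩ := hw ω₀
  set c : ℕ := ∑ j, (μ₀ j).natAbs with hc
  have hcj : ∀ j, |μ₀ j| ≤ (c : ℤ) := by
    intro j
    rw [Int.abs_eq_natAbs]
    exact_mod_cast Finset.single_le_sum (f := fun j => (μ₀ j).natAbs)
      (fun _ _ => Nat.zero_le _) (Finset.mem_univ j)
  set φ₁ := (Ideal.Quotient.mkₐ k (Ideal.span {ℓ})).comp φ with hφ₁
  refine ⟨C₁ + C₂ + 1 + C₁ * c, fun T => ?_⟩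
  set C : ℕ := C₁ + C₂ + 1 + C₁ * c with hC
  set N : ℕ := C₁ * (T + 1) with hN
  set T' : ℕ := C * (T + 1) with hT'
  have hCT : C₂ * T ≤ T' := by
    rw [hT', hC]
    calc C₂ * T ≤ C₂ * (T + 1) := Nat.mul_le_mul_left _ (Nat.le_succ T)
      _ ≤ (C₁ + C₂ + 1 + C₁ * c) * (T + 1) := Nat.mul_le_mul_right _ (by omega)
  have hNC : N ≤ C * (T + 1) := Nat.mul_le_mul_right _ (by omega)
  have hbox : T + N * c ≤ T' := by
    rw [hT', hC, hN]
    nlinarith [Nat.zero_le (C₁ * T), Nat.zero_le (C₂ * T), Nat.zero_le C₁, Nat.zero_le C₂]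
  let Fk : (Fin s → ℤ) → ℕ := fun ν =>
    Module.finrank k (Eb v₁ b (w ν : J → ℤ) ⊓ Fil φ₁ T' : Submodule k (R ⧸ Ideal.span {ℓ}))
  have hone : ∀ μ : Fin s → ℤ,
      Module.finrank k (Eb v b (w μ : J → ℤ) ⊓ Fil φ T : Submodule k R) ≤
        ∑ n : Fin N, Fk (μ + (n : ℕ) • μ₀) := by
    intro μ
    have hfin : ∀ n : Fin N, FiniteDimensional k
        (Eb v₁ b (w (μ + (n : ℕ) • μ₀) : J → ℤ) ⊓ Fil φ₁ T' :
          Submodule k (R ⧸ Ideal.span {ℓ})) := by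
      intro n
      have := fil_finite φ₁ T'
      exact Submodule.finiteDimensional_inf_right _ _
    have hmem : ∀ n : Fin N, ∀ f ∈ (Eb v b (w μ : J → ℤ) ⊓ Fil φ T : Submodule k R),
        ((Ideal.Quotient.mkₐ k (Ideal.span {ℓ})).toLinearMap ∘ₗ
          ((δ : R →ₗ[k] R) ^ (n : ℕ) : Module.End k R)) f ∈
        (Eb v₁ b (w (μ + (n : ℕ) • μ₀) : J → ℤ) ⊓ Fil φ₁ T' :
          Submodule k (R ⧸ Ideal.span {ℓ})) := by
      intro n f hf
      have hval : ((Ideal.Quotient.mkₐ k (Ideal.span {ℓ})).toLinearMap ∘ₗ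
          ((δ : R →ₗ[k] R) ^ (n : ℕ) : Module.End k R)) f =
          Ideal.Quotient.mk (Ideal.span {ℓ}) ((δ)^[(n : ℕ)] f) := by
        rw [LinearMap.comp_apply, Module.End.pow_apply]
        rfl
      rw [hval]
      refine ⟨?_, ?_⟩
      · refine mem_Eb.2 ?_
        intro i
        have h2 : (v i).Ge (-(b i) - (w μ : J → ℤ) i - (n : ℕ) * (ω₀ : J → ℤ) i)
            ((δ)^[(n : ℕ)] f) := fup_iter (hδ i) (mem_Eb.1 hf.1 i) n
        have h3 : (v i).Ge (-(b i) - (w μ : J → ℤ) i - (n : ℕ) * (ω₀ : J → ℤ) i)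
            (expAt δ hnil (-ℓ) ((δ)^[(n : ℕ)] f)) :=
          ge_expAt (hδ i) (hℓ i).neg h2
        have h4 : -(b i) - (w (μ + (n : ℕ) • μ₀) : J → ℤ) i =
            -(b i) - (w μ : J → ℤ) i - (n : ℕ) * (ω₀ : J → ℤ) i := by
          rw [map_add, map_nsmul, hμ₀, AddSubgroup.coe_add, AddSubgroup.coe_nsmul, Pi.add_apply,
            Pi.smul_apply, nsmul_eq_mul]
          ring
        rw [h4]
        rcases h3 with h3 | h3
        · left
          rw [Ideal.Quotient.eq_zero_iff_mem]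
          exact (expAt_eq_zero_iff h1 _).1 h3
        · right
          rw [hv₁]
          exact h3
      · exact fil_mono hCT (fil_quot_mem (hC₂ T f hf.2 n))
    let L : (Eb v b (w μ : J → ℤ) ⊓ Fil φ T : Submodule k R) →ₗ[k]
        (∀ n : Fin N, (Eb v₁ b (w (μ + (n : ℕ) • μ₀) : J → ℤ) ⊓ Fil φ₁ T' :
          Submodule k (R ⧸ Ideal.span {ℓ}))) :=
      LinearMap.pi (fun n => LinearMap.restrict _ (hmem n))
    have hinj : Function.Injective L := by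
      rw [← LinearMap.ker_eq_bot, LinearMap.ker_eq_bot']
      rintro ⟨f, hf⟩ hLf
      apply Subtype.ext
      refine eq_zero_of_expAt (hnil := hnil) h1 (hC₁ T f hf.2) ?_
      intro n hn
      rw [expAt_eq_zero_iff h1, ← Ideal.Quotient.eq_zero_iff_mem]
      have h5 := congrArg Subtype.val (congrFun hLf ⟨n, hn⟩)
      have h6 : (((L ⟨f, hf⟩) ⟨n, hn⟩ : (Eb v₁ b (w (μ + n • μ₀) : J → ℤ) ⊓ Fil φ₁ T' :
          Submodule k (R ⧸ Ideal.span {ℓ}))) : R ⧸ Ideal.span {ℓ}) =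
          Ideal.Quotient.mk (Ideal.span {ℓ}) ((δ)^[n] f) := by
        show ((Ideal.Quotient.mkₐ k (Ideal.span {ℓ})).toLinearMap ∘ₗ
          ((δ : R →ₗ[k] R) ^ n : Module.End k R)) f = _
        rw [LinearMap.comp_apply, Module.End.pow_apply]
        rfl
      exact h6.symm.trans h5
    have h7 := LinearMap.finrank_le_finrank_of_injective hinj
    rw [Module.finrank_pi_fintype] at h7
    exact h7
  have hshift : ∀ n : Fin N, ∑ μ ∈ box s T, Fk (μ + (n : ℕ) • μ₀) ≤ ∑ ν ∈ box s T', Fk ν := by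
    intro n
    have h8 : ∑ μ ∈ box s T, Fk (μ + (n : ℕ) • μ₀) =
        ∑ ν ∈ (box s T).image (fun μ => μ + (n : ℕ) • μ₀), Fk ν := by
      rw [Finset.sum_image]
      intro x _ y _ hxy
      exact add_right_cancel hxy
    rw [h8]
    apply Finset.sum_le_sum_of_subset
    intro ν hν
    obtain ⟨μ, hμ, rfl⟩ := Finset.mem_image.1 hν
    rw [mem_box] at hμ ⊢
    intro j
    have h9 : |(n : ℕ) • μ₀ j| ≤ (N : ℤ) * c := by
      rw [nsmul_eq_mul, abs_mul, Nat.abs_cast]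
      apply mul_le_mul
      · exact_mod_cast n.2.le
      · exact hcj j
      · exact abs_nonneg _
      · positivity
    have h10 : (T : ℤ) + N * c ≤ T' := by exact_mod_cast hbox
    calc |(μ + (n : ℕ) • μ₀) j| ≤ |μ j| + |(n : ℕ) • μ₀ j| := abs_add_le _ _
      _ ≤ (T : ℤ) + N * c := add_le_add (hμ j) h9
      _ ≤ T' := h10
  calc cntb φ v w b T ≤ ∑ μ ∈ box s T, ∑ n : Fin N, Fk (μ + (n : ℕ) • μ₀) :=
        Finset.sum_le_sum (fun μ _ => hone μ)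
    _ = ∑ n : Fin N, ∑ μ ∈ box s T, Fk (μ + (n : ℕ) • μ₀) := Finset.sum_comm
    _ ≤ ∑ _n : Fin N, ∑ ν ∈ box s T', Fk ν := Finset.sum_le_sum (fun n _ => hshift n)
    _ = N * ∑ ν ∈ box s T', Fk ν := by
        rw [Finset.sum_const, Finset.card_univ, Fintype.card_fin, smul_eq_mul]
    _ ≤ C * (T + 1) * ∑ ν ∈ box s T', Fk ν := Nat.mul_le_mul_right _ hNC
    _ = C * (T + 1) * cntb φ₁ v₁ w b T' := rfl

end Pool.Agent.Helper87.KS
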