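import Pool.Agent.Helper87.KS.Defs

set_option autoImplicit false

/-! Module KS-04. Graded spaces.

`gfin_iff`. PROOF: if `GFin E`, `gsub E` is contained in the range of a linear map from the finite
dimensional space `∀ ω : s, E ω`, `s` the finite set of the `ω` with `E ω ≠ ⊥` (or embeds in it).
Conversely `E ω` embeds in `gsub E` by `Finsupp.single ω`, and nonzero elements of different
components are linearly independent (`Finsupp.single ω f_ω`), so there are only finitely many
(`Set.Finite` from `LinearIndependent` and finite dimension).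

`tilde_apply`: `Finsupp.mapDomain` along the injective map `· + γ` (write `ω = (ω - γ) + γ`,
`Finsupp.mapDomain_apply`). -/

namespace Pool.Agent.Helper87.KS

variable {k V Γ : Type*} [Field k] [AddCommGroup V] [Module k V] [AddCommGroup Γ]

theorem gfin_iff {Γ : Type*} {E : Γ → Submodule k V} :
    GFin E ↔ FiniteDimensional k (gsub E) := by
  classical
  have hsingle : ∀ {w : Γ} {f : V}, f ∈ E w → Finsupp.single w f ∈ gsub E := by
    intro w f hf w'
    rw [Finsupp.single_apply]
    split_ifs with h
    · rw [← h]; exact hf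
    · exact (E w').zero_mem
  constructor
  · rintro ⟨h1, h2⟩
    let φ : gsub E →ₗ[k] ((w : h1.toFinset) → E w) :=
      { toFun := fun F w => ⟨(F : Γ →₀ V) w, F.2 w⟩
        map_add' := fun F G => rfl
        map_smul' := fun c F => rfl }
    have hφ : Function.Injective φ := by
      intro F G hFG
      apply Subtype.ext
      ext w
      by_cases hw : E w = ⊥
      · have e1 := F.2 w
        have e2 := G.2 w
        rw [hw, Submodule.mem_bot] at e1 e2
        rw [e1, e2]
      · have h3 := congrFun hFG ⟨w, h1.mem_toFinset.2 hw⟩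
        exact congrArg Subtype.val h3
    have := fun w : h1.toFinset => h2 w
    exact Module.Finite.of_injective φ hφ
  · intro h
    constructor
    · by_contra hinf
      have hinf' : {w | E w ≠ ⊥}.Infinite := hinf
      have : Infinite {w | E w ≠ ⊥} := hinf'.to_subtype
      have hex : ∀ w : {w | E w ≠ ⊥}, ∃ f : V, f ∈ E w ∧ f ≠ 0 := fun w =>
        (Submodule.ne_bot_iff _).1 w.2
      choose f hf hf0 using hex
      let v : {w | E w ≠ ⊥} → gsub E := fun w => ⟨Finsupp.single (w : Γ) (f w), hsingle (hf w)⟩
      have hv : LinearIndependent k v := by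
        apply LinearIndependent.of_comp (gsub E).subtype
        rw [linearIndependent_iff']
        intro s g hg i hi
        have h3 := DFunLike.congr_fun hg (i : Γ)
        rw [Finsupp.finsetSum_apply, Finset.sum_eq_single i] at h3
        · simp only [Function.comp_apply, Submodule.subtype_apply, Finsupp.smul_apply,
            Finsupp.single_eq_same, Finsupp.coe_zero, Pi.zero_apply, smul_eq_zero, v] at h3
          exact h3.resolve_right (hf0 i)
        · intro j _ hj
          have h4 : (j : Γ) ≠ (i : Γ) := fun h5 => hj (Subtype.ext h5)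
          simp only [Function.comp_apply, Submodule.subtype_apply, Finsupp.smul_apply, v]
          rw [Finsupp.single_apply, if_neg h4, smul_zero]
        · intro h4
          exact absurd hi h4
      exact absurd hv.finite (not_finite_iff_infinite.2 this)
    · intro w
      let φ : E w →ₗ[k] gsub E :=
        { toFun := fun f => ⟨Finsupp.single w (f : V), hsingle f.2⟩
          map_add' := fun f g => by
            apply Subtype.ext
            exact Finsupp.single_add w (f : V) (g : V)
          map_smul' := fun c f => by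
            apply Subtype.ext
            exact (Finsupp.smul_single c w (f : V)).symm }
      have hφ : Function.Injective φ := by
        intro f g hfg
        apply Subtype.ext
        exact Finsupp.single_injective w (congrArg Subtype.val hfg)
      exact Module.Finite.of_injective φ hφ

theorem gfin_mono {Γ : Type*} {E E' : Γ → Submodule k V} (h : ∀ ω, E ω ≤ E' ω) (hE : GFin E') :
    GFin E := by
  refine ⟨hE.1.subset fun ω hω hω' => hω ?_, fun ω => ?_⟩
  · have h1 := h ω
    rw [hω'] at h1
    exact le_bot_iff.1 h1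
  · have := hE.2 ω
    exact Submodule.finiteDimensional_of_le (h ω)

theorem tilde_apply (D : Module.End k V) (γ : Γ) (F : Γ →₀ V) (ω : Γ) :
    tilde D γ F ω = D (F (ω - γ)) := by
  unfold tilde
  rw [LinearMap.comp_apply, Finsupp.lmapDomain_apply]
  have h := Finsupp.mapDomain_apply (f := fun ω : Γ => ω + γ) (add_left_injective γ)
    (Finsupp.mapRange.linearMap D F) (ω - γ)
  simp only [sub_add_cancel] at h
  rw [h, Finsupp.mapRange.linearMap_apply, Finsupp.mapRange_apply]

theorem tilde_single (D : Module.End k V) (γ ω : Γ) (f : V) :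
    tilde D γ (Finsupp.single ω f) = Finsupp.single (ω + γ) (D f) := by
  unfold tilde
  rw [LinearMap.comp_apply, Finsupp.lmapDomain_apply, Finsupp.mapRange.linearMap_apply,
    Finsupp.mapRange_single, Finsupp.mapDomain_single]

theorem tilde_mul (D D' : Module.End k V) (γ γ' : Γ) :
    tilde D γ * tilde D' γ' = tilde (D * D') (γ + γ') := by
  refine LinearMap.ext fun F => Finsupp.ext fun ω => ?_
  rw [Module.End.mul_apply, tilde_apply, tilde_apply, tilde_apply, Module.End.mul_apply, sub_sub]

theorem tilde_br (D D' : Module.End k V) (γ γ' : Γ) :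
    br (tilde D γ) (tilde D' γ') = tilde (br D D') (γ + γ') := by
  unfold br
  rw [tilde_mul, tilde_mul, add_comm γ' γ]
  refine LinearMap.ext fun F => Finsupp.ext fun ω => ?_
  rw [LinearMap.sub_apply, Finsupp.sub_apply, tilde_apply, tilde_apply, tilde_apply,
    LinearMap.sub_apply]

theorem tilde_pow (D : Module.End k V) (γ : Γ) (n : ℕ) :
    tilde D γ ^ n = tilde (D ^ n) (n • γ) := by
  induction n with
  | zero =>
    refine LinearMap.ext fun F => Finsupp.ext fun ω => ?_
    rw [tilde_apply, pow_zero, pow_zero, zero_smul, sub_zero]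
    rfl
  | succ n ih =>
    rw [pow_succ, ih, tilde_mul, ← pow_succ, ← succ_nsmul]

/-- The map `D ↦ tilde D γ` is linear; PROOF: `tilde_apply`. -/
theorem tilde_mem_span {ι : Type*} {D : Module.End k V} {γ : Γ} {A : ι → Module.End k V}
    {ω : ι → Γ} {S : Set ι} (hS : ∀ c ∈ S, ω c = γ) (hD : D ∈ Submodule.span k (A '' S)) :
    tilde D γ ∈ Submodule.span k ((fun c => tilde (A c) (ω c)) '' S) := by
  induction hD using Submodule.span_induction with
  | mem B hB =>
    obtain ⟨c, hc, rfl⟩ := hB
    rw [← hS c hc]
    exact Submodule.subset_span ⟨c, hc, rfl⟩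
  | zero =>
    have h : tilde (0 : Module.End k V) γ = 0 := by
      refine LinearMap.ext fun F => Finsupp.ext fun ω => ?_
      rw [tilde_apply]
      rfl
    rw [h]
    exact Submodule.zero_mem _
  | add B B' _ _ hB hB' =>
    have h : tilde (B + B') γ = tilde B γ + tilde B' γ := by
      refine LinearMap.ext fun F => Finsupp.ext fun ω => ?_
      rw [tilde_apply, LinearMap.add_apply, LinearMap.add_apply, Finsupp.add_apply, tilde_apply,
        tilde_apply]
    rw [h]
    exact Submodule.add_mem _ hB hB'
  | smul x B _ hB =>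
    have h : tilde (x • B) γ = x • tilde B γ := by
      refine LinearMap.ext fun F => Finsupp.ext fun ω => ?_
      rw [tilde_apply, LinearMap.smul_apply, LinearMap.smul_apply, Finsupp.smul_apply, tilde_apply]
    rw [h]
    exact Submodule.smul_mem _ x hB

/-- Locally nilpotent operators give locally nilpotent operators: `tilde_pow`, and the (finite)
support. -/
theorem tilde_nil {D : Module.End k V} (hD : ∀ f, ∃ n : ℕ, (D ^ n) f = 0) (γ : Γ) (F : Γ →₀ V) :
    ∃ n : ℕ, (tilde D γ ^ n) F = 0 := by
  choose n hn using hD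
  refine ⟨F.support.sup fun ω => n (F ω), ?_⟩
  set N := F.support.sup fun ω => n (F ω) with hN
  refine Finsupp.ext fun ω => ?_
  rw [tilde_pow, tilde_apply, Finsupp.zero_apply]
  by_cases h0 : F (ω - N • γ) = 0
  · rw [h0, map_zero]
  · have h1 : n (F (ω - N • γ)) ≤ N := by
      have := Finset.le_sup (f := fun ω => n (F ω)) (Finsupp.mem_support_iff.2 h0)
      exact this
    obtain ⟨l, hl⟩ := Nat.exists_eq_add_of_le h1
    have h2 := hn (F (ω - N • γ))
    have h3 : (D ^ (l + n (F (ω - N • γ)))) (F (ω - N • γ)) = 0 := by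
      rw [pow_add, Module.End.mul_apply, h2, map_zero]
    rw [add_comm, ← hl] at h3
    exact h3

theorem gsub_stable {E : Γ → Submodule k V} {D : Module.End k V} {γ : Γ}
    (h : ∀ ω, ∀ f ∈ E ω, D f ∈ E (ω + γ)) : ∀ F ∈ gsub E, tilde D γ F ∈ gsub E := by
  intro F hF ω
  rw [tilde_apply]
  have h1 := h (ω - γ) _ (hF (ω - γ))
  rwa [sub_add_cancel] at h1

section fam

variable {R : Type*} [CommRing R] [Algebra k R] {m : ℕ}

/-- The operators `y^(ω a) δ a` on `Γ →₀ R`. -/
noncomputable def Fam.op (F : Fam k R m Γ) (a : Fin m) : Module.End k (Γ →₀ R) :=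
  tilde (F.δ a : R →ₗ[k] R) (F.ω a)

/-- `F.malcev`, `tilde_br`, `tilde_mem_span` (the bracket of derivations is the commutator,
`Derivation.commutator_apply`). -/
theorem Fam.isMalcev (F : Fam k R m Γ) : IsMalcev F.op := by
  intro a b
  have h1 : br (F.op a) (F.op b) = tilde ((⁅F.δ a, F.δ b⁆ : Derivation k R R) : R →ₗ[k] R)
      (F.ω a + F.ω b) := by
    unfold Fam.op
    rw [tilde_br]
    rfl
  rw [h1]
  have h2 : ∀ D ∈ Submodule.span k (F.δ '' {c | a < c ∧ b < c ∧ F.ω c = F.ω a + F.ω b}),
      ((D : R →ₗ[k] R) : Module.End k R) ∈ Submodule.span k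
        ((fun c => ((F.δ c : R →ₗ[k] R) : Module.End k R)) ''
          {c | a < c ∧ b < c ∧ F.ω c = F.ω a + F.ω b}) := by
    intro D hD
    induction hD using Submodule.span_induction with
    | mem D hD =>
      obtain ⟨c, hc, rfl⟩ := hD
      exact Submodule.subset_span ⟨c, hc, rfl⟩
    | zero => exact Submodule.zero_mem _
    | add D D' _ _ h h' => exact Submodule.add_mem _ h h'
    | smul x D _ h => exact Submodule.smul_mem _ x h
  have h3 := tilde_mem_span (γ := F.ω a + F.ω b) (ω := F.ω) (fun c hc => hc.2.2)
    (h2 _ (F.malcev a b))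
  refine Submodule.span_mono ?_ h3
  exact Set.image_mono fun c hc => ⟨hc.1, hc.2.1⟩

theorem Fam.op_nil (F : Fam k R m Γ) (a : Fin m) (f : Γ →₀ R) : ∃ n : ℕ, (F.op a ^ n) f = 0 := by
  refine tilde_nil (fun f => ?_) (F.ω a) f
  obtain ⟨n, hn⟩ := F.nil a f
  exact ⟨n, by rw [Module.End.pow_apply]; exact hn⟩

/-- The operators `δ a` on `R` form a Malcev family. -/
theorem Fam.isMalcev' (F : Fam k R m Γ) :
    IsMalcev (fun a => ((F.δ a : R →ₗ[k] R) : Module.End k R)) := by
  intro a b
  have h2 : ∀ D ∈ Submodule.span k (F.δ '' {c | a < c ∧ b < c ∧ F.ω c = F.ω a + F.ω b}),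
      ((D : R →ₗ[k] R) : Module.End k R) ∈ Submodule.span k
        ((fun c => ((F.δ c : R →ₗ[k] R) : Module.End k R)) '' {c | a < c ∧ b < c}) := by
    intro D hD
    induction hD using Submodule.span_induction with
    | mem D hD =>
      obtain ⟨c, hc, rfl⟩ := hD
      exact Submodule.subset_span ⟨c, ⟨hc.1, hc.2.1⟩, rfl⟩
    | zero => exact Submodule.zero_mem _
    | add D D' _ _ h h' => exact Submodule.add_mem _ h h'
    | smul x D _ h => exact Submodule.smul_mem _ x h
  exact h2 _ (F.malcev a b)

end fam

end Pool.Agent.Helper87.KS
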