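import Pool.Agent.Helper87.KS.Soc
import Pool.Agent.Helper87.KS.Grad

set_option autoImplicit false

/-!
# Project KS, module KS-12: existence of a slice

PROOF. `E = gsub (fun ω => Eb v 0 ω)` is stable under the `F.op a` (`Eb_stable`, `gsub_stable`), `E' = span {single 0 1}`
is contained in `E`, the `F.op a` kill it. `¬ NoConst`: there are `ω`, `f ∈ Eb v 0 ω`, `f ≠ 0`, not (`ω = 0` and `f ∈ k`), so
`single ω f ∈ E`, `∉ E'`. `exists_soc`: `G ∈ E`, `G ∉ E'`, `F.op a G ∈ E'` for all `a`. Some component has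
`single ω (G ω) ∉ E'` (otherwise `G = ∑ single ω (G ω) ∈ E'`); `f = G ω ∈ Eb v 0 ω`, `f ≠ 0`. `F.op a G` has the component
`δ a f` at `ω + ω a` (`tilde_apply`), so `δ a f = 0` if `ω + ω a ≠ 0` and `δ a f ∈ k` if `ω + ω a = 0`.
Some `δ a f ≠ 0`: otherwise `f` is a nonzero constant, so `0 ≥ -ω_i` for all `i`, `ω = 0` by `hW`, and `single 0 f ∈ E'`.
Let `a₀` be the largest `a` with `δ a f ≠ 0`: `ω a₀ = -ω`, `δ a₀ f = c ≠ 0`, `ℓ = c⁻¹ f`. -/

namespace Pool.Agent.Helper87.KS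

theorem exists_slice {k R J : Type*} [Field k] [CommRing R] [IsDomain R]
    [Algebra k R] {W : AddSubgroup (J → ℤ)} (hW : Pointed W) {m : ℕ} (F : Fam k R m W)
    {v : J → RVal k R} (hF : Mono F v) (h : ¬ NoConst v W) :
    ∃ (a₀ : Fin m) (ℓ : R), F.δ a₀ ℓ = 1 ∧ (∀ a, ∃ c : k, F.δ a ℓ = algebraMap k R c) ∧
      (∀ a, F.ω a ≠ F.ω a₀ → F.δ a ℓ = 0) ∧ (∀ a, a₀ < a → F.δ a ℓ = 0) ∧
      ∀ i, (v i).Ge ((F.ω a₀ : J → ℤ) i) ℓ := by
  classical
  have hEs : ∀ a, ∀ G ∈ gsub (fun ω : W => Eb v 0 (ω : J → ℤ)), F.op a G ∈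
      gsub (fun ω : W => Eb v 0 (ω : J → ℤ)) := fun a =>
    gsub_stable (fun ω f hf => Eb_stable hF a hf)
  have hE's : ∀ a, ∀ G ∈ Submodule.span k {(Finsupp.single (0 : W) (1 : R) : W →₀ R)},
      F.op a G ∈ Submodule.span k {(Finsupp.single (0 : W) (1 : R) : W →₀ R)} := by
    intro a G hG
    obtain ⟨c, rfl⟩ := Submodule.mem_span_singleton.1 hG
    have h1 : F.op a (Finsupp.single (0 : W) (1 : R)) = 0 := by
      unfold Fam.op
      rw [tilde_single]
      have h2 : (F.δ a : R →ₗ[k] R) 1 = 0 := (F.δ a).map_one_eq_zero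
      rw [h2, Finsupp.single_zero]
    rw [map_smul, h1, smul_zero]
    exact Submodule.zero_mem _
  have hnot : ¬ gsub (fun ω : W => Eb v 0 (ω : J → ℤ)) ≤
      Submodule.span k {(Finsupp.single (0 : W) (1 : R) : W →₀ R)} := by
    intro hle
    apply h
    intro ω f hf hf0
    have h1 : Finsupp.single ω f ∈ gsub (fun ω : W => Eb v 0 (ω : J → ℤ)) := by
      intro ω'
      by_cases hω : ω = ω'
      · subst hω
        rw [Finsupp.single_eq_same]
        exact hf
      · rw [Finsupp.single_apply, if_neg hω]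
        exact Submodule.zero_mem _
    obtain ⟨c, hc⟩ := Submodule.mem_span_singleton.1 (hle h1)
    have h2 := DFunLike.congr_fun hc ω
    rw [Finsupp.single_eq_same, Finsupp.smul_apply] at h2
    by_cases hω : ω = 0
    · refine ⟨hω, c, ?_⟩
      rw [hω, Finsupp.single_eq_same, ← Algebra.algebraMap_eq_smul_one] at h2
      exact h2.symm
    · exfalso
      apply hf0
      rw [← h2, Finsupp.single_apply, if_neg (fun h3 => hω h3.symm), smul_zero]
  obtain ⟨G, hG, hG', hGa⟩ := exists_soc F.isMalcev hEs hE's (fun a f _ => F.op_nil a f) hnot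
  obtain ⟨ω, hω⟩ : ∃ ω, Finsupp.single ω (G ω) ∉
      Submodule.span k {(Finsupp.single (0 : W) (1 : R) : W →₀ R)} := by
    by_contra hcon
    push Not at hcon
    apply hG'
    rw [← Finsupp.sum_single G]
    exact Submodule.sum_mem _ fun ω _ => hcon ω
  obtain ⟨f, hf⟩ : ∃ f, f = G ω := ⟨_, rfl⟩
  have hfE : f ∈ Eb v 0 (ω : J → ℤ) := by
    rw [hf]
    exact hG ω
  rw [← hf] at hω
  have hδ : ∀ a, (ω + F.ω a ≠ 0 → F.δ a f = 0) ∧ ∃ c : k, F.δ a f = algebraMap k R c := by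
    intro a
    obtain ⟨c, hc⟩ := Submodule.mem_span_singleton.1 (hGa a)
    have h2 := DFunLike.congr_fun hc (ω + F.ω a)
    have h3 : F.op a G (ω + F.ω a) = F.δ a f := by
      unfold Fam.op
      rw [tilde_apply, add_sub_cancel_right, hf]
      rfl
    rw [h3, Finsupp.smul_apply, Finsupp.single_apply] at h2
    constructor
    · intro h4
      rw [← h2, if_neg (fun h5 => h4 h5.symm), smul_zero]
    · by_cases h4 : (0 : W) = ω + F.ω a
      · rw [if_pos h4, ← Algebra.algebraMap_eq_smul_one] at h2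
        exact ⟨c, h2.symm⟩
      · rw [if_neg h4, smul_zero] at h2
        exact ⟨0, by rw [← h2, map_zero]⟩
  have hex : ∃ a, F.δ a f ≠ 0 := by
    by_contra hcon
    push Not at hcon
    obtain ⟨c, hc⟩ := F.ker f hcon
    have hc0 : c ≠ 0 := by
      rintro rfl
      rw [map_zero] at hc
      apply hω
      rw [hc, Finsupp.single_zero]
      exact Submodule.zero_mem _
    have hf0 : f ≠ 0 := by
      rw [hc]
      exact (map_ne_zero_iff _ (algebraMap k R).injective).2 hc0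
    have hω0 : ω = 0 := by
      apply hW
      intro i
      have h1 := mem_Eb.1 hfE i
      rw [RVal.ge_iff hf0, hc, RVal.map_const, Pi.zero_apply] at h1
      omega
    apply hω
    rw [hω0, hc, Algebra.algebraMap_eq_smul_one, ← Finsupp.smul_single]
    exact Submodule.smul_mem _ c (Submodule.mem_span_singleton_self _)
  obtain ⟨a₁, ha₁⟩ := hex
  obtain ⟨a₀, ha₀, hmax⟩ := Finset.exists_max_image (Finset.univ.filter fun a => F.δ a f ≠ 0)
    (fun a => a) ⟨a₁, Finset.mem_filter.2 ⟨Finset.mem_univ _, ha₁⟩⟩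
  have ha₀' : F.δ a₀ f ≠ 0 := (Finset.mem_filter.1 ha₀).2
  have hsum : ω + F.ω a₀ = 0 := by
    by_contra h1
    exact ha₀' ((hδ a₀).1 h1)
  obtain ⟨c₀, hc₀⟩ := (hδ a₀).2
  have hc₀0 : c₀ ≠ 0 := by
    rintro rfl
    rw [map_zero] at hc₀
    exact ha₀' hc₀
  refine ⟨a₀, c₀⁻¹ • f, ?_, fun a => ?_, fun a ha => ?_, fun a ha => ?_, fun i => ?_⟩
  · rw [Derivation.map_smul, hc₀, Algebra.algebraMap_eq_smul_one, smul_smul, inv_mul_cancel₀ hc₀0, one_smul]
  · obtain ⟨c, hc⟩ := (hδ a).2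
    refine ⟨c₀⁻¹ * c, ?_⟩
    rw [Derivation.map_smul, hc, Algebra.smul_def, map_mul]
  · have h1 : ω + F.ω a ≠ 0 := by
      intro h2
      apply ha
      rw [← hsum] at h2
      exact add_left_cancel h2
    rw [Derivation.map_smul, (hδ a).1 h1, smul_zero]
  · have h1 : F.δ a f = 0 := by
      by_contra h2
      exact absurd (hmax a (Finset.mem_filter.2 ⟨Finset.mem_univ _, h2⟩)) (not_le.2 ha)
    rw [Derivation.map_smul, h1, smul_zero]
  · apply RVal.Ge.smul
    refine (mem_Eb.1 hfE i).mono (le_of_eq ?_)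
    have h1 : (ω : J → ℤ) = -(F.ω a₀ : J → ℤ) := by
      have h2 : ω = -F.ω a₀ := eq_neg_of_add_eq_zero_left hsum
      rw [h2]
      rfl
    rw [h1, Pi.zero_apply, Pi.neg_apply]
    ring

end Pool.Agent.Helper87.KS
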