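import Pool.Agent.Helper87.KS.Defs

set_option autoImplicit false

/-! Module KS-02. Socles of nilpotent families of operators.

`exists_soc`. PROOF: for `j = m, m - 1, ..., 0` there is `f ∈ E`, `f ∉ E'` with `A a f ∈ E'` for all
`a ≥ j` (`j = m`: `h`). Step from `j + 1` to `j`: the set `K` of the `f ∈ E` with `A a f ∈ E'` for all
`a ≥ j + 1` is stable under `A j`: `A a (A j f) = A j (A a f) + br (A a) (A j) f` and the bracket is a
combination of `A c`, `c > a`, so it maps `f` to `E'`. Take the least `n` with `(A j ^ n) f ∈ E'` and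
replace `f` by `(A j ^ (n - 1)) f`.

`span_nil`. PROOF: let `S 0 = ⊥`, `S (n + 1) = {f ∈ E | ∀ a, A a f ∈ S n}` (increasing by induction,
contained in `E` and stable under the `A a`). The union `E'` of the `S n` is `E`: otherwise
`exists_soc` gives `f ∈ E`, `f ∉ E'`, `A a f ∈ E'` for all `a`, so `A a f ∈ S n` for all `a` and one
`n`, so `f ∈ S (n + 1)`. An element `X` of the span maps `S (n + 1)` to `S n`, so `(X ^ n) f = 0` for
`f ∈ S n`. -/

namespace Pool.Agent.Helper87.KS

/-- If `E` and `E'` are stable under a Malcev family of locally nilpotent operators and `E` is not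
contained in `E'` then some element of `E` outside `E'` is mapped to `E'` by all operators. -/
theorem exists_soc {k V : Type*} [Field k] [AddCommGroup V] [Module k V] {m : ℕ}
    {A : Fin m → Module.End k V} (hA : IsMalcev A) {E E' : Submodule k V}
    (hE : ∀ a, ∀ f ∈ E, A a f ∈ E) (hE' : ∀ a, ∀ f ∈ E', A a f ∈ E')
    (hnil : ∀ a, ∀ f ∈ E, ∃ n : ℕ, (A a ^ n) f = 0) (h : ¬ E ≤ E') :
    ∃ f ∈ E, f ∉ E' ∧ ∀ a, A a f ∈ E' := by
  have key : ∀ t : ℕ, t ≤ m → ∃ f ∈ E, f ∉ E' ∧ ∀ a : Fin m, m - t ≤ (a : ℕ) → A a f ∈ E' := by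
    intro t
    induction t with
    | zero =>
      intro _
      obtain ⟨f, hf, hf'⟩ := SetLike.not_le_iff_exists.1 h
      refine ⟨f, hf, hf', fun a ha => ?_⟩
      have := a.2
      omega
    | succ t ih =>
      intro ht
      obtain ⟨f, hf, hf', hfa⟩ := ih (by omega)
      have hj : m - (t + 1) < m := by omega
      obtain ⟨J, hJ⟩ : ∃ J : Fin m, (J : ℕ) = m - (t + 1) := ⟨⟨m - (t + 1), hj⟩, rfl⟩
      have hst : ∀ n : ℕ, (A J ^ n) f ∈ E ∧ ∀ a : Fin m, J < a → A a ((A J ^ n) f) ∈ E' := by
        intro n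
        induction n with
        | zero =>
          refine ⟨by simpa using hf, fun a ha => ?_⟩
          have h1 : m - t ≤ (a : ℕ) := by
            have : (J : ℕ) < a := ha
            omega
          simpa using hfa a h1
        | succ n ihn =>
          obtain ⟨h1, h2⟩ := ihn
          have e1 : (A J ^ (n + 1)) f = A J ((A J ^ n) f) := by
            rw [pow_succ', Module.End.mul_apply]
          rw [e1]
          refine ⟨hE J _ h1, fun a ha => ?_⟩
          have h3 : ∀ B ∈ Submodule.span k (A '' {c | a < c ∧ J < c}),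
              B ((A J ^ n) f) ∈ E' := by
            intro B hB
            induction hB using Submodule.span_induction with
            | mem B hB =>
              obtain ⟨c, hc, rfl⟩ := hB
              exact h2 c hc.2
            | zero => simp
            | add B B' _ _ hB hB' => rw [LinearMap.add_apply]; exact E'.add_mem hB hB'
            | smul x B _ hB => rw [LinearMap.smul_apply]; exact E'.smul_mem x hB
          have h4 := h3 _ (hA a J)
          have e2 : A a (A J ((A J ^ n) f)) =
              br (A a) (A J) ((A J ^ n) f) + A J (A a ((A J ^ n) f)) := by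
            simp only [br, LinearMap.sub_apply, Module.End.mul_apply, sub_add_cancel]
          rw [e2]
          exact E'.add_mem h4 (hE' J _ (h2 a ha))
      have hex : ∃ n : ℕ, (A J ^ n) f ∈ E' := by
        obtain ⟨n, hn⟩ := hnil J f hf
        exact ⟨n, by rw [hn]; exact E'.zero_mem⟩
      classical
      obtain ⟨n, hn, hmin⟩ : ∃ n : ℕ, (A J ^ n) f ∈ E' ∧ ∀ l < n, (A J ^ l) f ∉ E' :=
        ⟨Nat.find hex, Nat.find_spec hex, fun l hl => Nat.find_min hex hl⟩
      cases n with
      | zero => exact absurd (by simpa using hn) hf'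
      | succ n =>
        refine ⟨(A J ^ n) f, (hst n).1, hmin n (Nat.lt_succ_self n), fun a ha => ?_⟩
        rcases eq_or_lt_of_le ha with h5 | h5
        · have h6 : a = J := Fin.ext (by omega)
          rw [h6]
          rwa [pow_succ', Module.End.mul_apply] at hn
        · exact (hst n).2 a (by rw [Fin.lt_def]; omega)
  obtain ⟨f, hf, hf', hfa⟩ := key m le_rfl
  exact ⟨f, hf, hf', fun a => hfa a (by omega)⟩

/-- The combinations of the operators are locally nilpotent. -/
theorem span_nil {k V : Type*} [Field k] [AddCommGroup V] [Module k V] {m : ℕ}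
    {A : Fin m → Module.End k V} (hA : IsMalcev A) {E : Submodule k V}
    (hE : ∀ a, ∀ f ∈ E, A a f ∈ E) (hnil : ∀ a, ∀ f ∈ E, ∃ n : ℕ, (A a ^ n) f = 0)
    {X : Module.End k V} (hX : X ∈ Submodule.span k (Set.range A)) {f : V} (hf : f ∈ E) :
    ∃ n : ℕ, (X ^ n) f = 0 := by
  obtain ⟨S, hS0, hS1⟩ : ∃ S : ℕ → Submodule k V, S 0 = ⊥ ∧
      ∀ n, S (n + 1) = E ⊓ ⨅ a, (S n).comap (A a) :=
    ⟨fun n => Nat.rec ⊥ (fun _ T => E ⊓ ⨅ a, T.comap (A a)) n, rfl, fun _ => rfl⟩
  have hmem : ∀ n g, g ∈ S (n + 1) ↔ g ∈ E ∧ ∀ a, A a g ∈ S n := by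
    intro n g
    rw [hS1, Submodule.mem_inf, Submodule.mem_iInf]
    rfl
  have hmono1 : ∀ n, S n ≤ S (n + 1) := by
    intro n
    induction n with
    | zero => rw [hS0]; exact bot_le
    | succ n ih =>
      intro g hg
      rw [hmem] at hg ⊢
      exact ⟨hg.1, fun a => ih (hg.2 a)⟩
  have hmono : Monotone S := monotone_nat_of_le_succ hmono1
  have hstab : ∀ n a, ∀ g ∈ S n, A a g ∈ S n := by
    intro n a g hg
    exact (((hmem n g).1 (hmono1 n hg)).2 a)
  have hmemE : ∀ g, g ∈ (⨆ n, S n) ↔ ∃ n, g ∈ S n := fun g =>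
    Submodule.mem_iSup_of_directed S hmono.directed_le
  have hle : E ≤ ⨆ n, S n := by
    by_contra hcon
    obtain ⟨g, hg, hg', hga⟩ := exists_soc hA hE (E' := ⨆ n, S n) (by
      intro a g hg
      rw [hmemE] at hg ⊢
      obtain ⟨n, hn⟩ := hg
      exact ⟨n, hstab n a g hn⟩) hnil hcon
    apply hg'
    rw [hmemE]
    have h1 : ∀ a, ∃ n, A a g ∈ S n := fun a => (hmemE _).1 (hga a)
    choose n hn using h1
    refine ⟨Finset.univ.sup n + 1, ?_⟩
    rw [hmem]
    exact ⟨hg, fun a => hmono (Finset.le_sup (Finset.mem_univ a)) (hn a)⟩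
  have hXS : ∀ n, ∀ g ∈ S (n + 1), X g ∈ S n := by
    intro n g hg
    induction hX using Submodule.span_induction with
    | mem B hB =>
      obtain ⟨c, rfl⟩ := hB
      exact ((hmem n g).1 hg).2 c
    | zero => simp
    | add B B' _ _ hB hB' => rw [LinearMap.add_apply]; exact (S n).add_mem hB hB'
    | smul x B _ hB => rw [LinearMap.smul_apply]; exact (S n).smul_mem x hB
  have hnn : ∀ n, ∀ g ∈ S n, (X ^ n) g = 0 := by
    intro n
    induction n with
    | zero =>
      intro g hg
      rw [hS0, Submodule.mem_bot] at hg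
      rw [hg, map_zero]
    | succ n ih =>
      intro g hg
      rw [pow_succ, Module.End.mul_apply]
      exact ih _ (hXS n g hg)
  obtain ⟨n, hn⟩ := (hmemE f).1 (hle hf)
  exact ⟨n, hnn n f hn⟩

end Pool.Agent.Helper87.KS
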