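import Pool.Agent.Helper87.KS.Slice
import Pool.Agent.Helper87.KS.Soc
import Pool.Agent.Helper87.KS.Grad

set_option autoImplicit false

/-!
# Project KS, module KS-11: the quotient by a slice

PROOF. `π = expAt (δ a₀) (-ℓ)`, `c a` with `δ a ℓ = c a`, `δ' a = δ a - c a δ a₀`, so `δ' a ℓ = 0`,
`δ' a₀ = 0`, and `c a = 0` if `ω a ≠ ω a₀` or `a > a₀`. `Ideal.span {ℓ}` is the kernel of `π` (`expAt_eq_zero_iff`), so it
is prime, and `R ⧸ span {ℓ}` embeds in `R` by `π` (`Ideal.quotientKerAlgEquivOfRightInverse` or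
`Ideal.Quotient.liftₐ`); `v₁ i (mk f) = v i (π f)` is an `RVal`.

(1) A combination `X = ∑ x_c δ c` which kills `ℓ` is `∑ x_c δ' c` (as `∑ x_c (c c) = 0`).
(2) `δ' a` preserves `span {ℓ}` (`δ' a (ℓ f) = ℓ δ' a f`), so it induces a derivation of `R₁ = R ⧸ span {ℓ}`:
`δ₁ a (mk f) = mk (δ' a f)`. (Build it as a linear map by `Submodule.mapQ` or `Quotient` lift, Leibniz on
representatives; or `Derivation` from `R` to `R₁` and lift.) The new family is indexed by `a₀.succAbove`
(strictly monotone; the omitted one is `δ₁ a₀ = 0`), weights `ω (a₀.succAbove b)`.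
(3) `malcev`: `⁅δ' a, δ' b⁆ = ⁅δ a, δ b⁆ - c b ⁅δ a, δ a₀⁆ - c a ⁅δ a₀, δ b⁆` (`⁅δ a₀, δ a₀⁆ = 0`), if `c b ≠ 0` then
`b ≤ a₀` and `ω b = ω a₀`, so by `F.malcev` it is a combination of the `δ c`, `c > a, b`, `ω c = ω a + ω b`; it kills `ℓ`; by (1) it
is the same combination of the `δ' c`; on `R₁` drop `c = a₀`.
(4) `nil`: `δ' a` is in the span of the `δ c`, so it is locally nilpotent on `R` (`span_nil` for
`Fam.isMalcev'`, `E = ⊤`), and `δ₁ a ^ n (mk f) = mk (δ' a ^ n f)`.
(5) `ker`: let `mk f` be killed by all `δ₁ a`; `g = π f`, `mk g = mk f`, `δ a₀ g = 0`. By descending induction on `a`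
`δ a g = 0`: `δ' a g = δ a g ∈ span {ℓ}` (also for `a = a₀`, trivially), `δ a₀ (δ a g) = ⁅δ a₀, δ a⁆ g` is a combination of the
`δ c g = 0`, `c > a`; so `δ a g ∈ ker (δ a₀) ⊓ span {ℓ}` and it is `π` of itself, which is `0`. So `g ∈ k` (`F.ker`).
(6) `Mono`: `v (π (δ' a (π f))) ≥ v (δ' a (π f)) ≥ v (π f) - ω a` by `ge_expAt` (`δ' a` has weight `ω a` as `c a = 0` if
`ω a ≠ ω a₀`), and `mk (δ' a f) = mk (δ' a (π f))`. -/

namespace Pool.Agent.Helper87.KS

private theorem sq_exists_der {k R : Type*} [Field k] [CommRing R] [Algebra k R] (I : Ideal R)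
    (D : Derivation k R R) (h : ∀ f ∈ I, D f ∈ I) :
    ∃ D₁ : Derivation k (R ⧸ I) (R ⧸ I),
      ∀ f, D₁ (Ideal.Quotient.mk I f) = Ideal.Quotient.mk I (D f) := by
  classical
  have hsurj : Function.Surjective (Ideal.Quotient.mk I) := Ideal.Quotient.mk_surjective
  set σ := Function.surjInv hsurj with hσ
  have hσ1 : ∀ q, Ideal.Quotient.mk I (σ q) = q := Function.surjInv_eq hsurj
  have key : ∀ f, Ideal.Quotient.mk I (D (σ (Ideal.Quotient.mk I f))) =
      Ideal.Quotient.mk I (D f) := by
    intro f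
    rw [Ideal.Quotient.eq, ← map_sub]
    apply h
    rw [← Ideal.Quotient.eq]
    exact hσ1 _
  have hsmul : ∀ (c : k) (f : R), Ideal.Quotient.mk I (c • f) = c • Ideal.Quotient.mk I f := by
    intro c f
    rfl
  let L : (R ⧸ I) →ₗ[k] (R ⧸ I) :=
    { toFun := fun q => Ideal.Quotient.mk I (D (σ q))
      map_add' := by
        intro x y
        obtain ⟨f, rfl⟩ := hsurj x
        obtain ⟨g, rfl⟩ := hsurj y
        rw [← map_add, key, key, key, map_add, map_add]
      map_smul' := by
        intro c x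
        obtain ⟨f, rfl⟩ := hsurj x
        rw [← hsmul, key, key, Derivation.map_smul, hsmul]
        rfl }
  refine ⟨Derivation.mk' L ?_, fun f => key f⟩
  · intro x y
    obtain ⟨f, rfl⟩ := hsurj x
    obtain ⟨g, rfl⟩ := hsurj y
    change Ideal.Quotient.mk I (D (σ (Ideal.Quotient.mk I f * Ideal.Quotient.mk I g))) =
      Ideal.Quotient.mk I f • Ideal.Quotient.mk I (D (σ (Ideal.Quotient.mk I g))) +
      Ideal.Quotient.mk I g • Ideal.Quotient.mk I (D (σ (Ideal.Quotient.mk I f)))
    rw [← map_mul, key, key, key, Derivation.leibniz, map_add, smul_eq_mul, smul_eq_mul,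
      smul_eq_mul, smul_eq_mul, map_mul, map_mul]

/-- The pull back of a valuation along an injective homomorphism. -/
private def sqComap {k R S : Type*} [Field k] [CommRing R] [Algebra k R] [CommRing S] [Algebra k S]
    (v : RVal k R) (φ : S →ₐ[k] R) (hφ : Function.Injective φ) : RVal k S where
  toFun q := v (φ q)
  map_zero' := by rw [map_zero]; exact v.map_zero
  map_mul' f g hf hg := by
    rw [map_mul]
    exact v.map_mul (fun h => hf (hφ (by rw [h, map_zero]))) (fun h => hg (hφ (by rw [h, map_zero])))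
  map_add' f g hf hg hfg := by
    rw [map_add]
    refine v.map_add' _ _ (fun h => hf (hφ (by rw [h, map_zero])))
      (fun h => hg (hφ (by rw [h, map_zero]))) (fun h => hfg (hφ (by rw [map_add, h, map_zero])))
  map_const' c := by
    rw [φ.commutes]
    exact v.map_const c

private theorem sqComap_ge {k R S : Type*} [Field k] [CommRing R] [Algebra k R] [CommRing S]
    [Algebra k S] {v : RVal k R} {φ : S →ₐ[k] R} {hφ : Function.Injective φ} {n : ℤ} {q : S} :
    (sqComap v φ hφ).Ge n q ↔ v.Ge n (φ q) := by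
  have h : q = 0 ↔ φ q = 0 := by
    constructor
    · rintro rfl
      exact map_zero φ
    · intro h
      exact hφ (by rw [h, map_zero])
  unfold RVal.Ge
  rw [h]
  rfl

theorem exists_quot {k R J : Type*} [Field k] [CharZero k] [CommRing R] [IsDomain R]
    [Algebra k R] {W : AddSubgroup (J → ℤ)} {m : ℕ} (F : Fam k R (m + 1) W) {v : J → RVal k R}
    (hF : Mono F v) (a₀ : Fin (m + 1)) (ℓ : R) (h1 : F.δ a₀ ℓ = 1)
    (hc : ∀ a, ∃ c : k, F.δ a ℓ = algebraMap k R c) (hω : ∀ a, F.ω a ≠ F.ω a₀ → F.δ a ℓ = 0)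
    (hgt : ∀ a, a₀ < a → F.δ a ℓ = 0) (hℓ : ∀ i, (v i).Ge ((F.ω a₀ : J → ℤ) i) ℓ) :
    IsDomain (R ⧸ Ideal.span {ℓ}) ∧
      ∃ (F₁ : Fam k (R ⧸ Ideal.span {ℓ}) m W) (v₁ : J → RVal k (R ⧸ Ideal.span {ℓ})),
        Mono F₁ v₁ ∧ ∀ i f, v₁ i (Ideal.Quotient.mk (Ideal.span {ℓ}) f) =
          v i (expAt (F.δ a₀) (F.nil a₀) (-ℓ) f) := by
  classical
  -- the retraction
  set D₀ := F.δ a₀ with hD₀
  set π : R →ₐ[k] R := expAt D₀ (F.nil a₀) (-ℓ) with hπ
  set I : Ideal R := Ideal.span {ℓ} with hI
  have hker : ∀ f, π f = 0 ↔ f ∈ I := fun f => expAt_eq_zero_iff h1 f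
  have hprime : I.IsPrime := by
    have e : I = RingHom.ker (π : R →+* R) := by
      ext f
      rw [RingHom.mem_ker]
      exact (hker f).symm
    rw [e]
    exact RingHom.ker_isPrime _
  have hdom : IsDomain (R ⧸ I) := (Ideal.Quotient.isDomain_iff_prime I).2 hprime
  refine ⟨hdom, ?_⟩
  have hinj : Function.Injective (algebraMap k R) := (algebraMap k R).injective
  -- the constants
  choose c hcc using hc
  have hc₀ : c a₀ = 1 := by
    apply hinj
    rw [← hcc, map_one]
    exact h1
  have hcω : ∀ a, c a ≠ 0 → F.ω a = F.ω a₀ := by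
    intro a ha
    by_contra hh
    apply ha
    apply hinj
    rw [← hcc, hω a hh, map_zero]
  have hcgt : ∀ a, c a ≠ 0 → a ≤ a₀ := by
    intro a ha
    by_contra hh
    push Not at hh
    apply ha
    apply hinj
    rw [← hcc, hgt a hh, map_zero]
  -- the corrected derivations
  set δ' : Fin (m + 1) → Derivation k R R := fun a => F.δ a - c a • D₀ with hδ'
  have hδ'ℓ : ∀ a, δ' a ℓ = 0 := by
    intro a
    have : δ' a ℓ = F.δ a ℓ - c a • D₀ ℓ := rfl
    rw [this, hcc, h1, Algebra.smul_def, mul_one, sub_self]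
  have hδ'₀ : δ' a₀ = 0 := by
    have : δ' a₀ = D₀ - c a₀ • D₀ := rfl
    rw [this, hc₀, one_smul, sub_self]
  have hδ'I : ∀ a, ∀ f ∈ I, δ' a f ∈ I := by
    intro a f hf
    obtain ⟨g, rfl⟩ := Ideal.mem_span_singleton'.1 hf
    rw [Derivation.leibniz, hδ'ℓ, smul_zero, zero_add, smul_eq_mul]
    exact I.mul_mem_right _ (Ideal.subset_span rfl)
  choose Δ hΔ using fun a => sq_exists_der I (δ' a) (hδ'I a)
  have hsurj : Function.Surjective (Ideal.Quotient.mk I) := Ideal.Quotient.mk_surjective
  have hext : ∀ D E : Derivation k (R ⧸ I) (R ⧸ I),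
      (∀ f, D (Ideal.Quotient.mk I f) = E (Ideal.Quotient.mk I f)) → D = E := by
    intro D E h
    ext q
    obtain ⟨f, rfl⟩ := hsurj q
    exact h f
  -- spans
  have hspan1 : ∀ S : Set (Fin (m + 1)), ∀ X ∈ Submodule.span k (F.δ '' S),
      ∃ x : k, X ℓ = algebraMap k R x ∧ X - x • D₀ ∈ Submodule.span k (δ' '' S) := by
    intro S X hX
    induction hX using Submodule.span_induction with
    | mem X hX =>
      obtain ⟨b, hb, rfl⟩ := hX
      exact ⟨c b, hcc b, Submodule.subset_span ⟨b, hb, rfl⟩⟩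
    | zero =>
      refine ⟨0, ?_, ?_⟩
      · rw [map_zero]; rfl
      · rw [zero_smul, sub_zero]; exact Submodule.zero_mem _
    | add X Y _ _ hX hY =>
      obtain ⟨x, hx, hx'⟩ := hX
      obtain ⟨y, hy, hy'⟩ := hY
      refine ⟨x + y, ?_, ?_⟩
      · rw [map_add, ← hx, ← hy]; rfl
      · have e : X + Y - (x + y) • D₀ = (X - x • D₀) + (Y - y • D₀) := by
          rw [add_smul]; abel
        rw [e]
        exact Submodule.add_mem _ hx' hy'
    | smul t X _ hX =>
      obtain ⟨x, hx, hx'⟩ := hX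
      refine ⟨t * x, ?_, ?_⟩
      · rw [map_mul, ← hx, ← Algebra.smul_def]; rfl
      · have e : t • X - (t * x) • D₀ = t • (X - x • D₀) := by
          rw [smul_sub, mul_smul]
        rw [e]
        exact Submodule.smul_mem _ _ hx'
  have hspan2 : ∀ S : Set (Fin (m + 1)), ∀ X ∈ Submodule.span k (F.δ '' S), X ℓ = 0 →
      X ∈ Submodule.span k (δ' '' S) := by
    intro S X hX h0
    obtain ⟨x, hx, hx'⟩ := hspan1 S X hX
    have hx0 : x = 0 := by
      apply hinj
      rw [← hx, h0, map_zero]
    rwa [hx0, zero_smul, sub_zero] at hx'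
  have hspan3 : ∀ S : Set (Fin (m + 1)), ∀ X ∈ Submodule.span k (δ' '' S),
      ∃ E ∈ Submodule.span k ((fun b : Fin m => Δ (a₀.succAbove b)) ''
        {b | a₀.succAbove b ∈ S}), ∀ f, E (Ideal.Quotient.mk I f) = Ideal.Quotient.mk I (X f) := by
    intro S X hX
    induction hX using Submodule.span_induction with
    | mem X hX =>
      obtain ⟨b, hb, rfl⟩ := hX
      by_cases hb0 : b = a₀
      · refine ⟨0, Submodule.zero_mem _, fun f => ?_⟩
        rw [hb0, hδ'₀]
        change (0 : R ⧸ I) = Ideal.Quotient.mk I 0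
        rw [map_zero]
      · obtain ⟨b', hb'⟩ := Fin.exists_succAbove_eq hb0
        refine ⟨Δ b, Submodule.subset_span ⟨b', ?_, ?_⟩, fun f => hΔ b f⟩
        · change a₀.succAbove b' ∈ S
          rw [hb']; exact hb
        · change Δ (a₀.succAbove b') = Δ b
          rw [hb']
    | zero =>
      refine ⟨0, Submodule.zero_mem _, fun f => ?_⟩
      change (0 : R ⧸ I) = Ideal.Quotient.mk I 0
      rw [map_zero]
    | add X Y _ _ hX hY =>
      obtain ⟨E, hE, hE'⟩ := hX
      obtain ⟨G, hG, hG'⟩ := hY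
      refine ⟨E + G, Submodule.add_mem _ hE hG, fun f => ?_⟩
      change E (Ideal.Quotient.mk I f) + G (Ideal.Quotient.mk I f) =
        Ideal.Quotient.mk I (X f + Y f)
      rw [hE', hG', map_add]
    | smul t X _ hX =>
      obtain ⟨E, hE, hE'⟩ := hX
      refine ⟨t • E, Submodule.smul_mem _ _ hE, fun f => ?_⟩
      change t • E (Ideal.Quotient.mk I f) = Ideal.Quotient.mk I (t • X f)
      rw [hE']
      rfl
  -- the brackets of the corrected derivations
  have hbr : ∀ A B, ⁅δ' A, δ' B⁆ ∈ Submodule.span k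
      (δ' '' {x | A < x ∧ B < x ∧ F.ω x = F.ω A + F.ω B}) := by
    intro A B
    apply hspan2
    · have e : ⁅δ' A, δ' B⁆ = ⁅F.δ A, F.δ B⁆ - c B • ⁅F.δ A, D₀⁆ - c A • ⁅D₀, F.δ B⁆ := by
        change ⁅F.δ A - c A • D₀, F.δ B - c B • D₀⁆ = _
        ext f
        simp only [Derivation.commutator_apply, Derivation.sub_apply, Derivation.smul_apply,
          map_sub, Derivation.map_smul]
        module
      rw [e]
      refine Submodule.sub_mem _ (Submodule.sub_mem _ (F.malcev A B) ?_) ?_
      · by_cases hB : c B = 0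
        · rw [hB, zero_smul]; exact Submodule.zero_mem _
        · refine Submodule.smul_mem _ _ (Submodule.span_mono (Set.image_mono ?_) (F.malcev A a₀))
          rintro x ⟨hx1, hx2, hx3⟩
          exact ⟨hx1, lt_of_le_of_lt (hcgt B hB) hx2, by rw [hx3, hcω B hB]⟩
      · by_cases hA : c A = 0
        · rw [hA, zero_smul]; exact Submodule.zero_mem _
        · refine Submodule.smul_mem _ _ (Submodule.span_mono (Set.image_mono ?_) (F.malcev a₀ B))
          rintro x ⟨hx1, hx2, hx3⟩
          exact ⟨lt_of_le_of_lt (hcgt A hA) hx1, hx2, by rw [hx3, hcω A hA]⟩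
    · rw [Derivation.commutator_apply, hδ'ℓ, hδ'ℓ, map_zero, map_zero, sub_zero]
  -- local nilpotency
  have hnil' : ∀ a f, ∃ n : ℕ, (δ' a)^[n] f = 0 := by
    intro a f
    have hX : ((δ' a : R →ₗ[k] R) : Module.End k R) ∈ Submodule.span k
        (Set.range (fun b => ((F.δ b : R →ₗ[k] R) : Module.End k R))) := by
      have e : ((δ' a : R →ₗ[k] R) : Module.End k R) =
          (F.δ a : R →ₗ[k] R) - c a • (F.δ a₀ : R →ₗ[k] R) := rfl
      rw [e]
      exact Submodule.sub_mem _ (Submodule.subset_span ⟨a, rfl⟩)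
        (Submodule.smul_mem _ _ (Submodule.subset_span ⟨a₀, rfl⟩))
    obtain ⟨n, hn⟩ := span_nil F.isMalcev' (E := ⊤) (fun _ _ _ => Submodule.mem_top)
      (fun b g _ => by
        obtain ⟨n, hn⟩ := F.nil b g
        refine ⟨n, ?_⟩
        rw [Module.End.pow_apply]
        exact hn) hX (Submodule.mem_top (x := f))
    refine ⟨n, ?_⟩
    rw [Module.End.pow_apply] at hn
    exact hn
  have hiter : ∀ a (n : ℕ) f, (Δ a)^[n] (Ideal.Quotient.mk I f) =
      Ideal.Quotient.mk I ((δ' a)^[n] f) := by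
    intro a n
    induction n with
    | zero => intro f; rfl
    | succ n ih =>
      intro f
      rw [Function.iterate_succ_apply, Function.iterate_succ_apply, hΔ, ih]
  -- the family
  let F₁ : Fam k (R ⧸ I) m W :=
    { δ := fun b => Δ (a₀.succAbove b)
      ω := fun b => F.ω (a₀.succAbove b)
      malcev := by
        intro a b
        obtain ⟨E, hE, hE'⟩ := hspan3 _ _ (hbr (a₀.succAbove a) (a₀.succAbove b))
        have e : ⁅Δ (a₀.succAbove a), Δ (a₀.succAbove b)⁆ = E := by
          apply hext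
          intro f
          rw [hE', Derivation.commutator_apply, Derivation.commutator_apply, hΔ, hΔ, hΔ, hΔ,
            map_sub]
        rw [e]
        refine Submodule.span_mono (Set.image_mono ?_) hE
        rintro x ⟨hx1, hx2, hx3⟩
        exact ⟨(Fin.strictMono_succAbove a₀).lt_iff_lt.1 hx1,
          (Fin.strictMono_succAbove a₀).lt_iff_lt.1 hx2, hx3⟩
      nil := by
        intro b q
        obtain ⟨f, rfl⟩ := hsurj q
        obtain ⟨n, hn⟩ := hnil' (a₀.succAbove b) f
        exact ⟨n, by rw [hiter, hn, map_zero]⟩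
      ker := by
        intro q hq
        obtain ⟨f, rfl⟩ := hsurj q
        set g := π f with hg
        have hmk : Ideal.Quotient.mk I f = Ideal.Quotient.mk I g := by
          rw [Ideal.Quotient.eq]
          exact sub_expAt_mem h1 f
        have hg0 : D₀ g = 0 := der_expAt h1 f
        have hIa : ∀ a, F.δ a g ∈ I := by
          intro a
          have e : δ' a g = F.δ a g := by
            have : δ' a g = F.δ a g - c a • D₀ g := rfl
            rw [this, hg0, smul_zero, sub_zero]
          rw [← e]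
          by_cases ha : a = a₀
          · rw [ha, hδ'₀]
            exact I.zero_mem
          · obtain ⟨b, rfl⟩ := Fin.exists_succAbove_eq ha
            have h2 := hq b
            rw [hmk, hΔ] at h2
            exact Ideal.Quotient.eq_zero_iff_mem.1 h2
        have hall : ∀ a, F.δ a g = 0 := by
          intro a
          refine (wellFounded_gt (α := Fin (m + 1))).induction (C := fun a => F.δ a g = 0) a ?_
          intro a ih
          have hsp : ∀ X ∈ Submodule.span k
              (F.δ '' {x | a₀ < x ∧ a < x ∧ F.ω x = F.ω a₀ + F.ω a}), X g = 0 := by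
            intro X hX
            induction hX using Submodule.span_induction with
            | mem X hX =>
              obtain ⟨x, hx, rfl⟩ := hX
              exact ih x hx.2.1
            | zero => rfl
            | add X Y _ _ hX hY =>
              change X g + Y g = 0
              rw [hX, hY, add_zero]
            | smul t X _ hX =>
              change t • X g = 0
              rw [hX, smul_zero]
          have h3 := hsp _ (F.malcev a₀ a)
          rw [Derivation.commutator_apply] at h3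
          have h4 : D₀ (F.δ a g) = 0 := by
            rw [hg0, map_zero, sub_zero] at h3
            exact h3
          have h5 : π (F.δ a g) = F.δ a g := expAt_of_ker h1 h4
          rw [← h5]
          exact (hker _).2 (hIa a)
        obtain ⟨x, hx⟩ := F.ker g hall
        refine ⟨x, ?_⟩
        rw [hmk, hx]
        rfl }
  -- the valuations
  have hlift : ∀ f ∈ I, π f = 0 := fun f hf => (hker f).2 hf
  set πb : (R ⧸ I) →ₐ[k] R := Ideal.Quotient.liftₐ I π hlift with hπb
  have hπbmk : ∀ f, πb (Ideal.Quotient.mk I f) = π f := fun f => rfl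
  have hπbinj : Function.Injective πb := by
    rw [injective_iff_map_eq_zero]
    intro q hq
    obtain ⟨f, rfl⟩ := hsurj q
    rw [hπbmk] at hq
    exact Ideal.Quotient.eq_zero_iff_mem.2 ((hker f).1 hq)
  refine ⟨F₁, fun i => sqComap (v i) πb hπbinj, ?_, fun i f => rfl⟩
  intro i b n q hq
  rw [sqComap_ge] at hq ⊢
  obtain ⟨f, rfl⟩ := hsurj q
  set g := π f with hg
  have hmk : Ideal.Quotient.mk I f = Ideal.Quotient.mk I g := by
    rw [Ideal.Quotient.eq]
    exact sub_expAt_mem h1 f
  have hq' : (v i).Ge n g := hq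
  have e1 : πb (F₁.δ b (Ideal.Quotient.mk I f)) = π (δ' (a₀.succAbove b) g) := by
    rw [hmk]
    change πb (Δ (a₀.succAbove b) (Ideal.Quotient.mk I g)) = _
    rw [hΔ, hπbmk]
  rw [e1]
  have h6 : (v i).Ge (n - (F.ω (a₀.succAbove b) : J → ℤ) i) (δ' (a₀.succAbove b) g) := by
    have e2 : δ' (a₀.succAbove b) g = F.δ (a₀.succAbove b) g - c (a₀.succAbove b) • D₀ g := rfl
    rw [e2]
    refine (hF i _ n g hq').sub ?_
    by_cases hb : c (a₀.succAbove b) = 0
    · rw [hb, zero_smul]
      exact RVal.Ge.zero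
    · have h7 := hF i a₀ n g hq'
      rw [← hcω _ hb] at h7
      exact h7.smul _
  exact ge_expAt (fun n f => hF i a₀ n f) (hℓ i).neg h6

end Pool.Agent.Helper87.KS
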