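import Pool.Agent.Helper87.KS.Heart
import Pool.Agent.Helper87.KS.SQuot
import Pool.Agent.Helper87.KS.SEx
import Pool.Agent.Helper87.KS.FUp
import Pool.Agent.Helper87.KS.FLow
import Pool.Agent.Helper87.KS.FBase

set_option autoImplicit false

/-!
# Project KS, module KS-17: the growth theorem for the face

PROOF. Induction on `m`. If `NoConst v W` then `heart` and `cntb_base` (and `cntb_mono`, `2 T ≤ 2 (T + 1)`). Otherwise
`exists_slice` (so `m = m' + 1`), `exists_quot` gives `F₁, v₁` on `R₁ = R ⧸ span {ℓ}`, presented by `φ₁ = mk ∘ φ` (surjective).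
By `cntb_le_quot`, the induction hypothesis and `quot_le_cntb` (with `T' = C₁ (C (T + 1) + 1)`,
enlarged such that `T' ≥ T`)
`cntb b T ≤ C (T + 1) cntb₁ b (C (T + 1)) ≤ C (T + 1) r₁ cntb₁ 0 T' ≤ C r₁ (T' + 1) cntb₁ 0 T' ≤ C r₁ cntb 0 (C' (T' + 1))`. -/

namespace Pool.Agent.Helper87.KS

universe u

private theorem fg_noconst {k R J : Type*} [Field k] [IsAlgClosed k] [CharZero k] [CommRing R]
    [IsDomain R] [Algebra k R] [Finite J] {W : AddSubgroup (J → ℤ)} (hW : Pointed W) {n s : ℕ}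
    (w : (Fin s → ℤ) →+ W) {m : ℕ} (φ : MvPolynomial (Fin n) k →ₐ[k] R) (F : Fam k R m W)
    (v : J → RVal k R) (hF : Mono F v) (b : J → ℤ) (hNC : NoConst v W) :
    ∃ r C : ℕ, ∀ T : ℕ, cntb φ v w b T ≤ r * cntb φ v w 0 (C * (T + 1)) := by
  obtain ⟨r, hr⟩ := cntb_base φ v w b (heart hW hF hNC b)
  refine ⟨r, 2, fun T => (hr T).trans (Nat.mul_le_mul_left r (cntb_mono ?_))⟩
  omega

theorem fg {k J : Type*} [Field k] [IsAlgClosed k] [CharZero k] [Finite J]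
    {W : AddSubgroup (J → ℤ)} (hW : Pointed W) {n s : ℕ} (w : (Fin s → ℤ) →+ W)
    (hw : Function.Surjective w) (m : ℕ) : ∀ (R : Type u) [CommRing R] [IsDomain R] [Algebra k R]
    (φ : MvPolynomial (Fin n) k →ₐ[k] R) (_ : Function.Surjective φ) (F : Fam k R m W)
    (v : J → RVal k R) (_ : Mono F v) (b : J → ℤ),
      ∃ r C : ℕ, ∀ T : ℕ, cntb φ v w b T ≤ r * cntb φ v w 0 (C * (T + 1)) := by
  induction m with
  | zero =>
    intro R _ _ _ φ hφ F v hF b
    by_cases hNC : NoConst v W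
    · exact fg_noconst hW w φ F v hF b hNC
    · obtain ⟨a₀, -⟩ := exists_slice hW F hF hNC
      exact a₀.elim0
  | succ m ih =>
    intro R _ _ _ φ hφ F v hF b
    by_cases hNC : NoConst v W
    · exact fg_noconst hW w φ F v hF b hNC
    · obtain ⟨a₀, ℓ, h1, hc, hω, hgt, hℓ⟩ := exists_slice hW F hF hNC
      obtain ⟨hdom, F₁, v₁, hF₁, hv₁⟩ := exists_quot F hF a₀ ℓ h1 hc hω hgt hℓ
      have hsurj : Function.Surjective ((Ideal.Quotient.mkₐ k (Ideal.span {ℓ})).comp φ) := by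
        intro g
        obtain ⟨f, rfl⟩ := Ideal.Quotient.mk_surjective g
        obtain ⟨p, rfl⟩ := hφ f
        exact ⟨p, rfl⟩
      obtain ⟨C, hC⟩ := cntb_le_quot φ hφ v w hw (F.δ a₀) (F.nil a₀) (F.ω a₀)
        (fun i n f h => hF i a₀ n f h) ℓ h1 hℓ v₁ hv₁ b
      obtain ⟨C', hC'⟩ := quot_le_cntb φ hφ v w hw (F.δ a₀) (F.nil a₀) (F.ω a₀) ℓ h1 hℓ v₁ hv₁
      obtain ⟨r₁, C₁, hr₁⟩ := ih (R ⧸ Ideal.span {ℓ})
        ((Ideal.Quotient.mkₐ k (Ideal.span {ℓ})).comp φ) hsurj F₁ v₁ hF₁ b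
      refine ⟨C * r₁, C' * (C₁ * C + C₁ + 1), fun T => ?_⟩
      have e1 := hC T
      have e2 := hr₁ (C * (T + 1))
      have e3 : cntb ((Ideal.Quotient.mkₐ k (Ideal.span {ℓ})).comp φ) v₁ w 0
          (C₁ * (C * (T + 1) + 1)) ≤
          cntb ((Ideal.Quotient.mkₐ k (Ideal.span {ℓ})).comp φ) v₁ w 0
          (C₁ * (C * (T + 1) + 1) + T) := cntb_mono (Nat.le_add_right _ _)
      have e4 := hC' (C₁ * (C * (T + 1) + 1) + T)
      have e5 : cntb φ v w 0 (C' * (C₁ * (C * (T + 1) + 1) + T + 1)) ≤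
          cntb φ v w 0 (C' * (C₁ * C + C₁ + 1) * (T + 1)) := by
        apply cntb_mono
        rw [mul_assoc]
        apply Nat.mul_le_mul_left
        nlinarith [Nat.zero_le (C₁ * T)]
      calc cntb φ v w b T ≤ C * (T + 1) *
            cntb ((Ideal.Quotient.mkₐ k (Ideal.span {ℓ})).comp φ) v₁ w b (C * (T + 1)) := e1
        _ ≤ C * (T + 1) * (r₁ * cntb ((Ideal.Quotient.mkₐ k (Ideal.span {ℓ})).comp φ) v₁ w 0
            (C₁ * (C * (T + 1) + 1) + T)) :=
            Nat.mul_le_mul_left _ (e2.trans (Nat.mul_le_mul_left _ e3))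
        _ = C * r₁ * ((T + 1) * cntb ((Ideal.Quotient.mkₐ k (Ideal.span {ℓ})).comp φ) v₁ w 0
            (C₁ * (C * (T + 1) + 1) + T)) := by ring
        _ ≤ C * r₁ * ((C₁ * (C * (T + 1) + 1) + T + 1) *
            cntb ((Ideal.Quotient.mkₐ k (Ideal.span {ℓ})).comp φ) v₁ w 0
            (C₁ * (C * (T + 1) + 1) + T)) := by
            apply Nat.mul_le_mul_left
            apply Nat.mul_le_mul_right
            omega
        _ ≤ C * r₁ * cntb φ v w 0 (C' * (C₁ * C + C₁ + 1) * (T + 1)) :=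
            Nat.mul_le_mul_left _ (e4.trans e5)

end Pool.Agent.Helper87.KS
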