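import Pool.Agent.Helper87.KS.Defs

set_option autoImplicit false

/-!
# Project KS, module KS-13: the degree filtration of a finitely generated algebra

`Fil φ T` = image of the polynomials of total degree `≤ T` under `φ : k[X₁, ..., X_n] → R`.
It is spanned by the `φ (monomial)` of degree `≤ T` (`MvPolynomial.mem_restrictTotalDegree`,
`MvPolynomial.as_sum`, `le_totalDegree`).

PROOF. `fil_finite`: `restrictTotalDegree` is finite dimensional (finitely many monomials).
`exists_hom_fil`: take `C` with `ψ (φ X_j) ∈ Fil φ C` for all `j` (`exists_mem_fil`, maximum); products.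
`der_pow_mul`: if `δ^[a] f = 0` and `δ^[b] g = 0` then `δ^[a + b] (f g) = 0` (Leibniz formula
`δ^[n] (f g) = ∑ choose n i δ^[i] f δ^[n - i] g`).
`exists_nil_fil`: `N` with `δ^[N] (φ X_j) = 0` for all `j`; then `δ^[N d + 1]` kills the monomials of degree `d`;
`C = N + 1`.
`exists_der_fil`: all the `δ^[i] (φ X_j)` (only finitely many are not zero) are in `Fil φ C`; by Leibniz and
induction on the degree `δ^[i]` of a monomial of degree `d` is in `Fil φ (C d)`. -/

namespace Pool.Agent.Helper87.KS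

variable {k R : Type*} [Field k] [CommRing R] [Algebra k R] {n : ℕ}
  {φ : MvPolynomial (Fin n) k →ₐ[k] R}

theorem mem_fil {T : ℕ} {f : R} :
    f ∈ Fil φ T ↔ ∃ p : MvPolynomial (Fin n) k, p.totalDegree ≤ T ∧ φ p = f := by
  unfold Fil
  simp only [Submodule.mem_map, MvPolynomial.mem_restrictTotalDegree]
  rfl

theorem fil_finite (φ : MvPolynomial (Fin n) k →ₐ[k] R) (T : ℕ) : FiniteDimensional k (Fil φ T) := by
  unfold Fil
  infer_instance

theorem fil_mono {T T' : ℕ} (h : T ≤ T') : Fil φ T ≤ Fil φ T' := by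
  intro f hf
  obtain ⟨p, hp, rfl⟩ := mem_fil.1 hf
  exact mem_fil.2 ⟨p, hp.trans h, rfl⟩

theorem one_mem_fil (T : ℕ) : (1 : R) ∈ Fil φ T := by
  refine mem_fil.2 ⟨1, ?_, map_one φ⟩
  rw [MvPolynomial.totalDegree_one]
  exact Nat.zero_le _

theorem mul_mem_fil {a b : ℕ} {f g : R} (hf : f ∈ Fil φ a) (hg : g ∈ Fil φ b) :
    f * g ∈ Fil φ (a + b) := by
  obtain ⟨p, hp, rfl⟩ := mem_fil.1 hf
  obtain ⟨q, hq, rfl⟩ := mem_fil.1 hg
  exact mem_fil.2 ⟨p * q, (MvPolynomial.totalDegree_mul p q).trans (add_le_add hp hq),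
    map_mul φ p q⟩

theorem pow_mem_fil {a : ℕ} {f : R} (hf : f ∈ Fil φ a) (j : ℕ) : f ^ j ∈ Fil φ (j * a) := by
  obtain ⟨p, hp, rfl⟩ := mem_fil.1 hf
  exact mem_fil.2 ⟨p ^ j, (MvPolynomial.totalDegree_pow p j).trans (Nat.mul_le_mul_left j hp),
    map_pow φ p j⟩

theorem exists_mem_fil (hφ : Function.Surjective φ) (f : R) : ∃ T, f ∈ Fil φ T := by
  obtain ⟨p, rfl⟩ := hφ f
  exact ⟨p.totalDegree, mem_fil.2 ⟨p, le_rfl, rfl⟩⟩

private lemma ks13_aeval_eq (g : Fin n → R) (p : MvPolynomial (Fin n) k) :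
    MvPolynomial.aeval g p =
      ∑ d ∈ p.support, p.coeff d • ∏ i, g i ^ d i := by
  rw [MvPolynomial.aeval_def, MvPolynomial.eval₂_eq']
  exact Finset.sum_congr rfl fun d _ => (Algebra.smul_def _ _).symm

private lemma ks13_deg {p : MvPolynomial (Fin n) k} {d : Fin n →₀ ℕ} (hd : d ∈ p.support) :
    ∑ i, d i ≤ p.totalDegree := by
  have h := MvPolynomial.le_totalDegree hd
  rwa [Finsupp.sum_fintype _ _ (fun _ => rfl)] at h

private lemma ks13_prod (g : Fin n → R) {C : ℕ} (hg : ∀ i, g i ∈ Fil φ C) (d : Fin n →₀ ℕ)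
    (s : Finset (Fin n)) : ∏ i ∈ s, g i ^ d i ∈ Fil φ (C * ∑ i ∈ s, d i) := by
  classical
  induction s using Finset.induction_on with
  | empty =>
    rw [Finset.prod_empty]
    exact one_mem_fil _
  | insert a s ha ih =>
    rw [Finset.prod_insert ha, Finset.sum_insert ha, mul_add, mul_comm C (d a)]
    exact mul_mem_fil (pow_mem_fil (hg a) (d a)) ih

private lemma ks13_phi (p : MvPolynomial (Fin n) k) :
    φ p = ∑ d ∈ p.support, p.coeff d • ∏ i, (φ (MvPolynomial.X i)) ^ d i := by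
  rw [← ks13_aeval_eq]
  exact congrArg (fun ψ : MvPolynomial (Fin n) k →ₐ[k] R => ψ p) (MvPolynomial.aeval_unique φ)

theorem exists_hom_fil (hφ : Function.Surjective φ) (ψ : R →ₐ[k] R) :
    ∃ C : ℕ, ∀ T, ∀ f ∈ Fil φ T, ψ f ∈ Fil φ (C * T) := by
  choose c hc using fun j : Fin n => exists_mem_fil hφ (ψ (φ (MvPolynomial.X j)))
  refine ⟨Finset.univ.sup c, fun T f hf => ?_⟩
  obtain ⟨p, hp, rfl⟩ := mem_fil.1 hf
  have h1 : ψ (φ p) = ∑ d ∈ p.support, p.coeff d •
      ∏ i, (ψ (φ (MvPolynomial.X i))) ^ d i := by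
    rw [ks13_phi p, map_sum]
    refine Finset.sum_congr rfl fun d _ => ?_
    rw [map_smul, map_prod]
    congr 1
    exact Finset.prod_congr rfl fun i _ => map_pow ψ _ _
  rw [h1]
  refine Submodule.sum_mem _ fun d hd => Submodule.smul_mem _ _ ?_
  refine fil_mono ?_ (ks13_prod (φ := φ) (fun i => ψ (φ (MvPolynomial.X i)))
    (C := Finset.univ.sup c) (fun i => fil_mono (Finset.le_sup (Finset.mem_univ i)) (hc i)) d
    Finset.univ)
  exact Nat.mul_le_mul_left _ ((ks13_deg hd).trans hp)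

theorem der_pow_mul (δ : Derivation k R R) {a b : ℕ} {f g : R} (hf : (δ)^[a] f = 0)
    (hg : (δ)^[b] g = 0) : (δ)^[a + b] (f * g) = 0 := by
  have key : ∀ s : ℕ, ∀ (a b : ℕ) (f g : R), a + b = s → (δ)^[a] f = 0 → (δ)^[b] g = 0 →
      (δ)^[a + b] (f * g) = 0 := by
    intro s
    induction s with
    | zero =>
      intro a b f g hab hf hg
      obtain rfl : a = 0 := by omega
      rw [Function.iterate_zero_apply] at hf
      rw [hf, zero_mul, iterate_map_zero]
    | succ s ih =>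
      intro a b f g hab hf hg
      rcases Nat.eq_zero_or_pos a with rfl | ha
      · rw [Function.iterate_zero_apply] at hf
        rw [hf, zero_mul, iterate_map_zero]
      rcases Nat.eq_zero_or_pos b with rfl | hb
      · rw [Function.iterate_zero_apply] at hg
        rw [hg, mul_zero, iterate_map_zero]
      obtain ⟨a, rfl⟩ : ∃ a', a = a' + 1 := ⟨a - 1, by omega⟩
      obtain ⟨b, rfl⟩ : ∃ b', b = b' + 1 := ⟨b - 1, by omega⟩
      have e1 : a + 1 + (b + 1) = (a + 1 + b) + 1 := by ring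
      rw [e1, Function.iterate_succ_apply, Derivation.leibniz, smul_eq_mul, smul_eq_mul,
        iterate_map_add]
      rw [Function.iterate_succ_apply] at hg
      have h1 := ih (a + 1) b f (δ g) (by omega) hf hg
      rw [Function.iterate_succ_apply] at hf
      have hg' : (δ)^[b + 1] g = 0 := by
        rw [Function.iterate_succ_apply]; exact hg
      have h2 := ih (b + 1) a g (δ f) (by omega) hg' hf
      have e2 : b + 1 + a = a + 1 + b := by ring
      rw [e2] at h2
      rw [h1, h2, add_zero]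
  exact key (a + b) a b f g rfl hf hg

private lemma ks13_iter_ge {δ : Derivation k R R} {a b : ℕ} (h : a ≤ b) {f : R}
    (hf : (δ)^[a] f = 0) : (δ)^[b] f = 0 := by
  obtain ⟨c, rfl⟩ : ∃ c, b = c + a := ⟨b - a, by omega⟩
  rw [Function.iterate_add_apply, hf, iterate_map_zero]

private lemma ks13_pow_nil (δ : Derivation k R R) {N : ℕ} {g : R} (hg : (δ)^[N] g = 0) (j s : ℕ)
    {f : R} (hf : (δ)^[s] f = 0) : (δ)^[N * j + s] (g ^ j * f) = 0 := by
  induction j with
  | zero => simpa using hf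
  | succ j ih =>
    have h := der_pow_mul δ hg ih
    have e1 : N + (N * j + s) = N * (j + 1) + s := by ring
    have e2 : g * (g ^ j * f) = g ^ (j + 1) * f := by ring
    rwa [e1, e2] at h

private lemma ks13_prod_nil (δ : Derivation k R R) (g : Fin n → R) {N : ℕ}
    (hg : ∀ i, (δ)^[N] (g i) = 0) (d : Fin n →₀ ℕ) (s : Finset (Fin n)) :
    (δ)^[N * (∑ i ∈ s, d i) + 1] (∏ i ∈ s, g i ^ d i) = 0 := by
  classical
  induction s using Finset.induction_on with
  | empty =>
    rw [Finset.sum_empty, Finset.prod_empty, mul_zero, zero_add, Function.iterate_one]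
    exact δ.map_one_eq_zero
  | insert a s ha ih =>
    rw [Finset.prod_insert ha, Finset.sum_insert ha, mul_add, add_assoc]
    exact ks13_pow_nil δ (hg a) (d a) _ ih

theorem exists_nil_fil (δ : Derivation k R R)
    (hnil : ∀ f, ∃ n : ℕ, (δ)^[n] f = 0) : ∃ C : ℕ, ∀ T, ∀ f ∈ Fil φ T, (δ)^[C * (T + 1)] f = 0 := by
  choose c hc using fun j : Fin n => hnil (φ (MvPolynomial.X j))
  refine ⟨Finset.univ.sup c + 1, fun T f hf => ?_⟩
  obtain ⟨p, hp, rfl⟩ := mem_fil.1 hf
  have hlin : ∀ m : ℕ, ∀ x : R, (δ)^[m] x = ((δ : R →ₗ[k] R) ^ m) x := by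
    intro m x
    rw [Module.End.pow_apply]
    rfl
  rw [ks13_phi p, hlin, map_sum]
  refine Finset.sum_eq_zero fun d hd => ?_
  rw [map_smul, ← hlin]
  have h1 := ks13_prod_nil δ (fun i => φ (MvPolynomial.X i)) (N := Finset.univ.sup c)
    (fun i => ks13_iter_ge (Finset.le_sup (Finset.mem_univ i)) (hc i)) d Finset.univ
  have h2 : Finset.univ.sup c * (∑ i, d i) + 1 ≤ (Finset.univ.sup c + 1) * (T + 1) := by
    have h3 : ∑ i, d i ≤ T := (ks13_deg hd).trans hp
    nlinarith [Nat.mul_le_mul_left (Finset.univ.sup c) h3]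
  rw [ks13_iter_ge h2 h1, smul_zero]

private lemma ks13_der_mul (δ : Derivation k R R) {a b : ℕ} : ∀ (i : ℕ) (f g : R),
    (∀ j, (δ)^[j] f ∈ Fil φ a) → (∀ j, (δ)^[j] g ∈ Fil φ b) →
      (δ)^[i] (f * g) ∈ Fil φ (a + b) := by
  intro i
  induction i with
  | zero =>
    intro f g hf hg
    exact mul_mem_fil (hf 0) (hg 0)
  | succ i ih =>
    intro f g hf hg
    rw [Function.iterate_succ_apply, Derivation.leibniz, smul_eq_mul, smul_eq_mul,
      iterate_map_add]
    have hf' : ∀ j, (δ)^[j] (δ f) ∈ Fil φ a := fun j => by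
      rw [← Function.iterate_succ_apply]; exact hf (j + 1)
    have hg' : ∀ j, (δ)^[j] (δ g) ∈ Fil φ b := fun j => by
      rw [← Function.iterate_succ_apply]; exact hg (j + 1)
    refine Submodule.add_mem _ (ih f (δ g) hf hg') ?_
    rw [mul_comm]
    exact ih (δ f) g hf' hg

private lemma ks13_der_one (δ : Derivation k R R) (a : ℕ) (j : ℕ) :
    (δ)^[j] (1 : R) ∈ Fil φ a := by
  cases j with
  | zero => exact one_mem_fil _
  | succ j =>
    rw [Function.iterate_succ_apply, δ.map_one_eq_zero, iterate_map_zero]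
    exact Submodule.zero_mem _

private lemma ks13_der_pow (δ : Derivation k R R) {a : ℕ} {g : R}
    (hg : ∀ j, (δ)^[j] g ∈ Fil φ a) (e : ℕ) : ∀ j, (δ)^[j] (g ^ e) ∈ Fil φ (a * e) := by
  induction e with
  | zero =>
    intro j
    rw [pow_zero]
    exact ks13_der_one δ _ j
  | succ e ih =>
    intro j
    rw [pow_succ, mul_add, mul_one]
    exact ks13_der_mul δ j _ _ ih hg

private lemma ks13_der_prod (δ : Derivation k R R) (g : Fin n → R) {C : ℕ}
    (hg : ∀ i, ∀ j, (δ)^[j] (g i) ∈ Fil φ C) (d : Fin n →₀ ℕ) (s : Finset (Fin n)) :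
    ∀ j, (δ)^[j] (∏ i ∈ s, g i ^ d i) ∈ Fil φ (C * ∑ i ∈ s, d i) := by
  classical
  induction s using Finset.induction_on with
  | empty =>
    intro j
    rw [Finset.prod_empty]
    exact ks13_der_one δ _ j
  | insert a s ha ih =>
    intro j
    rw [Finset.prod_insert ha, Finset.sum_insert ha, mul_add]
    exact ks13_der_mul δ j _ _ (ks13_der_pow δ (hg a) (d a)) ih

theorem exists_der_fil (hφ : Function.Surjective φ) (δ : Derivation k R R)
    (hnil : ∀ f, ∃ n : ℕ, (δ)^[n] f = 0) :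
    ∃ C : ℕ, ∀ T, ∀ f ∈ Fil φ T, ∀ j : ℕ, (δ)^[j] f ∈ Fil φ (C * T) := by
  have h0 : ∀ i : Fin n, ∃ c : ℕ, ∀ j, (δ)^[j] (φ (MvPolynomial.X i)) ∈ Fil φ c := by
    intro i
    obtain ⟨N, hN⟩ := hnil (φ (MvPolynomial.X i))
    choose c hc using fun j : ℕ => exists_mem_fil hφ ((δ)^[j] (φ (MvPolynomial.X i)))
    refine ⟨(Finset.range N).sup c, fun j => ?_⟩
    rcases lt_or_ge j N with hj | hj
    · exact fil_mono (Finset.le_sup (Finset.mem_range.2 hj)) (hc j)
    · rw [ks13_iter_ge hj hN]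
      exact Submodule.zero_mem _
  choose c hc using h0
  refine ⟨Finset.univ.sup c, fun T f hf j => ?_⟩
  obtain ⟨p, hp, rfl⟩ := mem_fil.1 hf
  have hlin : ∀ m : ℕ, ∀ x : R, (δ)^[m] x = ((δ : R →ₗ[k] R) ^ m) x := by
    intro m x
    rw [Module.End.pow_apply]
    rfl
  rw [ks13_phi p, hlin, map_sum]
  refine Submodule.sum_mem _ fun d hd => ?_
  rw [map_smul, ← hlin]
  refine Submodule.smul_mem _ _ (fil_mono ?_ (ks13_der_prod (φ := φ) δ
    (fun i => φ (MvPolynomial.X i)) (C := Finset.univ.sup c)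
    (fun i j => fil_mono (Finset.le_sup (Finset.mem_univ i)) (hc i j)) d Finset.univ j))
  exact Nat.mul_le_mul_left _ ((ks13_deg hd).trans hp)

theorem fil_quot (I : Ideal R) (T : ℕ) :
    Fil ((Ideal.Quotient.mkₐ k I).comp φ) T = (Fil φ T).map (Ideal.Quotient.mkₐ k I).toLinearMap := by
  unfold Fil
  rw [← Submodule.map_comp]
  rfl

theorem fil_quot_mem {I : Ideal R} {T : ℕ} {f : R} (hf : f ∈ Fil φ T) :
    Ideal.Quotient.mk I f ∈ Fil ((Ideal.Quotient.mkₐ k I).comp φ) T := by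
  rw [fil_quot]
  exact ⟨f, hf, rfl⟩

theorem exists_of_fil_quot {I : Ideal R} {T : ℕ} {g : R ⧸ I}
    (hg : g ∈ Fil ((Ideal.Quotient.mkₐ k I).comp φ) T) : ∃ f ∈ Fil φ T, Ideal.Quotient.mk I f = g := by
  rw [fil_quot] at hg
  obtain ⟨f, hf, rfl⟩ := hg
  exact ⟨f, hf, rfl⟩

theorem mem_box {s T : ℕ} {μ : Fin s → ℤ} : μ ∈ box s T ↔ ∀ j, |μ j| ≤ T := by
  unfold box
  rw [Fintype.mem_piFinset]
  refine forall_congr' fun j => ?_
  rw [Finset.mem_Icc, abs_le]

theorem box_mono {s T T' : ℕ} (h : T ≤ T') : box s T ⊆ box s T' := by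
  intro μ hμ
  rw [mem_box] at hμ ⊢
  intro j
  refine (hμ j).trans ?_
  exact_mod_cast h

theorem cntb_mono {J : Type*} {s : ℕ} {W : AddSubgroup (J → ℤ)} {v : J → RVal k R}
    {w : (Fin s → ℤ) →+ W} {b : J → ℤ} {T T' : ℕ} (h : T ≤ T') :
    cntb φ v w b T ≤ cntb φ v w b T' := by
  unfold cntb
  refine (Finset.sum_le_sum fun μ _ => ?_).trans
    (Finset.sum_le_sum_of_subset (box_mono h))
  have hfin := fil_finite φ T'
  have : FiniteDimensional k (Eb v b (w μ : J → ℤ) ⊓ Fil φ T' : Submodule k R) :=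
    Submodule.finiteDimensional_of_le (inf_le_right : _ ≤ Fil φ T')
  exact Submodule.finrank_mono (inf_le_inf le_rfl (fil_mono h))

end Pool.Agent.Helper87.KS
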