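import Pool.Agent.Helper87.KS.Sec
import Pool.Agent.Helper87.KS.FG
import Pool.Agent.Helper87.KS.Dick

set_option autoImplicit false

/-!
# Project KS, module KS-20: growth of the sections

PROOF. If for some `A` there are arbitrarily large `n` with `B.sec (n • M + A) ≠ ⊥` then `exists_monomial` gives
`μ` with `-(n M_i + A_i) ≤ ip (w i) μ`: the hypothesis of `exists_face` (for `B.wH univ` or the same homomorphism to `H → ℤ`).
It gives `n₀ ≥ 1`, `μ₀`, `M'_i = n₀ M_i + ip (w i) μ₀ ≥ 0`; `Z = {i | M'_i = 0}`; the range `W` of `B.wH Z` is pointed; so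
`fg` applies to `B.F.map (B.wH Z).rangeRestrict`, the `B.v i` (`i ∈ Z`), `φ = id` (`Mono` is `B.mono`): for all `b` there are `r₀`, `C₀`
with `B.cnt Z b T ≤ r₀ * B.cnt Z 0 (C₀ (T + 1))`.
Now let `A` be arbitrary, `b_i = n₀ |M_i| + |A_i|`, `q = n₀ q' + q''`, `q'' < n₀`. By `sdim_shift` with `μ = q' • μ₀`,
`sdim (sec (q • M + A)) = sdim (sec G)`, `G_i = q' M'_i + q'' M_i + A_i ≤ b_i` on `Z` and `G_i ≤ T = (q + 1) D`,
`D = ∑ (M'_i + b_i)`. By `sdim_le_cnt` it is `≤ cnt b (C_B (T + 1)) ≤ r₀ cnt 0 (C₀ (C_B (T + 1) + 1)) ≤ r₀ cnt 0 T₂`,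
`T₂ = D' (q + 1)`, `D' = C₀ (C_B (D + 1) + 1) + 1` (`cntb_mono`). With `C_L ≥ 1` of `exists_cnt_le_sdim` (enlarged) and
`n = C_L T₂`: `G' = n M'` is zero on `Z` and `≥ C_L T₂` elsewhere, so `cnt 0 T₂ ≤ sdim (sec (n M')) = sdim (sec ((n n₀) • M))`
(`sdim_shift`, `μ = n • μ₀`), and `n n₀ = (C_L D' n₀) (q + 1)`. -/

namespace Pool.Agent.Helper87.KS

open Pool.Agent.Helper92.Weak

private lemma ip_nsmul' {s : ℕ} (w : Fin s → ℤ) (n : ℕ) (u : Fin s → ℤ) :
    ip w (n • u) = n * ip w u := by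
  unfold ip
  rw [Finset.mul_sum]
  exact Finset.sum_congr rfl fun l _ => by rw [Pi.smul_apply, nsmul_eq_mul, mul_assoc]

/-- `μ ↦ (⟨w_i, μ⟩)_i` on all of `H`. -/
private def wU {k : Type*} [Field k] {r s : ℕ} {H : Type*} (B : SData k r s H) :
    (Fin s → ℤ) →+ (H → ℤ) where
  toFun μ i := ip (B.w i) μ
  map_zero' := by
    funext i
    simp
  map_add' μ μ' := by
    funext i
    exact ip_add _ _ _

theorem SData.growth {k : Type*} [Field k] [IsAlgClosed k] [CharZero k] {r s : ℕ} {H : Type*}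
    [Fintype H] (B : SData k r s H) (M : H → ℤ) :
    (∀ A : H → ℤ, ∃ n₁ : ℕ, ∀ n : ℕ, n₁ ≤ n → B.sec (n • M + A) = ⊥) ∨
    ∀ A : H → ℤ, ∃ K C : ℕ, 1 ≤ C ∧
      ∀ q : ℕ, sdim (B.sec (q • M + A)) ≤ K * sdim (B.sec ((C * (q + 1)) • M)) := by
  classical
  by_cases hyp : ∀ A : H → ℤ, ∃ n₁ : ℕ, ∀ n : ℕ, n₁ ≤ n → B.sec (n • M + A) = ⊥
  · exact Or.inl hyp
  right
  push Not at hyp
  obtain ⟨A₀, hA₀⟩ := hyp
  have hface : ∀ n₁ : ℕ, ∃ n : ℕ, n₁ ≤ n ∧ ∃ μ : Fin s → ℤ, ∀ i,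
      -(A₀ i) ≤ n * M i + wU B μ i := by
    intro n₁
    obtain ⟨n, hn, hne⟩ := hA₀ n₁
    obtain ⟨μ, hμ⟩ := B.exists_monomial hne
    refine ⟨n, hn, μ, fun i => ?_⟩
    have h1 := hμ i
    rw [Pi.add_apply, Pi.smul_apply, nsmul_eq_mul] at h1
    have h2 : wU B μ i = ip (B.w i) μ := rfl
    rw [h2]
    linarith
  obtain ⟨n₀, hn₀, μ₀, h0, hZ⟩ := exists_face (wU B) M A₀ hface
  have hwU : ∀ μ i, wU B μ i = ip (B.w i) μ := fun _ _ => rfl
  simp only [hwU] at h0 hZ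
  set M' : H → ℤ := fun i => n₀ * M i + ip (B.w i) μ₀ with hM'
  have hM'0 : ∀ i, 0 ≤ M' i := h0
  let Z : Set H := {i | M' i = 0}
  have hpt : Pointed (B.wH Z).range := by
    intro ω hω
    obtain ⟨ω, μ, rfl⟩ := ω
    apply Subtype.ext
    funext i
    have h1 := hZ μ (fun j hj => hω ⟨j, hj⟩) i i.2
    exact h1
  have hmono : Mono (B.F.map (B.wH Z).rangeRestrict) (fun i : Z => B.v i) := by
    intro i a n f hf
    exact B.mono i a n f hf
  intro A
  set b : H → ℤ := fun i => n₀ * |M i| + |A i| with hb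
  have hb0 : ∀ i, 0 ≤ b i := fun i => by positivity
  obtain ⟨r₀, C₀, hC₀⟩ := fg hpt (B.wH Z).rangeRestrict (B.wH Z).rangeRestrict_surjective B.m
    (MvPolynomial (Fin r) k) (AlgHom.id k _) Function.surjective_id (B.F.map (B.wH Z).rangeRestrict)
    (fun i : Z => B.v i) hmono (fun i => b i)
  obtain ⟨CL, hCL⟩ := B.exists_cnt_le_sdim Z
  set D : ℕ := ∑ i, (M' i + b i).toNat with hD
  have hDi : ∀ i, M' i + b i ≤ (D : ℤ) := by
    intro i
    have h1 : (M' i + b i).toNat ≤ D :=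
      Finset.single_le_sum (f := fun i => (M' i + b i).toNat) (fun i _ => Nat.zero_le _)
        (Finset.mem_univ i)
    have h2 := hM'0 i
    have h3 := hb0 i
    omega
  set D' : ℕ := C₀ * (B.C * (D + 1) + 1) + 1 with hD'
  refine ⟨r₀, (CL + 1) * D' * n₀, ?_, fun q => ?_⟩
  · have h1 : 1 ≤ D' := by omega
    have h2 : 1 ≤ CL + 1 := by omega
    exact Nat.mul_pos (Nat.mul_pos h2 h1) hn₀
  -- the shift
  set q1 : ℕ := q / n₀ with hq1
  set q2 : ℕ := q % n₀ with hq2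
  have hq : n₀ * q1 + q2 = q := Nat.div_add_mod q n₀
  have hq2lt : q2 < n₀ := Nat.mod_lt q hn₀
  have hq1le : q1 ≤ q := Nat.div_le_self q n₀
  have hqz : (n₀ : ℤ) * q1 + q2 = q := by exact_mod_cast hq
  set G : H → ℤ := fun i => q1 * M' i + q2 * M i + A i with hG
  have e1 : sdim (B.sec (q • M + A)) = sdim (B.sec G) := by
    rw [← B.sdim_shift G (-(q1 • μ₀))]
    congr 2
    funext i
    rw [Pi.add_apply, Pi.smul_apply, nsmul_eq_mul, ip_neg, ip_nsmul']
    simp only [hG, hM']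
    have : ((q : ℤ)) = (n₀ : ℤ) * q1 + q2 := hqz.symm
    push_cast
    rw [this]
    ring
  have hG1 : ∀ i, G i ≤ q1 * M' i + b i := by
    intro i
    have h1 : (q2 : ℤ) * M i ≤ n₀ * |M i| := by
      calc (q2 : ℤ) * M i ≤ q2 * |M i| :=
            mul_le_mul_of_nonneg_left (le_abs_self _) (by positivity)
        _ ≤ n₀ * |M i| := by
            apply mul_le_mul_of_nonneg_right _ (abs_nonneg _)
            exact_mod_cast hq2lt.le
    have h2 := le_abs_self (A i)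
    simp only [hG, hb]
    linarith
  have e2 : sdim (B.sec G) ≤ (B.cnt Z (fun i => b i) (B.C * ((q + 1) * D + 1)) : ℕ∞) := by
    apply B.sdim_le_cnt Z b G ((q + 1) * D)
    · intro i
      have h1 := hG1 i
      have h2 := hDi i
      have h3 := hM'0 i
      have h4 := hb0 i
      have h5 : (q1 : ℤ) ≤ q := by exact_mod_cast hq1le
      push_cast
      nlinarith [mul_nonneg (sub_nonneg.2 h5) h3, mul_nonneg (Int.natCast_nonneg q) h4,
        mul_nonneg (Int.natCast_nonneg q) (sub_nonneg.2 h2)]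
    · intro i hi
      have h1 := hG1 i
      have h2 : M' i = 0 := hi
      rw [h2, mul_zero, zero_add] at h1
      exact h1
  have e3 : B.cnt Z (fun i => b i) (B.C * ((q + 1) * D + 1)) ≤
      r₀ * B.cnt Z 0 (D' * (q + 1)) := by
    refine (hC₀ (B.C * ((q + 1) * D + 1))).trans (Nat.mul_le_mul_left r₀ (cntb_mono ?_))
    have h1 : B.C * ((q + 1) * D + 1) + 1 ≤ (q + 1) * (B.C * (D + 1) + 1) := by
      nlinarith [Nat.zero_le (B.C * q), Nat.zero_le q]
    calc C₀ * (B.C * ((q + 1) * D + 1) + 1) ≤ C₀ * ((q + 1) * (B.C * (D + 1) + 1)) :=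
          Nat.mul_le_mul_left _ h1
      _ = (C₀ * (B.C * (D + 1) + 1)) * (q + 1) := by ring
      _ ≤ D' * (q + 1) := Nat.mul_le_mul_right _ (by omega)
  -- the lower bound
  set n : ℕ := (CL + 1) * (D' * (q + 1)) with hn
  have e4 : (B.cnt Z 0 (D' * (q + 1)) : ℕ∞) ≤ sdim (B.sec fun i => (n : ℤ) * M' i) := by
    apply hCL
    · intro i _
      have := hM'0 i
      positivity
    · intro i hi
      have h1 : 1 ≤ M' i := by
        have h2 := hM'0 i
        have h3 : M' i ≠ 0 := hi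
        omega
      have h4 : (CL : ℤ) * (D' * (q + 1) : ℕ) ≤ n := by
        rw [hn]
        push_cast
        nlinarith [mul_nonneg (Int.natCast_nonneg D') (Int.natCast_nonneg (q + 1))]
      have h5 : (n : ℤ) * 1 ≤ n * M' i := mul_le_mul_of_nonneg_left h1 (by positivity)
      linarith
  have e5 : sdim (B.sec fun i => (n : ℤ) * M' i) =
      sdim (B.sec (((CL + 1) * D' * n₀ * (q + 1)) • M)) := by
    rw [← B.sdim_shift (((CL + 1) * D' * n₀ * (q + 1)) • M) (n • μ₀)]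
    congr 2
    funext i
    rw [Pi.smul_apply, nsmul_eq_mul, ip_nsmul']
    simp only [hM', hn]
    push_cast
    ring
  rw [e1]
  refine e2.trans ?_
  calc ((B.cnt Z (fun i => b i) (B.C * ((q + 1) * D + 1)) : ℕ) : ℕ∞) ≤
        ((r₀ * B.cnt Z 0 (D' * (q + 1)) : ℕ) : ℕ∞) := by exact_mod_cast e3
    _ = (r₀ : ℕ∞) * (B.cnt Z 0 (D' * (q + 1)) : ℕ∞) := by push_cast; rfl
    _ ≤ (r₀ : ℕ∞) * sdim (B.sec (((CL + 1) * D' * n₀ * (q + 1)) • M)) := by
        rw [← e5]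
        exact mul_le_mul_right e4 _

end Pool.Agent.Helper87.KS
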