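import Pool.Agent.Helper87.KS.HDefs
import Pool.Agent.Helper87.KS.Grad
import Pool.Agent.Helper87.KS.Comm

set_option autoImplicit false

/-! Module KS-05. Heart, step 1: the commutator.

PROOF: `gfin_iff`, and `finite_of_comm_ker` for the operators `F.op` (`Fam.isMalcev`, `Fam.op_nil`,
`gsub_stable`) on `gsub E`, with `K = gsub (fun ω => E ω ⊓ F.cker)`: if `f ∈ gsub E` is killed by all
`br (F.op a) (F.op b) = tilde (br (δ a) (δ b)) _` (`tilde_br`) then every component of `f` is killed by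
`⁅δ a, δ b⁆` (`tilde_apply` at `ω + (ω a + ω b)`). -/

namespace Pool.Agent.Helper87.KS

theorem gfin_of_comm {k R Γ : Type*} [Field k] [CharZero k] [CommRing R] [Algebra k R]
    [AddCommGroup Γ] {m : ℕ} (F : Fam k R m Γ) {E : Γ → Submodule k R}
    (hE : ∀ a ω, ∀ f ∈ E ω, F.δ a f ∈ E (ω + F.ω a)) (hfin : GFin fun ω => E ω ⊓ F.cker) :
    GFin E := by
  rw [gfin_iff] at hfin ⊢
  refine finite_of_comm_ker F.isMalcev (K := gsub fun ω => E ω ⊓ F.cker)
    (fun a => gsub_stable (hE a)) (fun a f _ => F.op_nil a f) ?_ hfin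
  intro f hf hab ω
  refine ⟨hf ω, fun a b => ?_⟩
  have h1 : br (F.op a) (F.op b) f = 0 := hab a b
  have h2 := DFunLike.congr_fun h1 (ω + (F.ω a + F.ω b))
  unfold Fam.op at h2
  rw [tilde_br, tilde_apply, add_sub_cancel_right] at h2
  exact h2

end Pool.Agent.Helper87.KS
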