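import Pool.Agent.Helper87.KS.Defs

set_option autoImplicit false

/-! Project KS: kernels. -/

namespace Pool.Agent.Helper87.KS

variable {k R Γ : Type*} [Field k] [CommRing R] [Algebra k R] [AddCommGroup Γ] {m : ℕ}

/-- The common kernel of the brackets. -/
def Fam.cker (F : Fam k R m Γ) : Submodule k R where
  carrier := {f | ∀ a b, ⁅F.δ a, F.δ b⁆ f = 0}
  zero_mem' a b := by simp
  add_mem' {f g} hf hg a b := by rw [map_add, hf a b, hg a b, add_zero]
  smul_mem' c f hf a b := by rw [Derivation.map_smul, hf a b, smul_zero]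

/-- The common kernel of the derivations of nonzero weight with an index in `s`. -/
def Fam.zker (F : Fam k R m Γ) (s : Finset (Fin m)) : Submodule k R where
  carrier := {f | ∀ a ∈ s, F.ω a ≠ 0 → F.δ a f = 0}
  zero_mem' a _ _ := by simp
  add_mem' {f g} hf hg a h h' := by rw [map_add, hf a h h', hg a h h', add_zero]
  smul_mem' c f hf a h h' := by rw [Derivation.map_smul, hf a h h', smul_zero]

lemma Fam.mem_cker {F : Fam k R m Γ} {f : R} : f ∈ F.cker ↔ ∀ a b, ⁅F.δ a, F.δ b⁆ f = 0 := Iff.rfl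

lemma Fam.mem_zker {F : Fam k R m Γ} {s : Finset (Fin m)} {f : R} :
    f ∈ F.zker s ↔ ∀ a ∈ s, F.ω a ≠ 0 → F.δ a f = 0 := Iff.rfl

lemma Fam.comm_of_cker {F : Fam k R m Γ} {f : R} (hf : f ∈ F.cker) (a b : Fin m) :
    F.δ a (F.δ b f) = F.δ b (F.δ a f) := by
  have h := hf a b
  rw [Derivation.commutator_apply, sub_eq_zero] at h
  exact h

/-- The bracket of a bracket and a `δ c` is a combination of brackets. -/
lemma Fam.cker_stable {F : Fam k R m Γ} {f : R} (hf : f ∈ F.cker) (c : Fin m) :
    F.δ c f ∈ F.cker := by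
  intro a b
  have h1 : ∀ D ∈ Submodule.span k (F.δ '' {d | a < d ∧ b < d ∧ F.ω d = F.ω a + F.ω b}),
      ⁅D, F.δ c⁆ f = 0 := by
    intro D hD
    induction hD using Submodule.span_induction with
    | mem D hD =>
      obtain ⟨d, _, rfl⟩ := hD
      exact hf d c
    | zero => rw [zero_lie, Derivation.zero_apply]
    | add D D' _ _ h h' => rw [add_lie, Derivation.add_apply, h, h', add_zero]
    | smul x D _ h => rw [smul_lie, Derivation.smul_apply, h, smul_zero]
  have h2 := h1 _ (F.malcev a b)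
  rw [Derivation.commutator_apply, sub_eq_zero] at h2
  rw [h2, hf a b, map_zero]

lemma Fam.zker_stable {F : Fam k R m Γ} {s : Finset (Fin m)} {f : R} (hf : f ∈ F.cker)
    (hf' : f ∈ F.zker s) (c : Fin m) : F.δ c f ∈ F.zker s := by
  intro a ha ha'
  rw [Fam.comm_of_cker hf, hf' a ha ha', map_zero]

end Pool.Agent.Helper87.KS
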