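import Pool.Agent.Helper87.KS.HDefs
import Pool.Agent.Helper30.SV.Step3

set_option autoImplicit false

/-! Module KS-07. Heart, step 3: a derivation of nonzero weight.

PROOF. Suppose `¬ GFin E`. `exists_eigen` for `D a = δ a` gives `α, γ₀, d, χ, n, Ψ`. All `δ a` kill
`Ψ 0`, so `Ψ 0 = c ∈ k`, `c ≠ 0` (`F.ker`); replace `Ψ` by `c⁻¹ Ψ`. Let `Ψ(z) = ∑ Ψ_r z ^ r` (`PowerSeries.mk`), a unit,
`λ(z) = z Ψ'(z) Ψ(z)⁻¹ ∈ R[[z]]`, `λ_0 = 0`. The coefficientwise extension of `δ a` to `R[[z]]` is a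
derivation, `δ a Ψ = χ a z ^ (n a) Ψ` (`= 0` if `n a = 0`), so `(δ a λ) Ψ + λ δ a Ψ = δ a (z Ψ') =
χ a (n a z ^ (n a) Ψ + z ^ (n a) z Ψ')`, so `δ a λ = n a χ a z ^ (n a)`: `δ a (λ_r) = n a χ a` for `r = n a ≥ 1` and `0`
otherwise. So `λ_r ∈ k` (`F.ker`) for `r ∉ {n a | a}`. Hence `λ = A + g`, `A = ∑_{r ∈ {n a}, r ≥ 1} λ_r z ^ r` and
`g ∈ k[[z]]`. `Ψ_r ∈ E (γ₀ - r α) ≤ Eb`: `v_i.Ge (r α_i - (b_i + γ₀_i)) (Ψ_r)`. There is `i` with `α_i > 0`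
(otherwise `-α ≥ 0` and `α = 0` by `hW`). `lemmaP` (`p i = α_i`) gives `c_d` with
`v_i.Ge (d α_i) (λ_d + c_d)` for all `i`; `d α_i = (ω p)_i`. So `f = λ_d + c_d ∈ Eb v 0 (-ω p)`,
`δ p f = d χ p = d ≠ 0`, so `f ≠ 0` and `hNC` gives `-ω p = 0`: contradiction. -/

namespace Pool.Agent.Helper87.KS

theorem gfin_step {k R J : Type*} [Field k] [IsAlgClosed k] [CharZero k] [CommRing R] [IsDomain R]
    [Algebra k R] [Finite J] {W : AddSubgroup (J → ℤ)} (hW : Pointed W) {m : ℕ} {F : Fam k R m W}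
    {v : J → RVal k R} (hNC : NoConst v W) {b : J → ℤ} {E : W → Submodule k R}
    (hEb : ∀ γ : W, E γ ≤ Eb v b (γ : J → ℤ)) (hE : ∀ a γ, ∀ f ∈ E γ, F.δ a f ∈ E (γ + F.ω a))
    (hcomm : ∀ a a' γ, ∀ f ∈ E γ, F.δ a (F.δ a' f) = F.δ a' (F.δ a f)) (p : Fin m)
    (hp : F.ω p ≠ 0)
    (hfin : GFin fun γ => E γ ⊓ LinearMap.ker ((F.δ p : R →ₗ[k] R))) : GFin E :=
  Pool.Agent.Helper30.SV.heart_step F hW hNC b E hEb hE hcomm p hp hfin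

end Pool.Agent.Helper87.KS
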