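import Pool.Agent.Helper87.KS.HDefs
import Pool.Agent.Helper87.KS.AB
import Pool.Agent.Helper87.KS.Dick
import Pool.Agent.Helper87.KS.Grad
import Pool.Agent.Helper93.KN.Heart

set_option autoImplicit false

/-! Module KS-08. Heart, step 2: the derivations of weight zero.

PROOF. Let `S` be the subalgebra `F.cker ⊓ F.zker univ` (kernels of derivations), stable under all `δ a`
(`Fam.cker_stable`, `Fam.zker_stable`), on which the `δ a` commute (`Fam.comm_of_cker`). `exists_poly`: `φ`.
(1) Every component is finite dimensional. `u i f = v i (φ f)` is a `PVal` on `MvPolynomial (Fin n) k`: for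
`j` one has `pderiv j f = ∑ e_a δ a (φ f)`, where only the `a` with `ω a = 0` contribute, so `Ge c` is
preserved by `pderiv j` (`hF`); `shift a f = ∑_α a^α/α! ∂^α f` (or one variable at a time, `f (x + a e_j) = ∑ a^i / i!
pderiv_j^i f`, see `tay` in `Helper93/KN/Deriv.lean`) so `Ge c f → Ge c (shift a f)`, and with `-a` equality of the values.
If `∑ c_j X_j` has `Ge 0` for all `i` then `φ` of it is in `Eb v 0 0`, so it is zero or constant by `hNC`, so
`c = 0`. `Helper93.KN.heart` with `a i = b i + γ i`: `filtAll` is finite dimensional and `φ` maps it onto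
`Eb v b γ ⊓ S`.
(2) Finitely many components: if `Eb v b γ ⊓ S ≠ ⊥` then `exists_soc` (`Fam.isMalcev'`, `E' = ⊥`; the component is stable:
`δ a` has weight `0` or kills it) gives `f ≠ 0` in it killed by all `δ a`: a constant, so `-b_i - γ_i ≤ 0`: `finite_ge`. -/

namespace Pool.Agent.Helper87.KS

open MvPolynomial
open Pool.Agent.Helper93.KN (shift tay)

/-! ### Taylor expansion -/

private theorem hz_deriv_tay {k σ : Type*} [Field k] [DecidableEq σ] (i : σ)
    (f : MvPolynomial σ k) :
    Polynomial.derivative (tay i f) = tay i (pderiv i f) := by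
  induction f using MvPolynomial.induction_on with
  | C a =>
    rw [Pool.Agent.Helper93.KN.tay_C, Polynomial.derivative_C, pderiv_C, map_zero]
  | add p q hp hq => rw [map_add, map_add, hp, hq, map_add, map_add]
  | mul_X p j hp =>
    have e1 : tay i (p * X j) = tay i p * tay i (X j) := map_mul (tay i) p (X j)
    have e2 : pderiv i (p * X j) = pderiv i p * X j + p * pderiv i (X j) := pderiv_mul
    have e3 : tay i (pderiv i p * X j + p * pderiv i (X j)) =
        tay i (pderiv i p) * tay i (X j) + tay i p * tay i (pderiv i (X j)) := by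
      rw [map_add (tay i)]
      rw [map_mul (tay i), map_mul (tay i)]
    have e4 : Polynomial.derivative (tay i (X j : MvPolynomial σ k)) =
        tay i (pderiv i (X j)) := by
      rw [Pool.Agent.Helper93.KN.tay_X]
      by_cases h : j = i
      · subst h
        rw [if_pos rfl, pderiv_X_self, Polynomial.derivative_add, Polynomial.derivative_C,
          Polynomial.derivative_X, zero_add]
        exact (map_one (tay j)).symm
      · rw [if_neg h, pderiv_X_of_ne h, add_zero, Polynomial.derivative_C]
        exact (map_zero (tay i)).symm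
    rw [e1, e2, e3, Polynomial.derivative_mul, hp, e4]

private theorem hz_coeff_mem {k σ : Type*} [Field k] [CharZero k] [DecidableEq σ]
    (G : Submodule k (MvPolynomial σ k)) (i : σ) (hG : ∀ f ∈ G, pderiv i f ∈ G) (l : ℕ) :
    ∀ f ∈ G, (tay i f).coeff l ∈ G := by
  induction l with
  | zero =>
    intro f hf
    rw [Pool.Agent.Helper93.KN.tay_coeff_zero]
    exact hf
  | succ l ih =>
    intro f hf
    have h1 := ih _ (hG f hf)
    rw [← hz_deriv_tay, Polynomial.coeff_derivative] at h1
    have h2 : ((l : k) + 1) ≠ 0 := by exact_mod_cast Nat.succ_ne_zero l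
    have h3 : (tay i f).coeff (l + 1) =
        ((l : k) + 1)⁻¹ • ((tay i f).coeff (l + 1) * ((l : MvPolynomial σ k) + 1)) := by
      have h4 : ((l : MvPolynomial σ k) + 1) = C ((l : k) + 1) := by simp
      rw [h4, mul_comm, ← smul_eq_C_mul, smul_smul, inv_mul_cancel₀ h2, one_smul]
    rw [h3]
    exact G.smul_mem _ h1

private theorem hz_single_mem {k σ : Type*} [Field k] [CharZero k] [DecidableEq σ]
    (G : Submodule k (MvPolynomial σ k)) (i : σ) (hG : ∀ f ∈ G, pderiv i f ∈ G) (c : k)
    (f : MvPolynomial σ k) (hf : f ∈ G) : shift (Pi.single i c) f ∈ G := by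
  rw [← Pool.Agent.Helper93.KN.eval_tay, Polynomial.eval_eq_sum_range]
  refine G.sum_mem fun l _ => ?_
  rw [← C_pow, mul_comm, ← smul_eq_C_mul]
  exact G.smul_mem _ (hz_coeff_mem G i hG l f hf)

private theorem hz_shift_mem {k σ : Type*} [Field k] [CharZero k] [Fintype σ] [DecidableEq σ]
    (G : Submodule k (MvPolynomial σ k)) (hG : ∀ i, ∀ f ∈ G, pderiv i f ∈ G) (a : σ → k)
    (f : MvPolynomial σ k) (hf : f ∈ G) : shift a f ∈ G := by
  have key : ∀ s : Finset σ, shift (∑ i ∈ s, Pi.single i (a i)) f ∈ G := by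
    intro s
    induction s using Finset.induction_on with
    | empty => rw [Finset.sum_empty, Pool.Agent.Helper93.KN.shift_zero]; exact hf
    | insert j s hj ih =>
      rw [Finset.sum_insert hj, ← Pool.Agent.Helper93.KN.shift_shift]
      exact hz_single_mem G j (hG j) _ _ ih
  have h := key Finset.univ
  rwa [Finset.univ_sum_single] at h

/-! ### The subalgebra -/

/-- The subalgebra `cker ⊓ zker univ`. -/
private def hzS {k R : Type*} [Field k] [CommRing R] [Algebra k R] {m : ℕ} {Γ : Type*}
    [AddCommGroup Γ] (F : Fam k R m Γ) : Subalgebra k R where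
  carrier := {f | f ∈ F.cker ∧ f ∈ F.zker Finset.univ}
  mul_mem' {f g} hf hg := by
    constructor
    · intro a b
      rw [Derivation.leibniz, hf.1 a b, hg.1 a b, smul_zero, smul_zero, add_zero]
    · intro a ha ha'
      rw [Derivation.leibniz, hf.2 a ha ha', hg.2 a ha ha', smul_zero, smul_zero, add_zero]
  add_mem' {f g} hf hg := ⟨F.cker.add_mem hf.1 hg.1, (F.zker Finset.univ).add_mem hf.2 hg.2⟩
  algebraMap_mem' c := by
    constructor
    · intro a b
      exact Derivation.map_algebraMap _ _
    · intro a _ _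
      exact Derivation.map_algebraMap _ _

private theorem mem_hzS {k R : Type*} [Field k] [CommRing R] [Algebra k R] {m : ℕ} {Γ : Type*}
    [AddCommGroup Γ] {F : Fam k R m Γ} {f : R} :
    f ∈ hzS F ↔ f ∈ F.cker ∧ f ∈ F.zker Finset.univ := Iff.rfl

theorem gfin_zero {k R J : Type*} [Field k] [CharZero k] [CommRing R] [IsDomain R] [Algebra k R]
    [Finite J] {W : AddSubgroup (J → ℤ)} (hW : Pointed W) {m : ℕ} {F : Fam k R m W}
    {v : J → RVal k R} (hF : Mono F v) (hNC : NoConst v W) (b : J → ℤ) :
    GFin fun γ : W => Eb v b (γ : J → ℤ) ⊓ F.cker ⊓ F.zker Finset.univ := by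
  classical
  have hstab : ∀ a, ∀ f ∈ hzS F, F.δ a f ∈ hzS F := by
    intro a f hf
    exact ⟨Fam.cker_stable hf.1 a, Fam.zker_stable hf.1 hf.2 a⟩
  obtain ⟨n, φ, hφ, hrange, hder⟩ := exists_poly F.δ (hzS F) hstab
    (fun a b f hf => Fam.comm_of_cker hf.1 a b) (fun a f _ => F.nil a f)
    (fun f _ h => F.ker f h)
  have hφS : ∀ f, φ f ∈ hzS F := by
    intro f
    rw [← hrange]
    exact ⟨f, rfl⟩
  have hφ0 : ∀ {f}, f ≠ 0 → φ f ≠ 0 := by
    intro f hf h
    exact hf (hφ (by rw [h, map_zero]))
  have hφC : ∀ c : k, φ (C c) = algebraMap k R c := by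
    intro c
    rw [← algebraMap_eq, AlgHom.commutes]
  -- derivatives do not decrease the value
  have hpd : ∀ (i : J) (c : ℤ) (j : Fin n) (f : MvPolynomial (Fin n) k), (v i).Ge c (φ f) →
      (v i).Ge c (φ (pderiv j f)) := by
    intro i c j f hf
    obtain ⟨e, he⟩ := hder j
    rw [he]
    refine RVal.Ge.sum fun a _ => ?_
    by_cases ha : F.ω a = 0
    · have h1 := hF i a c (φ f) hf
      rw [ha] at h1
      have h2 : c - ((0 : W) : J → ℤ) i = c := by simp
      rw [h2] at h1
      exact h1.smul _
    · rw [(hφS f).2 a (Finset.mem_univ a) ha, smul_zero]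
      exact RVal.Ge.zero
  let G : J → ℤ → Submodule k (MvPolynomial (Fin n) k) := fun i c =>
    ((v i).filt c).comap φ.toLinearMap
  have hG : ∀ i c f, f ∈ G i c ↔ (v i).Ge c (φ f) := fun i c f => Iff.rfl
  have hsh : ∀ (i : J) (c : ℤ) (a : Fin n → k) (f : MvPolynomial (Fin n) k),
      (v i).Ge c (φ f) → (v i).Ge c (φ (shift a f)) := by
    intro i c a f hf
    exact hz_shift_mem (G i c) (fun j g hg => hpd i c j g hg) a f hf
  have hle : ∀ (i : J) (a : Fin n → k) (f : MvPolynomial (Fin n) k), f ≠ 0 →
      (v i) (φ f) ≤ (v i) (φ (shift a f)) := by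
    intro i a f hf
    have h1 := hsh i _ a f (RVal.ge_self (v := v i) (φ f))
    rwa [RVal.ge_iff (hφ0 (Pool.Agent.Helper93.KN.shift_ne_zero a hf))] at h1
  let u : J → Pool.Agent.Helper93.KN.PVal k (Fin n) := fun i =>
    { toFun := fun f => v i (φ f)
      map_zero' := by rw [map_zero, RVal.map_zero]
      map_mul' := fun f g hf hg => by
        rw [map_mul]
        exact (v i).map_mul (hφ0 hf) (hφ0 hg)
      map_add' := fun f g hf hg hfg => by
        rw [map_add]
        refine (v i).map_add' _ _ (hφ0 hf) (hφ0 hg) ?_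
        rw [← map_add]
        exact hφ0 hfg
      map_C' := fun c => by rw [hφC, RVal.map_const]
      map_shift' := fun a f => by
        by_cases hf : f = 0
        · rw [hf, map_zero]
        · refine le_antisymm ?_ (hle i a f hf)
          have h1 := hle i (-a) _ (Pool.Agent.Helper93.KN.shift_ne_zero a hf)
          rwa [Pool.Agent.Helper93.KN.shift_shift, neg_add_cancel,
            Pool.Agent.Helper93.KN.shift_zero] at h1 }
  have hu : ∀ i f, u i f = v i (φ f) := fun i f => rfl
  have hGe : ∀ (i : J) (c : ℤ) (f : MvPolynomial (Fin n) k),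
      (u i).Ge (c : ℚ) f ↔ (v i).Ge c (φ f) := by
    intro i c f
    by_cases hf : f = 0
    · rw [hf, map_zero]
      exact ⟨fun _ => RVal.Ge.zero, fun _ => Pool.Agent.Helper93.KN.PVal.Ge.zero⟩
    · rw [Pool.Agent.Helper93.KN.PVal.ge_iff hf, RVal.ge_iff (hφ0 hf), hu]
      exact Int.cast_le
  have hlin : ∀ c : Fin n → k, (∀ i, (u i).Ge 0 (∑ j, C (c j) * X j)) → c = 0 := by
    intro c hc
    set g : MvPolynomial (Fin n) k := ∑ j, C (c j) * X j with hg
    have h1 : ∃ c0 : k, g = C c0 := by
      by_cases h0 : φ g = 0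
      · refine ⟨0, ?_⟩
        rw [C_0]
        by_contra hne
        exact hφ0 hne h0
      · have h2 : φ g ∈ Eb v 0 (((0 : W) : W) : J → ℤ) := by
          rw [mem_Eb]
          intro i
          have h3 := (hGe i 0 g).1 (by simpa using hc i)
          simpa using h3
        obtain ⟨_, c0, hc0⟩ := hNC 0 (φ g) h2 h0
        refine ⟨c0, hφ ?_⟩
        rw [hc0, hφC]
    obtain ⟨c0, hc0⟩ := h1
    funext j
    have h2 : pderiv j g = C (c j) := by
      rw [hg, map_sum, Finset.sum_eq_single j]
      · rw [pderiv_C_mul, pderiv_X_self, mul_one]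
      · intro l _ hl
        rw [pderiv_C_mul, pderiv_X_of_ne hl, mul_zero]
      · intro h
        exact absurd (Finset.mem_univ j) h
    rw [hc0, pderiv_C] at h2
    have h3 : (C (c j) : MvPolynomial (Fin n) k) = C 0 := by rw [← h2, C_0]
    exact C_injective _ _ h3
  constructor
  · -- finitely many components
    refine (finite_ge hW b).subset ?_
    intro γ hγ
    have hnot : ¬ (Eb v b (γ : J → ℤ) ⊓ F.cker ⊓ F.zker Finset.univ : Submodule k R) ≤ ⊥ := by
      intro h
      exact hγ (le_bot_iff.1 h)
    obtain ⟨f, hf, hf0, hfa⟩ := exists_soc (F.isMalcev')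
      (E := Eb v b (γ : J → ℤ) ⊓ F.cker ⊓ F.zker Finset.univ) (E' := ⊥)
      (by
        intro a f hf
        obtain ⟨⟨h1, h2⟩, h3⟩ := hf
        have h4 : F.δ a f ∈ Eb v b (γ : J → ℤ) := by
          by_cases ha : F.ω a = 0
          · have h5 := Eb_stable hF a h1
            rwa [ha, add_zero] at h5
          · rw [h3 a (Finset.mem_univ a) ha]
            exact Submodule.zero_mem _
        exact ⟨⟨h4, Fam.cker_stable h2 a⟩, Fam.zker_stable h2 h3 a⟩)
      (by
        intro a f hf
        rw [Submodule.mem_bot] at hf ⊢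
        rw [hf, map_zero])
      (by
        intro a f _
        obtain ⟨N, hN⟩ := F.nil a f
        refine ⟨N, ?_⟩
        rw [Module.End.pow_apply]
        exact hN)
      hnot
    obtain ⟨c, hc⟩ := F.ker f fun a => (Submodule.mem_bot k).1 (hfa a)
    have hf0' : f ≠ 0 := fun h => hf0 ((Submodule.mem_bot k).2 h)
    intro i
    have h1 := (mem_Eb.1 hf.1.1) i
    rw [RVal.ge_iff hf0', hc, RVal.map_const] at h1
    linarith
  · -- every component is finite dimensional
    intro γ
    have hfd := Pool.Agent.Helper93.KN.heart u hlin (fun i => ((b i + (γ : J → ℤ) i : ℤ) : ℚ))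
    have hle' : (Eb v b (γ : J → ℤ) ⊓ F.cker ⊓ F.zker Finset.univ : Submodule k R) ≤
        (Pool.Agent.Helper93.KN.filtAll u
          (fun i => ((b i + (γ : J → ℤ) i : ℤ) : ℚ))).map φ.toLinearMap := by
      intro f hf
      obtain ⟨⟨h1, h2⟩, h3⟩ := hf
      have h4 : f ∈ φ.range := by
        rw [hrange]
        exact ⟨h2, h3⟩
      obtain ⟨g, rfl⟩ := h4
      refine ⟨g, ?_, rfl⟩
      rw [SetLike.mem_coe, Pool.Agent.Helper93.KN.mem_filtAll]
      intro i
      have h5 := (mem_Eb.1 h1) i
      have h6 : -(((b i + (γ : J → ℤ) i : ℤ) : ℚ)) = ((-(b i) - (γ : J → ℤ) i : ℤ) : ℚ) := by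
        push_cast
        ring
      rw [h6, hGe]
      exact h5
    exact Submodule.finiteDimensional_of_le hle'

end Pool.Agent.Helper87.KS
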