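import Pool.Agent.Helper87.KS.HComm
import Pool.Agent.Helper87.KS.HStep
import Pool.Agent.Helper87.KS.HZero

set_option autoImplicit false

/-! Module KS-09. The heart.

PROOF. `gfin_of_comm` reduces to `Eb v b γ ⊓ F.cker`. For a finset `s` of indices let
`E_s γ = Eb v b γ ⊓ F.cker ⊓ F.zker s`, stable under all `δ a` (`Eb_stable`, `Fam.cker_stable`,
`Fam.zker_stable`), commuting. `E_univ` is `GFin` by `gfin_zero`. Removing one index `p` from `s`
(induction on `univ \ s`): if `ω p = 0` nothing changes (`zker`); otherwise `E_s ⊓ ker (δ p) = E_{insert p s}`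
and `gfin_step`. So `E_∅` is `GFin`, and `zker ∅ = ⊤`. -/

namespace Pool.Agent.Helper87.KS

theorem heart {k R J : Type*} [Field k] [IsAlgClosed k] [CharZero k] [CommRing R] [IsDomain R]
    [Algebra k R] [Finite J] {W : AddSubgroup (J → ℤ)} (hW : Pointed W) {m : ℕ} {F : Fam k R m W}
    {v : J → RVal k R} (hF : Mono F v) (hNC : NoConst v W) (b : J → ℤ) :
    GFin fun γ : W => Eb v b (γ : J → ℤ) := by
  classical
  refine gfin_of_comm F (fun a ω f hf => Eb_stable hF a hf) ?_
  have key : ∀ (n : ℕ) (s : Finset (Fin m)), (Finset.univ \ s).card = n →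
      GFin fun γ : W => Eb v b (γ : J → ℤ) ⊓ F.cker ⊓ F.zker s := by
    intro n
    induction n with
    | zero =>
      intro s hs
      have h1 : s = Finset.univ := by
        rw [Finset.card_eq_zero, Finset.sdiff_eq_empty_iff_subset] at hs
        exact Finset.univ_subset_iff.1 hs
      rw [h1]
      exact gfin_zero hW hF hNC b
    | succ n ih =>
      intro s hs
      obtain ⟨p, hp⟩ : (Finset.univ \ s).Nonempty := by
        rw [← Finset.card_pos]
        omega
      have hps : p ∉ s := (Finset.mem_sdiff.1 hp).2
      have h1 : GFin fun γ : W => Eb v b (γ : J → ℤ) ⊓ F.cker ⊓ F.zker (insert p s) := by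
        apply ih
        have h2 : Finset.univ \ insert p s = (Finset.univ \ s).erase p := by
          ext x
          simp only [Finset.mem_sdiff, Finset.mem_univ, true_and, Finset.mem_insert,
            Finset.mem_erase, not_or]
        rw [h2, Finset.card_erase_of_mem hp, hs]
        rfl
      by_cases hω : F.ω p = 0
      · have h2 : F.zker (insert p s) = F.zker s := by
          ext f
          rw [Fam.mem_zker, Fam.mem_zker]
          constructor
          · intro h a ha
            exact h a (Finset.mem_insert_of_mem ha)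
          · intro h a ha ha'
            rcases Finset.mem_insert.1 ha with rfl | ha
            · exact absurd hω ha'
            · exact h a ha ha'
        rw [h2] at h1
        exact h1
      · have h2 : ∀ γ : W, Eb v b (γ : J → ℤ) ⊓ F.cker ⊓ F.zker s ⊓
            LinearMap.ker ((F.δ p : R →ₗ[k] R)) =
            Eb v b (γ : J → ℤ) ⊓ F.cker ⊓ F.zker (insert p s) := by
          intro γ
          ext f
          simp only [Submodule.mem_inf, LinearMap.mem_ker, Fam.mem_zker]
          constructor
          · rintro ⟨⟨h, h'⟩, h''⟩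
            refine ⟨h, fun a ha ha' => ?_⟩
            rcases Finset.mem_insert.1 ha with rfl | ha
            · exact h''
            · exact h' a ha ha'
          · rintro ⟨h, h'⟩
            exact ⟨⟨h, fun a ha ha' => h' a (Finset.mem_insert_of_mem ha) ha'⟩,
              h' p (Finset.mem_insert_self p s) hω⟩
        refine gfin_step hW (F := F) hNC (b := b) (fun γ => inf_le_left.trans inf_le_left) ?_ ?_ p
          hω ?_
        · rintro a γ f ⟨⟨hf1, hf2⟩, hf3⟩
          exact ⟨⟨Eb_stable hF a hf1, Fam.cker_stable hf2 a⟩, Fam.zker_stable hf2 hf3 a⟩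
        · rintro a a' γ f ⟨⟨_, hf2⟩, _⟩
          exact Fam.comm_of_cker hf2 a a'
        · have h3 : (fun γ : W => Eb v b (γ : J → ℤ) ⊓ F.cker ⊓ F.zker s ⊓
              LinearMap.ker ((F.δ p : R →ₗ[k] R))) =
              fun γ : W => Eb v b (γ : J → ℤ) ⊓ F.cker ⊓ F.zker (insert p s) := funext h2
          rw [h3]
          exact h1
  have h1 := key _ ∅ rfl
  have h2 : (fun γ : W => Eb v b (γ : J → ℤ) ⊓ F.cker ⊓ F.zker ∅) =
      fun γ : W => Eb v b (γ : J → ℤ) ⊓ F.cker := by
    funext γ
    have h3 : F.zker ∅ = ⊤ := by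
      rw [eq_top_iff]
      intro f _ a ha
      exact absurd ha (Finset.notMem_empty a)
    rw [h3, inf_top_eq]
  rw [h2] at h1
  exact h1

end Pool.Agent.Helper87.KS
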