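import Pool.Agent.Helper93.KS.LemmaP

set_option autoImplicit false

/-! Module KS-PL (Lemma P), owner helper93 (Pade argument). The statement is fixed.

PROOF (helper93). Fix `i` with `p i > 0`, `p = p i`, `v = v i`. For `M` large there are `P, Q ∈ k[z]`,
`P ≠ 0`, of degree `≤ M` with `P g - Q = O(z ^ (2 M + 1))` (linear algebra). `Θ = P (z Ψ' - A Ψ) - Q Ψ =
(P g - Q) Ψ`. If `P g - Q = c z ^ L + ...`, `c ≠ 0`, `L ≥ 2 M + 1`, the coefficient of `z ^ L` of `Θ` is `c`, of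
value `0`, but it is a combination of `A_j Ψ_r`, `r ≥ L - M - deg A`, of positive value for `M` large. So
`P g = Q`. Write `Q = c' P + S`, `deg S < deg P`. `P z Ψ' = P (A + c') Ψ + S Ψ`. For the Gauss norm
`w (∑ a_r z ^ r) = min (v a_r - p r)`: `w P = -p deg P ≤ w S`, `w (z Ψ') ≥ w Ψ`, so
`w (P (A + c') Ψ) ≥ w P + w Ψ` and `w (A + c') ≥ 0`: `v (A_n + c'_n) ≥ n p` for `n ≥ 1`. The polynomial part
`c'` depends only on `g`, not on `i`. For `p i ≤ 0`: the same Gauss argument for `z Ψ' = (A + g) Ψ` with the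
slope `p i` gives `v_i (A_n) ≥ n p_i` (`w g ≥ 0`), and `v_i (c'_n) = 0 ≥ n p_i`. Take `c = c'`. -/

namespace Pool.Agent.Helper87.KS

theorem lemmaP {k R : Type*} [Field k] [CharZero k] [CommRing R] [IsDomain R] [Algebra k R]
    {J : Type*} (v : J → RVal k R) (p B : J → ℤ) (Ψ : PowerSeries R) (A : Polynomial R)
    (g : PowerSeries k) (h0 : PowerSeries.coeff 0 Ψ = 1) (hA : A.coeff 0 = 0)
    (hg : PowerSeries.coeff 0 g = 0)
    (hΨ : ∀ i (r : ℕ), (v i).Ge (r * p i - B i) (PowerSeries.coeff r Ψ))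
    (hode : ∀ r : ℕ, (r : R) * PowerSeries.coeff r Ψ =
      PowerSeries.coeff r (((A : PowerSeries R) + PowerSeries.map (algebraMap k R) g) * Ψ))
    (hp : ∃ i, 0 < p i) :
    ∃ c : ℕ → k, ∀ i (n : ℕ), 1 ≤ n → (v i).Ge (n * p i) (A.coeff n + algebraMap k R (c n)) := by
  obtain ⟨c, hc⟩ := Pool.Agent.Helper93.KS.lemmaP v p B hp Ψ A g h0 hΨ hode
  exact ⟨c, fun i n _ => hc i n⟩

end Pool.Agent.Helper87.KS
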