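import Pool.Agent.Helper87.KS.Defs

set_option autoImplicit false

/-!
# Project KS: the boundary data of a variety with an open orbit of a solvable group
(interface between the geometry and the algebra)
-/

namespace Pool.Agent.Helper87.KS

/-- The pairing. -/
def ip {s : ℕ} (w u : Fin s → ℤ) : ℤ := ∑ l, u l * w l

lemma ip_add {s : ℕ} (w u u' : Fin s → ℤ) : ip w (u + u') = ip w u + ip w u' := by
  unfold ip
  rw [← Finset.sum_add_distrib]
  exact Finset.sum_congr rfl fun l _ => by rw [Pi.add_apply, add_mul]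

@[simp] lemma ip_zero {s : ℕ} (w : Fin s → ℤ) : ip w 0 = 0 := by
  simp [ip]

lemma ip_neg {s : ℕ} (w u : Fin s → ℤ) : ip w (-u) = -ip w u := by
  have h := ip_add w u (-u)
  rw [add_neg_cancel, ip_zero] at h
  omega

/-- The combinatorial data of the boundary: for every prime divisor `i` of the boundary its
valuation `v i` on `R = k[x₁, ..., x_r]` and its values `w i` on `y₁, ..., y_s`; and a family of
derivations of `R` with weights, such that the `y^β δ` act on the sections. -/
structure SData (k : Type*) [Field k] (r s : ℕ) (H : Type*) where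
  m : ℕ
  F : Fam k (MvPolynomial (Fin r) k) m (Fin s → ℤ)
  v : H → RVal k (MvPolynomial (Fin r) k)
  w : H → Fin s → ℤ
  mono : ∀ i a (n : ℤ) f, (v i).Ge n f → (v i).Ge (n - ip (w i) (F.ω a)) (F.δ a f)
  C : ℕ
  deg_le : ∀ (T : ℕ) (u : Fin s → ℤ) (f : MvPolynomial (Fin r) k), f ≠ 0 →
    (∀ i, (v i).Ge (-(T : ℤ) - ip (w i) u) f) →
    f.totalDegree ≤ C * (T + 1) ∧ ∀ j, |u j| ≤ C * (T + 1)

/-- The sections: the `∑ f_u y^u` with `v_i(f_u) + ⟨w_i, u⟩ ≥ -G_i` for all `u` and `i`. -/
def SData.sec {k : Type*} [Field k] {r s : ℕ} {H : Type*} (B : SData k r s H) (G : H → ℤ) :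
    Submodule k ((Fin s → ℤ) →₀ MvPolynomial (Fin r) k) where
  carrier := {f | ∀ u i, (B.v i).Ge (-(G i) - ip (B.w i) u) (f u)}
  zero_mem' u i := by simp
  add_mem' {f g} hf hg u i := by
    rw [Finsupp.add_apply]
    exact (hf u i).add (hg u i)
  smul_mem' c f hf u i := by
    rw [Finsupp.smul_apply]
    exact (hf u i).smul c

lemma SData.mem_sec {k : Type*} [Field k] {r s : ℕ} {H : Type*} {B : SData k r s H} {G : H → ℤ}
    {f : (Fin s → ℤ) →₀ MvPolynomial (Fin r) k} :
    f ∈ B.sec G ↔ ∀ u i, (B.v i).Ge (-(G i) - ip (B.w i) u) (f u) := Iff.rfl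

end Pool.Agent.Helper87.KS
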