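import Pool.Agent.Helper87.KS.SData
import Pool.Agent.Helper87.KS.Soc
import Pool.Agent.Helper87.KS.Grad
import Pool.Agent.Helper87.KS.FilL
import Pool.Agent.Helper92.Weak.Core

set_option autoImplicit false

/-!
# Project KS, module KS-18: sections

`exists_monomial`. PROOF: `B.sec G` is stable under the `B.F.op a` (`B.mono`, `tilde_apply`, `ip_add`). `exists_soc` with
`E' = ⊥` (`Fam.isMalcev`, `Fam.op_nil`) gives `f ∈ B.sec G`, `f ≠ 0`, killed by all `B.F.op a`; so every component `f u` is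
killed by all `δ a` (`tilde_apply` at `u + ω a`), a constant (`F.ker`); one of them is not zero: `0 = v_i (f u) ≥ -G_i - ip (w i) u`.

`sdim_shift`. PROOF: multiplication by `y^(-μ)`, i.e. `Finsupp.domLCongr`/`lmapDomain` along `u ↦ u - μ` (`tilde 1 (-μ)`), is
an isomorphism from `B.sec G` onto `B.sec (G + w μ)` (`ip_add`, `ip_neg`); `sdim_eq_of_equiv`.

`sdim_le_cntb`. PROOF: for `f ∈ B.sec G`, `f u ≠ 0`: `v_i (f u) ≥ -G_i - ip (w i) u ≥ -T - ip (w i) u`, so by `deg_le`
`f u ∈ Fil id (C (T + 1))` and `u ∈ box s (C (T + 1))`; and `f u ∈ Eb v b (w u)` on `Z`. So `B.sec G` embeds in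
the product over `u ∈ box` of `Eb ⊓ Fil` (restriction of the components).

`exists_cntb_le_sdim`. PROOF: there is `c` with `v_i (f) ≥ -c T` for all `f ≠ 0` with `totalDegree f ≤ T`, all `i` (for a monomial
`v_i` is the sum of the `v_i (X_j)`; `c ≥ -v_i (X_j)`), and `c'` with `|ip (w i) u| ≤ c' T` for `u ∈ box s T`. `C = c + c'`. The
product over `u ∈ box s T` of the `Eb v 0 (w u) ⊓ Fil id T` embeds in `B.sec G` by `(g_u) ↦ ∑ single u (g_u)`: for `i ∈ Z`
`v_i (g_u) ≥ -ip (w i) u ≥ -G_i - ip (w i) u`, for `i ∉ Z` `v_i (g_u) ≥ -c T ≥ -G_i - ip (w i) u`. The dimension of the finite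
product is `cntb` (`Module.finrank_pi_fintype`; `sdim` is `Cardinal.toENat (Module.rank ..)`). -/

namespace Pool.Agent.Helper87.KS

open Pool.Agent.Helper92.Weak

/-- The same derivations, with the weights mapped by a homomorphism. -/
def Fam.map {k R Γ Γ' : Type*} [Field k] [CommRing R] [Algebra k R] [AddCommGroup Γ]
    [AddCommGroup Γ'] {m : ℕ} (F : Fam k R m Γ) (g : Γ →+ Γ') : Fam k R m Γ' where
  δ := F.δ
  ω a := g (F.ω a)
  malcev a b := by
    refine Submodule.span_mono (Set.image_mono ?_) (F.malcev a b)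
    rintro c ⟨h1, h2, h3⟩
    exact ⟨h1, h2, by rw [h3, map_add]⟩
  nil := F.nil
  ker := F.ker

variable {k : Type*} [Field k] {r s : ℕ} {H : Type*}

/-- The homomorphism `μ ↦ (⟨w_i, μ⟩)_i`. -/
def SData.wH (B : SData k r s H) (Z : Set H) : (Fin s → ℤ) →+ (Z → ℤ) where
  toFun μ i := ip (B.w i) μ
  map_zero' := by
    funext i
    simp
  map_add' μ μ' := by
    funext i
    exact ip_add _ _ _

@[simp] lemma SData.wH_apply (B : SData k r s H) (Z : Set H) (μ : Fin s → ℤ) (i : Z) :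
    B.wH Z μ i = ip (B.w i) μ := rfl

theorem SData.exists_monomial (B : SData k r s H) {G : H → ℤ} (h : B.sec G ≠ ⊥) :
    ∃ μ : Fin s → ℤ, ∀ i, -(G i) ≤ ip (B.w i) μ := by
  have hst : ∀ a, ∀ f ∈ B.sec G, B.F.op a f ∈ B.sec G := by
    intro a f hf
    rw [SData.mem_sec] at hf ⊢
    intro u i
    unfold Fam.op
    rw [tilde_apply]
    have h1 := B.mono i a _ _ (hf (u - B.F.ω a) i)
    have h2 := ip_add (B.w i) (u - B.F.ω a) (B.F.ω a)
    rw [sub_add_cancel] at h2
    refine h1.mono (le_of_eq ?_)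
    rw [h2]
    ring
  obtain ⟨f, hf, hf0, hfa⟩ := exists_soc B.F.isMalcev (E := B.sec G) (E' := ⊥) hst
    (fun a f hf => by
      rw [Submodule.mem_bot] at hf ⊢
      rw [hf, map_zero])
    (fun a f _ => B.F.op_nil a f) (fun hle => h (le_bot_iff.1 hle))
  have hf0' : f ≠ 0 := fun h0 => hf0 (by rw [h0]; exact Submodule.zero_mem _)
  obtain ⟨u, hu⟩ : ∃ u, f u ≠ 0 := by
    by_contra hcon
    push Not at hcon
    exact hf0' (Finsupp.ext hcon)
  have hker : ∀ a, B.F.δ a (f u) = 0 := by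
    intro a
    have h1 := hfa a
    rw [Submodule.mem_bot] at h1
    have h2 := DFunLike.congr_fun h1 (u + B.F.ω a)
    unfold Fam.op at h2
    rw [tilde_apply, add_sub_cancel_right] at h2
    exact h2
  obtain ⟨c, hc⟩ := B.F.ker _ hker
  refine ⟨u, fun i => ?_⟩
  have h3 := (SData.mem_sec.1 hf) u i
  rw [RVal.ge_iff hu, hc, RVal.map_const] at h3
  omega

private lemma sdim_shift_le (B : SData k r s H) (G : H → ℤ) (μ : Fin s → ℤ) :
    sdim (B.sec fun i => G i + ip (B.w i) μ) ≤ sdim (B.sec G) := by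
  have hmem : ∀ f ∈ B.sec (fun i => G i + ip (B.w i) μ),
      tilde (1 : Module.End k (MvPolynomial (Fin r) k)) μ f ∈ B.sec G := by
    intro f hf
    rw [SData.mem_sec] at hf ⊢
    intro u i
    rw [tilde_apply]
    have h1 := hf (u - μ) i
    have h2 := ip_add (B.w i) (u - μ) μ
    rw [sub_add_cancel] at h2
    refine h1.mono (le_of_eq ?_)
    rw [h2]
    ring
  refine sdim_le_of_injective
    ((tilde (1 : Module.End k (MvPolynomial (Fin r) k)) μ).restrict hmem) ?_
  intro f g hfg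
  apply Subtype.ext
  refine Finsupp.ext fun u => ?_
  have h1 := congrArg Subtype.val hfg
  have h2 := DFunLike.congr_fun h1 (u + μ)
  rw [LinearMap.coe_restrict_apply, LinearMap.coe_restrict_apply, tilde_apply, tilde_apply,
    add_sub_cancel_right] at h2
  exact h2

theorem SData.sdim_shift (B : SData k r s H) (G : H → ℤ) (μ : Fin s → ℤ) :
    sdim (B.sec fun i => G i + ip (B.w i) μ) = sdim (B.sec G) := by
  refine le_antisymm (sdim_shift_le B G μ) ?_
  have h := sdim_shift_le B (fun i => G i + ip (B.w i) μ) (-μ)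
  have e : (fun i => G i + ip (B.w i) μ + ip (B.w i) (-μ)) = G := by
    funext i
    rw [ip_neg]
    ring
  rwa [e] at h

/-- The dimension count of the face `Z`. -/
noncomputable def SData.cnt (B : SData k r s H) (Z : Set H) (b : Z → ℤ) (T : ℕ) : ℕ :=
  cntb (AlgHom.id k (MvPolynomial (Fin r) k)) (fun i : Z => B.v i) (B.wH Z).rangeRestrict b T

private lemma mem_fil_id {T : ℕ} {f : MvPolynomial (Fin r) k} :
    f ∈ Fil (AlgHom.id k (MvPolynomial (Fin r) k)) T ↔ f.totalDegree ≤ T := by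
  rw [mem_fil]
  constructor
  · rintro ⟨p, hp, rfl⟩
    exact hp
  · intro h
    exact ⟨f, h, rfl⟩

/-- The factor of index `u`. -/
private noncomputable abbrev WW (B : SData k r s H) (Z : Set H) (b : Z → ℤ) (T : ℕ) (u : Fin s → ℤ) :
    Submodule k (MvPolynomial (Fin r) k) :=
  Eb (fun i : Z => B.v i) b ((B.wH Z).rangeRestrict u : Z → ℤ) ⊓
    Fil (AlgHom.id k (MvPolynomial (Fin r) k)) T

private lemma WW_fin (B : SData k r s H) (Z : Set H) (b : Z → ℤ) (T : ℕ) (u : Fin s → ℤ) :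
    FiniteDimensional k (WW B Z b T u) := by
  have hfin := fil_finite (AlgHom.id k (MvPolynomial (Fin r) k)) T
  exact Submodule.finiteDimensional_of_le
    (inf_le_right : _ ≤ Fil (AlgHom.id k (MvPolynomial (Fin r) k)) T)

private lemma mem_WW {B : SData k r s H} {Z : Set H} {b : Z → ℤ} {T : ℕ} {u : Fin s → ℤ}
    {f : MvPolynomial (Fin r) k} : f ∈ WW B Z b T u ↔
      (∀ i : Z, (B.v i).Ge (-(b i) - ip (B.w i) u) f) ∧ f.totalDegree ≤ T := by
  rw [Submodule.mem_inf, mem_Eb, mem_fil_id]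
  rfl

private lemma cnt_eq (B : SData k r s H) (Z : Set H) (b : Z → ℤ) (T : ℕ) :
    (B.cnt Z b T : ℕ∞) =
      Cardinal.toENat (Module.rank k ((u : box s T) → WW B Z b T (u : Fin s → ℤ))) := by
  have := fun u : box s T => WW_fin B Z b T (u : Fin s → ℤ)
  rw [← Module.finrank_eq_rank, Module.finrank_pi_fintype, Cardinal.toENat_nat]
  congr 1
  unfold SData.cnt cntb
  exact (Finset.sum_coe_sort (box s T) fun u => Module.finrank k (WW B Z b T u)).symm

theorem SData.sdim_le_cnt (B : SData k r s H) (Z : Set H) (b G : H → ℤ) (T : ℕ)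
    (hT : ∀ i, G i ≤ T) (hb : ∀ i ∈ Z, G i ≤ b i) :
    sdim (B.sec G) ≤ (B.cnt Z (fun i => b i) (B.C * (T + 1)) : ℕ∞) := by
  rw [cnt_eq]
  have hdeg : ∀ f ∈ B.sec G, ∀ u, f u ≠ 0 →
      (f u).totalDegree ≤ B.C * (T + 1) ∧ ∀ j, |u j| ≤ B.C * (T + 1) := by
    intro f hf u hu
    refine B.deg_le T u (f u) hu fun i => ?_
    exact ((SData.mem_sec.1 hf) u i).mono (by linarith [hT i])
  have hmem : ∀ f ∈ B.sec G, ∀ u, f u ∈ WW B Z (fun i => b i) (B.C * (T + 1)) u := by
    intro f hf u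
    rw [mem_WW]
    refine ⟨fun i => ((SData.mem_sec.1 hf) u i).mono (by linarith [hb i i.2]), ?_⟩
    by_cases hu : f u = 0
    · rw [hu, MvPolynomial.totalDegree_zero]
      exact Nat.zero_le _
    · exact (hdeg f hf u hu).1
  let φ : B.sec G →ₗ[k] ((u : box s (B.C * (T + 1))) →
      WW B Z (fun i => b i) (B.C * (T + 1)) (u : Fin s → ℤ)) :=
    { toFun := fun f u => ⟨(f : (Fin s → ℤ) →₀ MvPolynomial (Fin r) k) u, hmem f f.2 u⟩
      map_add' := fun f g => rfl
      map_smul' := fun c f => rfl }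
  have hφ : Function.Injective φ := by
    intro f g hfg
    apply Subtype.ext
    refine Finsupp.ext fun u => ?_
    by_cases hu : u ∈ box s (B.C * (T + 1))
    · have h1 := congrFun hfg ⟨u, hu⟩
      exact congrArg Subtype.val h1
    · have h2 : ∀ f ∈ B.sec G, f u = 0 := by
        intro f hf
        by_contra h0
        apply hu
        rw [mem_box]
        intro j
        have h3 := (hdeg f hf u h0).2 j
        push_cast
        exact_mod_cast h3
      rw [h2 f f.2, h2 g g.2]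
  have h := LinearMap.lift_rank_le_of_injective φ hφ
  have h2 := OrderHomClass.mono Cardinal.toENat h
  rwa [Cardinal.toENat_lift, Cardinal.toENat_lift] at h2

private lemma ge_prod (v : RVal k (MvPolynomial (Fin r) k)) {c : ℤ}
    (hc : ∀ j, v.Ge (-c) (MvPolynomial.X j)) (d : Fin r →₀ ℕ) (S : Finset (Fin r)) :
    v.Ge (-c * ∑ j ∈ S, (d j : ℤ)) (∏ j ∈ S, (MvPolynomial.X j : MvPolynomial (Fin r) k) ^ d j) := by
  classical
  induction S using Finset.induction_on with
  | empty =>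
    rw [Finset.sum_empty, Finset.prod_empty, mul_zero]
    exact RVal.ge_one le_rfl
  | insert a S ha ih =>
    rw [Finset.prod_insert ha, Finset.sum_insert ha]
    refine (((hc a).pow (d a)).mul ih).mono (le_of_eq ?_)
    ring

private lemma ge_deg (v : RVal k (MvPolynomial (Fin r) k)) {c : ℤ} (hc0 : 0 ≤ c)
    (hc : ∀ j, v.Ge (-c) (MvPolynomial.X j)) {T : ℕ} {f : MvPolynomial (Fin r) k}
    (hf : f.totalDegree ≤ T) : v.Ge (-(c * T)) f := by
  rw [f.as_sum]
  refine RVal.Ge.sum fun d hd => ?_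
  rw [MvPolynomial.monomial_eq, Finsupp.prod_fintype _ _ (fun i => pow_zero _)]
  have h1 := (ge_prod v hc d Finset.univ).smul (f.coeff d)
  rw [MvPolynomial.smul_eq_C_mul] at h1
  refine h1.mono ?_
  have h2 := MvPolynomial.le_totalDegree hd
  rw [Finsupp.sum_fintype _ _ (fun _ => rfl)] at h2
  have h3 : (∑ j, (d j : ℤ)) ≤ T := by
    have := h2.trans hf
    exact_mod_cast this
  nlinarith [mul_le_mul_of_nonneg_left h3 hc0]

private lemma ip_le {w u : Fin s → ℤ} {T : ℕ} (hu : u ∈ box s T) :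
    -ip w u ≤ (∑ l, |w l|) * T := by
  rw [mem_box] at hu
  unfold ip
  rw [← Finset.sum_neg_distrib, Finset.sum_mul]
  refine Finset.sum_le_sum fun l _ => ?_
  have h1 : -(u l * w l) ≤ |u l * w l| := neg_le_abs _
  rw [abs_mul] at h1
  have h2 := mul_le_mul_of_nonneg_right (hu l) (abs_nonneg (w l))
  linarith [mul_comm (|w l|) (T : ℤ)]

theorem SData.exists_cnt_le_sdim [Finite H] (B : SData k r s H) (Z : Set H) :
    ∃ C : ℕ, ∀ (T : ℕ) (G : H → ℤ), (∀ i ∈ Z, 0 ≤ G i) → (∀ i, i ∉ Z → (C : ℤ) * T ≤ G i) →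
      (B.cnt Z 0 T : ℕ∞) ≤ sdim (B.sec G) := by
  have hcst : ∀ i : H, ∃ c : ℕ, ∀ (T : ℕ) (u : Fin s → ℤ) (f : MvPolynomial (Fin r) k),
      u ∈ box s T → f.totalDegree ≤ T → (B.v i).Ge (-((c : ℤ) * T) - ip (B.w i) u) f := by
    intro i
    obtain ⟨c1, hc1⟩ : ∃ c1 : ℕ, ∀ j : Fin r, (B.v i).Ge (-(c1 : ℤ)) (MvPolynomial.X j) := by
      refine ⟨Finset.univ.sup fun j : Fin r => (-(B.v i (MvPolynomial.X j))).toNat, fun j => ?_⟩
      refine (RVal.ge_self _).mono ?_
      have h1 : (-(B.v i (MvPolynomial.X j))).toNat ≤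
          Finset.univ.sup fun j : Fin r => (-(B.v i (MvPolynomial.X j))).toNat :=
        Finset.le_sup (f := fun j : Fin r => (-(B.v i (MvPolynomial.X j))).toNat)
          (Finset.mem_univ j)
      have h2 : -(B.v i (MvPolynomial.X j)) ≤ ((-(B.v i (MvPolynomial.X j))).toNat : ℤ) :=
        Int.self_le_toNat _
      have h3 : ((-(B.v i (MvPolynomial.X j))).toNat : ℤ) ≤
          ((Finset.univ.sup fun j : Fin r => (-(B.v i (MvPolynomial.X j))).toNat : ℕ) : ℤ) := by
        exact_mod_cast h1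
      linarith
    refine ⟨c1 + (∑ l, |B.w i l|).toNat, fun T u f hu hf => ?_⟩
    refine (ge_deg (B.v i) (by positivity) hc1 hf).mono ?_
    have h4 := ip_le (w := B.w i) hu
    have h5 : ((∑ l, |B.w i l|).toNat : ℤ) = ∑ l, |B.w i l| :=
      Int.toNat_of_nonneg (Finset.sum_nonneg fun l _ => abs_nonneg _)
    push_cast
    rw [h5]
    linarith
  choose c hc using hcst
  obtain ⟨M, hM⟩ := Finite.exists_le c
  refine ⟨M, fun T G hZ hnZ => ?_⟩
  rw [cnt_eq]
  let φ : ((u : box s T) → WW B Z 0 T (u : Fin s → ℤ)) →ₗ[k]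
      ((Fin s → ℤ) →₀ MvPolynomial (Fin r) k) :=
    ∑ u : box s T, (Finsupp.lsingle (u : Fin s → ℤ)) ∘ₗ
      (WW B Z 0 T (u : Fin s → ℤ)).subtype ∘ₗ LinearMap.proj u
  have hφ1 : ∀ g, ∀ u, ∀ hu : u ∈ box s T, φ g u = (g ⟨u, hu⟩ : MvPolynomial (Fin r) k) := by
    intro g u hu
    simp only [φ, LinearMap.sum_apply, LinearMap.comp_apply, LinearMap.proj_apply,
      Submodule.subtype_apply, Finsupp.lsingle_apply, Finsupp.finsetSum_apply]
    rw [Finset.sum_eq_single (⟨u, hu⟩ : box s T)]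
    · rw [Finsupp.single_eq_same]
    · intro u' _ hne
      rw [Finsupp.single_apply, if_neg]
      intro h
      exact hne (Subtype.ext h)
    · intro h
      exact absurd (Finset.mem_univ _) h
  have hφ2 : ∀ g, ∀ u, u ∉ box s T → φ g u = 0 := by
    intro g u hu
    simp only [φ, LinearMap.sum_apply, LinearMap.comp_apply, LinearMap.proj_apply,
      Submodule.subtype_apply, Finsupp.lsingle_apply, Finsupp.finsetSum_apply]
    refine Finset.sum_eq_zero fun u' _ => ?_
    rw [Finsupp.single_apply, if_neg]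
    intro h
    exact hu (h ▸ u'.2)
  have hmem : ∀ g, φ g ∈ B.sec G := by
    intro g
    rw [SData.mem_sec]
    intro u i
    by_cases hu : u ∈ box s T
    · rw [hφ1 g u hu]
      have h1 := mem_WW.1 (g ⟨u, hu⟩).2
      by_cases hi : i ∈ Z
      · refine (h1.1 ⟨i, hi⟩).mono ?_
        have := hZ i hi
        simp only [Pi.zero_apply]
        linarith
      · refine (hc i T u _ hu h1.2).mono ?_
        have h2 := hnZ i hi
        have h3 : (c i : ℤ) * T ≤ (M : ℤ) * T := by
          have := Nat.mul_le_mul_right T (hM i)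
          exact_mod_cast this
        linarith
    · rw [hφ2 g u hu]
      exact RVal.Ge.zero
  have hinj : Function.Injective (LinearMap.codRestrict (B.sec G) φ hmem) := by
    intro g g' hgg
    funext u
    apply Subtype.ext
    have h1 := congrArg Subtype.val hgg
    have h2 := DFunLike.congr_fun h1 (u : Fin s → ℤ)
    rw [LinearMap.codRestrict_apply, LinearMap.codRestrict_apply, hφ1 g u u.2, hφ1 g' u u.2] at h2
    exact h2
  have h := LinearMap.lift_rank_le_of_injective _ hinj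
  have h2 := OrderHomClass.mono Cardinal.toENat h
  rwa [Cardinal.toENat_lift, Cardinal.toENat_lift] at h2

end Pool.Agent.Helper87.KS
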